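import Pool.Agent.Helper72.BP.T.Zero

/-!
PROJECT BP, module BP-T6: the abstract one point theorem (perturbation of a transversal intersection point).

V ⊆ X with a linear chart K (inverse Gv on ball (K x0) R0), M ⊆ V given near x0 by L (K v) = 0; a family σ π b ∈ V (π in the good set Ps near π0, b near 0), σ π0 0 = x0, strictly differentiable at (π0, 0), with L K σ'(0,b) = b.
Ξ(w,b) := (K (Φ (Gv w)) - K (σ π b), L w) : Y × Z → Y × Z,  A(w,b) := (w - K σ'(0,b), L w), a linear isomorphism with inverse (y,z) ↦ (y + K σ'(0, z - L y), z - L y). N := ‖A.symm‖ + 1, c := 1/(2N).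
(1) Choose R2 > 0 with: closedBall (K x0) R2 ⊆ ball (K x0) R0, Gv Lipschitz with constant C on it (ContDiffAt.exists_lipschitzOnWith), ‖Gv w - x0‖ < ρ/2 on it (Gv (K x0) = x0 by hGK, continuity), and by strict differentiability a
δ1 with ‖σ π b - σ π b' - σ'(0, b - b')‖ ≤ c/(2(‖K‖+1)) ‖b - b'‖ for dist π π0 < δ1, ‖b‖, ‖b'‖ ≤ R2, and dist (σ π b) x0 < ρ (continuity at (π0,0)), σ π b ∈ V for π ∈ Ps, σ π differentiable at b.
(2) Φ = id + η, η is ε0-Lipschitz (Convex.norm_image_sub_le_of_norm_fderiv_le, fderiv (Φ - id) = fderiv Φ - id), so with K (Gv w) = w: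
Ξ(w,b) - Ξ(w',b') - A(w-w',b-b') = (K(η(Gv w) - η(Gv w')) - K(σ π b - σ π b' - σ'(0,b-b')), 0), norm ≤ ‖K‖ ε0 C ‖w-w'‖ + (c/2) ‖b-b'‖ ≤ c ‖(w,b)-(w',b')‖ when ‖K‖ ε0 C ≤ c/2.
‖Ξ(K x0,0)‖ ≤ ‖K‖ (‖Φ x0 - x0‖ + ‖x0 - σ π 0‖) ≤ R2/(4N) for ε0 and dist π π0 small (L (K x0) = 0 since x0 ∈ M).
(3) zero_of_approx gives (w*, b*) in closedBall (R2/2); xs := Gv w* ∈ V, near x0, L (K xs) = L w* = 0, so xs ∈ M; Φ xs ∈ V and σ π b* ∈ V are both within ρ of x0 (ε0 < ρ/2) and have the same K, so they agree (hGK).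
(4) R > 0 for the uniqueness: R ≤ R2, R ≤ ρ and ‖K‖ R ≤ R2: from x' ∈ M near x0: w' = K x' ∈ closedBall (K x0) R2, Gv w' = x' (hGK), L w' = 0, so Ξ(w',b') = 0, so (w',b') = (w*,b*).
(5) T0 := {DΦ(xs)(DGv(w*) w') : L w' = 0} = map of ker L under an injective linear map (K ∘ DGv = id by differentiating K (Gv w) = w; DΦ(xs) injective since ‖DΦ - id‖ ≤ ε0 < 1), finrank T0 = finrank (ker L).
Curves: c s := Φ (Gv (w* + s w')): for small s the point Gv (w* + s w') is in V near x0 with L(w* + s w') = 0, so in M; derivative by the chain rule.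
(6) If fderiv (σ π) b* b' = DΦ DGv w' with L w' = 0, then DΞ(w',b') = (K DΦ DGv w' - K Dσ b', L w') = 0, so b' = 0 by the last clause of zero_of_approx.
-/

set_option autoImplicit false
set_option synthInstance.maxSize 2000

namespace Pool.Agent.Helper72.BP

private theorem ao_equiv {Y Z : Type*} [NormedAddCommGroup Y] [NormedSpace ℝ Y]
    [NormedAddCommGroup Z] [NormedSpace ℝ Z] (B : Z →L[ℝ] Y) (L : Y →L[ℝ] Z) (h : ∀ b, L (B b) = b) :
    ∃ A : (Y × Z) ≃L[ℝ] (Y × Z), ∀ z : Y × Z, A z = (z.1 - B z.2, L z.1) := by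
  let f₁ : (Y × Z) →L[ℝ] (Y × Z) :=
    (ContinuousLinearMap.fst ℝ Y Z - B.comp (ContinuousLinearMap.snd ℝ Y Z)).prod
      (L.comp (ContinuousLinearMap.fst ℝ Y Z))
  let f₂ : (Y × Z) →L[ℝ] (Y × Z) :=
    (ContinuousLinearMap.fst ℝ Y Z + B.comp (ContinuousLinearMap.snd ℝ Y Z -
      L.comp (ContinuousLinearMap.fst ℝ Y Z))).prod
      (ContinuousLinearMap.snd ℝ Y Z - L.comp (ContinuousLinearMap.fst ℝ Y Z))
  have e1 : ∀ z : Y × Z, f₁ z = (z.1 - B z.2, L z.1) := fun z => rfl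
  have e2 : ∀ z : Y × Z, f₂ z = (z.1 + B (z.2 - L z.1), z.2 - L z.1) := fun z => rfl
  refine ⟨ContinuousLinearEquiv.equivOfInverse f₁ f₂ ?_ ?_, fun z => ?_⟩
  · intro z
    rw [e1, e2]
    refine Prod.ext ?_ ?_
    · simp only [map_sub, h]
      abel_nf
    · simp only [map_sub, h]
      abel_nf
  · intro z
    rw [e2, e1]
    refine Prod.ext ?_ ?_
    · simp only
      abel_nf
    · simp only [map_add, h]
      abel_nf
  · rw [ContinuousLinearEquiv.equivOfInverse_apply, e1]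

private theorem ao_ball {E : Type*} [PseudoMetricSpace E] {x : E} {S : Set E} (h : S ∈ nhds x) :
    ∃ r > 0, ∀ y, dist y x < r → y ∈ S := by
  obtain ⟨r, hr, h1⟩ := Metric.mem_nhds_iff.1 h
  exact ⟨r, hr, fun y hy => h1 (Metric.mem_ball.2 hy)⟩

theorem absOne {X Y Z P : Type*} [NormedAddCommGroup X] [NormedSpace ℝ X] [FiniteDimensional ℝ X]
    [NormedAddCommGroup Y] [NormedSpace ℝ Y] [FiniteDimensional ℝ Y]
    [NormedAddCommGroup Z] [NormedSpace ℝ Z] [FiniteDimensional ℝ Z]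
    [NormedAddCommGroup P] [NormedSpace ℝ P] [FiniteDimensional ℝ P]
    (V M : Set X) (x0 : X) (K : X →L[ℝ] Y) (L : Y →L[ℝ] Z) (Gv : Y → X) (R0 : ℝ) (hR0 : 0 < R0)
    (hG : ContDiffOn ℝ 1 Gv (Metric.ball (K x0) R0))
    (hGV : ∀ w ∈ Metric.ball (K x0) R0, Gv w ∈ V ∧ K (Gv w) = w)
    (ρ : ℝ) (hρ : 0 < ρ) (hGK : ∀ v ∈ V, dist v x0 < ρ → K v ∈ Metric.ball (K x0) R0 ∧ Gv (K v) = v)
    (hM : ∀ v ∈ V, dist v x0 < ρ → (v ∈ M ↔ L (K v) = 0)) (hx0 : x0 ∈ M) (hMV : M ⊆ V)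
    (σ : P → Z → X) (Ps : Set P) (π0 : P) (σ' : (P × Z) →L[ℝ] X)
    (hσ : HasStrictFDerivAt (fun z : P × Z => σ z.1 z.2) σ' (π0, 0)) (hσ0 : σ π0 0 = x0)
    (hσV : ∀ᶠ z in nhds ((π0, 0) : P × Z), z.1 ∈ Ps → σ z.1 z.2 ∈ V)
    (hσd : ∀ᶠ z in nhds ((π0, 0) : P × Z), z.1 ∈ Ps → DifferentiableAt ℝ (σ z.1) z.2)
    (hσL : ∀ b, L (K (σ' (0, b))) = b) :
    ∃ R > 0, ∃ ε0 > 0, ∃ δ > 0, ∀ Φ : X → X, ContDiff ℝ 1 Φ → (∀ x, ‖Φ x - x‖ ≤ ε0) →
      (∀ x, ‖fderiv ℝ Φ x - ContinuousLinearMap.id ℝ X‖ ≤ ε0) → (∀ x ∈ M, Φ x ∈ V) →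
      ∀ π ∈ Ps, dist π π0 < δ → ∃ xs ∈ M, ∃ b : Z, Φ xs = σ π b ∧
        (∀ x' ∈ M, ∀ b' : Z, dist x' x0 < R → ‖b'‖ < R → Φ x' = σ π b' → b' = b) ∧
        ∃ T0 : Submodule ℝ X, Module.finrank ℝ T0 = Module.finrank ℝ (LinearMap.ker (L : Y →ₗ[ℝ] Z)) ∧
          (∀ u ∈ T0, ∃ c : ℝ → X, c 0 = Φ xs ∧ HasDerivAt c u 0 ∧ ∀ᶠ s in nhds (0 : ℝ), c s ∈ Φ '' M) ∧
          ∀ b', fderiv ℝ (σ π) b b' ∈ T0 → b' = 0 := by
  classical
  set B : Z →L[ℝ] Y := K.comp (σ'.comp (ContinuousLinearMap.inr ℝ P Z)) with hB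
  have hBapp : ∀ b, B b = K (σ' (0, b)) := fun b => rfl
  obtain ⟨A, hA⟩ := ao_equiv B L (fun b => hσL b)
  set N : ℝ := ‖(A.symm : (Y × Z) →L[ℝ] (Y × Z))‖ + 1 with hN
  have hN0 : 0 < N := by positivity
  have hAN : ∀ y, ‖A.symm y‖ ≤ N * ‖y‖ := by
    intro y
    refine ((A.symm : (Y × Z) →L[ℝ] (Y × Z)).le_opNorm y).trans ?_
    exact mul_le_mul_of_nonneg_right (by linarith) (norm_nonneg y)
  set c : ℝ := 1 / (2 * N) with hc
  have hc0 : 0 < c := by positivity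
  have hcN : c * N = 1 / 2 := by rw [hc]; field_simp
  set κ : ℝ := ‖K‖ + 1 with hκ
  have hκ0 : 0 < κ := by positivity
  have hK : ∀ x, ‖K x‖ ≤ κ * ‖x‖ := by
    intro x
    refine (K.le_opNorm x).trans ?_
    exact mul_le_mul_of_nonneg_right (by linarith) (norm_nonneg x)
  have hx0V : x0 ∈ V := hMV hx0
  have hKx0 := hGK x0 hx0V (by rw [dist_self]; exact hρ)
  have hLx0 : L (K x0) = 0 := (hM x0 hx0V (by rw [dist_self]; exact hρ)).1 hx0
  have hGat : ContDiffAt ℝ 1 Gv (K x0) := hG.contDiffAt (Metric.isOpen_ball.mem_nhds hKx0.1)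
  obtain ⟨C, t, ht, hCt⟩ := hGat.exists_lipschitzOnWith
  have hGc : {w | dist (Gv w) x0 < ρ / 2} ∈ nhds (K x0) := by
    have h1 := hGat.continuousAt
    have h2 : Metric.ball x0 (ρ / 2) ∈ nhds (Gv (K x0)) := by
      rw [hKx0.2]
      exact Metric.ball_mem_nhds _ (by linarith)
    exact h1.preimage_mem_nhds h2
  obtain ⟨r1, hr1, hr1S⟩ := ao_ball (Filter.inter_mem ht (Filter.inter_mem
    (Metric.isOpen_ball.mem_nhds hKx0.1) hGc))
  have hc1 : 0 < c / (2 * κ) := by positivity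
  obtain ⟨s, hs, hsa⟩ := hσ.approximates_deriv_on_nhds (c := ⟨c / (2 * κ), hc1.le⟩) (Or.inr hc1)
  have hσc : ∀ e : ℝ, 0 < e → {z : P × Z | dist (σ z.1 z.2) x0 < e} ∈ nhds ((π0, 0) : P × Z) := by
    intro e he
    have h1 := hσ.continuousAt
    have h2 : Metric.ball x0 e ∈ nhds (σ π0 0) := by
      rw [hσ0]
      exact Metric.ball_mem_nhds _ he
    exact h1.preimage_mem_nhds h2
  obtain ⟨r2, hr2, hr2S⟩ := ao_ball (Filter.inter_mem hs (Filter.inter_mem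
    (Filter.inter_mem hσV hσd) (hσc ρ hρ)))
  obtain ⟨R2, hR2, hR2a, hR2b⟩ : ∃ R2 > 0, R2 < r1 ∧ R2 < r2 :=
    ⟨min r1 r2 / 2, by positivity, by have := min_le_left r1 r2; have := lt_min hr1 hr2; linarith,
      by have := min_le_right r1 r2; have := lt_min hr1 hr2; linarith⟩
  have hwS : ∀ w, dist w (K x0) ≤ R2 → w ∈ t ∧ w ∈ Metric.ball (K x0) R0 ∧ dist (Gv w) x0 < ρ / 2 :=
    fun w hw => hr1S w (lt_of_le_of_lt hw hR2a)
  obtain ⟨r3, hr3, hr3S⟩ := ao_ball (hσc (R2 / (8 * N * κ)) (by positivity))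
  obtain ⟨ε0, hε0, he1, he2, he3, he4⟩ : ∃ ε0 > 0, ε0 ≤ 1 / 2 ∧ ε0 ≤ ρ / 4 ∧
      ε0 ≤ c / (2 * κ * (C + 1)) ∧ ε0 ≤ R2 / (8 * N * κ) := by
    refine ⟨min (min (1 / 2) (ρ / 4)) (min (c / (2 * κ * (C + 1))) (R2 / (8 * N * κ))), ?_,
      (min_le_left _ _).trans (min_le_left _ _), (min_le_left _ _).trans (min_le_right _ _),
      (min_le_right _ _).trans (min_le_left _ _), (min_le_right _ _).trans (min_le_right _ _)⟩
    have hC : (0 : ℝ) ≤ C := C.2
    positivity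
  have hsig : ∀ π, dist π π0 < r2 → ∀ b : Z, ‖b‖ ≤ R2 → ((π, b) : P × Z) ∈ s ∧
      ((π ∈ Ps → σ π b ∈ V) ∧ (π ∈ Ps → DifferentiableAt ℝ (σ π) b)) ∧ dist (σ π b) x0 < ρ := by
    intro π hπ b hb
    refine hr2S (π, b) ?_
    rw [Prod.dist_eq, max_lt_iff]
    refine ⟨hπ, ?_⟩
    simp only [dist_zero_right]
    exact lt_of_le_of_lt hb hR2b
  refine ⟨min R2 (min ρ (R2 / κ)), by positivity, ε0, hε0, min r2 r3, by positivity, ?_⟩
  intro Φ hΦ hΦ1 hΦ2 hΦV π hπs hπ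
  have hπ2 : dist π π0 < r2 := lt_of_lt_of_le hπ (min_le_left _ _)
  have hπ3 : dist π π0 < r3 := lt_of_lt_of_le hπ (min_le_right _ _)
  have hΦd : Differentiable ℝ Φ := hΦ.differentiable one_ne_zero
  have hη : ∀ x y, ‖Φ x - Φ y - (x - y)‖ ≤ ε0 * ‖x - y‖ := by
    intro x y
    have := convex_univ.norm_image_sub_le_of_norm_fderiv_le' (𝕜 := ℝ) (f := Φ) (s := Set.univ) (C := ε0)
      (φ := ContinuousLinearMap.id ℝ X) (x := y) (y := x) (fun x _ => hΦd x) (fun x _ => hΦ2 x)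
      (Set.mem_univ _) (Set.mem_univ _)
    exact this
  let f : Y × Z → Y × Z := fun z => (K (Φ (Gv z.1)) - K (σ π z.2), L z.1)
  have hmem : ∀ z : Y × Z, z ∈ Metric.closedBall ((K x0, 0) : Y × Z) R2 →
      dist z.1 (K x0) ≤ R2 ∧ ‖z.2‖ ≤ R2 := by
    intro z hz
    rw [Metric.mem_closedBall, Prod.dist_eq, max_le_iff] at hz
    exact ⟨hz.1, by simpa using hz.2⟩
  have hf : ∀ x ∈ Metric.closedBall ((K x0, 0) : Y × Z) R2,
      ∀ y ∈ Metric.closedBall ((K x0, 0) : Y × Z) R2, ‖f x - f y - A (x - y)‖ ≤ c * ‖x - y‖ := by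
    intro z hz z' hz'
    obtain ⟨hz1, hz2⟩ := hmem z hz
    obtain ⟨hz'1, hz'2⟩ := hmem z' hz'
    obtain ⟨g1, g2, g3⟩ := hwS _ hz1
    obtain ⟨g1', g2', g3'⟩ := hwS _ hz'1
    have k1 : K (Gv z.1) = z.1 := (hGV _ g2).2
    have k1' : K (Gv z'.1) = z'.1 := (hGV _ g2').2
    have e : f z - f z' - A (z - z') =
        (K (Φ (Gv z.1) - Φ (Gv z'.1) - (Gv z.1 - Gv z'.1)) -
          K (σ π z.2 - σ π z'.2 - σ' (0, z.2 - z'.2)), 0) := by
      rw [hA]
      refine Prod.ext ?_ ?_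
      · simp only [f, Prod.fst_sub, Prod.snd_sub, hBapp, map_sub, k1, k1']
        abel
      · simp only [f, Prod.fst_sub, Prod.snd_sub, map_sub]
        abel
    have h1 := hη (Gv z.1) (Gv z'.1)
    have h2 : ‖Gv z.1 - Gv z'.1‖ ≤ C * ‖z.1 - z'.1‖ := by
      have := hCt.dist_le_mul _ g1 _ g1'
      rwa [dist_eq_norm, dist_eq_norm] at this
    have h3 : ‖σ π z.2 - σ π z'.2 - σ' (0, z.2 - z'.2)‖ ≤ c / (2 * κ) * ‖z.2 - z'.2‖ := by
      have h4 := hsa _ (hsig π hπ2 z.2 hz2).1 _ (hsig π hπ2 z'.2 hz'2).1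
      have h5 : ((π, z.2) : P × Z) - (π, z'.2) = (0, z.2 - z'.2) := by
        rw [Prod.mk_sub_mk, sub_self]
      rw [h5] at h4
      have h6 : ‖((0, z.2 - z'.2) : P × Z)‖ = ‖z.2 - z'.2‖ := by
        rw [Prod.norm_mk, norm_zero]
        exact max_eq_right (norm_nonneg _)
      rw [h6] at h4
      exact h4
    have hC : (0 : ℝ) ≤ C := C.2
    have h7 : κ * ε0 * C ≤ c / 2 := by
      have : κ * ε0 * C ≤ κ * (c / (2 * κ * (C + 1))) * C := by gcongr
      refine this.trans ?_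
      have e1 : κ * (c / (2 * κ * (C + 1))) * C = c / 2 * (C / (C + 1)) := by
        field_simp
      rw [e1]
      have e2 : (C : ℝ) / (C + 1) ≤ 1 := by
        rw [div_le_one (by positivity)]
        linarith
      calc c / 2 * (C / (C + 1)) ≤ c / 2 * 1 := by gcongr
        _ = c / 2 := mul_one _
    have hn1 : ‖z.1 - z'.1‖ ≤ ‖z - z'‖ := norm_fst_le (z - z')
    have hn2 : ‖z.2 - z'.2‖ ≤ ‖z - z'‖ := norm_snd_le (z - z')
    rw [e, Prod.norm_mk, norm_zero, max_eq_left (norm_nonneg _)]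
    refine (norm_sub_le _ _).trans ?_
    have b1 : ‖K (Φ (Gv z.1) - Φ (Gv z'.1) - (Gv z.1 - Gv z'.1))‖ ≤ c / 2 * ‖z - z'‖ := by
      calc _ ≤ κ * ‖Φ (Gv z.1) - Φ (Gv z'.1) - (Gv z.1 - Gv z'.1)‖ := hK _
        _ ≤ κ * (ε0 * (C * ‖z.1 - z'.1‖)) := by
            refine mul_le_mul_of_nonneg_left (h1.trans ?_) hκ0.le
            exact mul_le_mul_of_nonneg_left h2 hε0.le
        _ = (κ * ε0 * C) * ‖z.1 - z'.1‖ := by ring
        _ ≤ c / 2 * ‖z - z'‖ := by gcongr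
    have b2 : ‖K (σ π z.2 - σ π z'.2 - σ' (0, z.2 - z'.2))‖ ≤ c / 2 * ‖z - z'‖ := by
      calc _ ≤ κ * ‖σ π z.2 - σ π z'.2 - σ' (0, z.2 - z'.2)‖ := hK _
        _ ≤ κ * (c / (2 * κ) * ‖z.2 - z'.2‖) := mul_le_mul_of_nonneg_left h3 hκ0.le
        _ = c / 2 * ‖z.2 - z'.2‖ := by field_simp
        _ ≤ c / 2 * ‖z - z'‖ := by gcongr
    linarith
  have h0 : ‖f (K x0, 0)‖ * N ≤ R2 / 4 := by
    have e : f (K x0, 0) = (K ((Φ x0 - x0) + (x0 - σ π 0)), 0) := by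
      refine Prod.ext ?_ ?_
      · simp only [f, hKx0.2, map_add, map_sub]
        abel
      · simp only [f, hLx0]
    rw [e, Prod.norm_mk, norm_zero, max_eq_left (norm_nonneg _)]
    have h1 : dist (σ π 0) x0 < R2 / (8 * N * κ) := by
      refine hr3S (π, 0) ?_
      rw [Prod.dist_eq, dist_self]
      exact max_lt hπ3 hr3
    have h2 : ‖(Φ x0 - x0) + (x0 - σ π 0)‖ ≤ R2 / (4 * N * κ) := by
      refine (norm_add_le _ _).trans ?_
      rw [dist_comm, dist_eq_norm] at h1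
      have h3 := (hΦ1 x0).trans he4
      have e1 : R2 / (4 * N * κ) = R2 / (8 * N * κ) + R2 / (8 * N * κ) := by
        field_simp
        norm_num
      rw [e1]
      linarith
    calc ‖K ((Φ x0 - x0) + (x0 - σ π 0))‖ * N ≤ (κ * (R2 / (4 * N * κ))) * N := by
          refine mul_le_mul_of_nonneg_right ((hK _).trans ?_) hN0.le
          exact mul_le_mul_of_nonneg_left h2 hκ0.le
      _ = R2 / 4 := by field_simp
  obtain ⟨z, hz, hfz, huniq, hder⟩ := zero_of_approx A N hN0 hAN f (K x0, 0) R2 hR2 c hc0.le hcN.le hf h0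
  have hzR : z ∈ Metric.closedBall ((K x0, 0) : Y × Z) R2 :=
    Metric.closedBall_subset_closedBall (by linarith) hz
  obtain ⟨hz1, hz2⟩ := hmem z hzR
  have hz1' : dist z.1 (K x0) < R2 := by
    rw [Metric.mem_closedBall, Prod.dist_eq, max_le_iff] at hz
    have := hz.1
    simp only at this
    linarith
  obtain ⟨g1, g2, g3⟩ := hwS _ hz1
  have hΞ1 : K (Φ (Gv z.1)) = K (σ π z.2) := sub_eq_zero.1 (congrArg Prod.fst hfz)
  have hΞ2 : L z.1 = 0 := congrArg Prod.snd hfz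
  have hxsM : ∀ w, dist w (K x0) ≤ R2 → L w = 0 → Gv w ∈ M := by
    intro w hw hLw
    obtain ⟨q1, q2, q3⟩ := hwS w hw
    refine (hM _ (hGV w q2).1 (by linarith)).2 ?_
    rw [(hGV w q2).2, hLw]
  have hxs : Gv z.1 ∈ M := hxsM _ hz1 hΞ2
  have hΦxs : dist (Φ (Gv z.1)) x0 < ρ := by
    have h1 : dist (Φ (Gv z.1)) (Gv z.1) ≤ ε0 := by
      rw [dist_eq_norm]
      exact hΦ1 _
    have h2 := dist_triangle (Φ (Gv z.1)) (Gv z.1) x0
    linarith
  have hsg := hsig π hπ2 z.2 hz2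
  have heq : Φ (Gv z.1) = σ π z.2 := by
    have h1 := (hGK _ (hΦV _ hxs) hΦxs).2
    have h2 := (hGK _ (hsg.2.1.1 hπs) hsg.2.2).2
    rw [← h1, ← h2, hΞ1]
  refine ⟨Gv z.1, hxs, z.2, heq, ?_, ?_⟩
  · intro x' hx' b' hx'd hb' hEq
    have d1 : dist x' x0 < ρ := lt_of_lt_of_le hx'd ((min_le_right _ _).trans (min_le_left _ _))
    have d2 : dist x' x0 ≤ R2 / κ := hx'd.le.trans ((min_le_right _ _).trans (min_le_right _ _))
    have d3 : ‖b'‖ ≤ R2 := hb'.le.trans (min_le_left _ _)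
    have d4 : dist (K x') (K x0) ≤ R2 := by
      rw [dist_eq_norm, ← map_sub]
      refine (hK _).trans ?_
      rw [← dist_eq_norm]
      calc κ * dist x' x0 ≤ κ * (R2 / κ) := mul_le_mul_of_nonneg_left d2 hκ0.le
        _ = R2 := by field_simp
    have hV' := hMV hx'
    have e1 := (hGK x' hV' d1).2
    have e2 : L (K x') = 0 := (hM x' hV' d1).1 hx'
    have h1 : f (K x', b') = 0 := by
      refine Prod.ext ?_ ?_
      · simp only [f, e1, hEq, sub_self, Prod.fst_zero]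
      · simp only [f, e2, Prod.snd_zero]
    have h2 := huniq (K x', b') (by
      rw [Metric.mem_closedBall, Prod.dist_eq]
      exact max_le d4 (by simpa using d3)) h1
    exact congrArg Prod.snd h2
  · have hGz : HasFDerivAt Gv (fderiv ℝ Gv z.1) z.1 := by
      have : ContDiffAt ℝ 1 Gv z.1 := hG.contDiffAt (Metric.isOpen_ball.mem_nhds g2)
      exact (this.differentiableAt one_ne_zero).hasFDerivAt
    have hΦz : HasFDerivAt Φ (fderiv ℝ Φ (Gv z.1)) (Gv z.1) := (hΦd _).hasFDerivAt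
    have hKG : ∀ w, K (fderiv ℝ Gv z.1 w) = w := by
      have h1 : HasFDerivAt (fun w => K (Gv w)) (K.comp (fderiv ℝ Gv z.1)) z.1 :=
        K.hasFDerivAt.comp z.1 hGz
      have h2 : HasFDerivAt (fun w => K (Gv w)) (ContinuousLinearMap.id ℝ Y) z.1 := by
        refine (hasFDerivAt_id z.1).congr_of_eventuallyEq ?_
        filter_upwards [Metric.isOpen_ball.mem_nhds g2] with w hw
        exact (hGV w hw).2
      have h3 := h1.unique h2
      intro w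
      exact DFunLike.congr_fun h3 w
    set D : Y →L[ℝ] X := (fderiv ℝ Φ (Gv z.1)).comp (fderiv ℝ Gv z.1) with hD
    have hDinj : Function.Injective D := by
      rw [injective_iff_map_eq_zero]
      intro w hw
      have h1 : fderiv ℝ Φ (Gv z.1) (fderiv ℝ Gv z.1 w) = 0 := hw
      have h2 := (fderiv ℝ Φ (Gv z.1) - ContinuousLinearMap.id ℝ X).le_opNorm (fderiv ℝ Gv z.1 w)
      rw [ContinuousLinearMap.sub_apply, h1, ContinuousLinearMap.id_apply, zero_sub, norm_neg] at h2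
      have h3 := mul_le_mul_of_nonneg_right (hΦ2 (Gv z.1)) (norm_nonneg (fderiv ℝ Gv z.1 w))
      have h4 := mul_le_mul_of_nonneg_right he1 (norm_nonneg (fderiv ℝ Gv z.1 w))
      have h5 : ‖fderiv ℝ Gv z.1 w‖ = 0 := by
        have := norm_nonneg (fderiv ℝ Gv z.1 w)
        linarith
      have h6 := hKG w
      rw [norm_eq_zero.1 h5, map_zero] at h6
      exact h6.symm
    refine ⟨(LinearMap.ker (L : Y →ₗ[ℝ] Z)).map (D : Y →ₗ[ℝ] X), ?_, ?_, ?_⟩
    · exact ((Submodule.equivMapOfInjective (D : Y →ₗ[ℝ] X) hDinj _).finrank_eq).symm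
    · rintro u ⟨w, hw, rfl⟩
      have hLw : L w = 0 := hw
      refine ⟨fun s => Φ (Gv (z.1 + s • w)), by simp, ?_, ?_⟩
      · have h1 : HasDerivAt (fun s : ℝ => z.1 + s • w) w 0 := by
          have := ((hasDerivAt_id (0 : ℝ)).smul_const w).const_add z.1
          simpa using this
        have hG0 : HasFDerivAt Gv (fderiv ℝ Gv z.1) (z.1 + (0 : ℝ) • w) := by
          rw [zero_smul, add_zero]
          exact hGz
        have h2 := hG0.comp_hasDerivAt (0 : ℝ) h1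
        have hΦ0 : HasFDerivAt Φ (fderiv ℝ Φ (Gv z.1)) (Gv (z.1 + (0 : ℝ) • w)) := by
          rw [zero_smul, add_zero]
          exact hΦz
        exact hΦ0.comp_hasDerivAt (0 : ℝ) h2
      · have hcont : ContinuousAt (fun s : ℝ => z.1 + s • w) 0 := by fun_prop
        have h1 : ∀ᶠ s in nhds (0 : ℝ), z.1 + s • w ∈ Metric.ball (K x0) R2 := by
          refine hcont.eventually_mem (Metric.isOpen_ball.mem_nhds ?_)
          rw [zero_smul, add_zero]
          exact Metric.mem_ball.2 hz1'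
        filter_upwards [h1] with s hs'
        refine ⟨Gv (z.1 + s • w), hxsM _ (Metric.mem_ball.1 hs').le ?_, rfl⟩
        rw [map_add, map_smul, hΞ2, hLw, smul_zero, add_zero]
    · rintro b' ⟨w, hw, hwb⟩
      have hLw : L w = 0 := hw
      have hwb' : fderiv ℝ Φ (Gv z.1) (fderiv ℝ Gv z.1 w) = fderiv ℝ (σ π) z.2 b' := hwb
      have hσz : HasFDerivAt (σ π) (fderiv ℝ (σ π) z.2) z.2 := (hsg.2.1.2 hπs).hasFDerivAt
      have hF : HasFDerivAt f
          (((K.comp (D.comp (ContinuousLinearMap.fst ℝ Y Z))) -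
            (K.comp ((fderiv ℝ (σ π) z.2).comp (ContinuousLinearMap.snd ℝ Y Z)))).prod
            (L.comp (ContinuousLinearMap.fst ℝ Y Z))) z := by
        have h1 : HasFDerivAt (fun z : Y × Z => Gv z.1)
            ((fderiv ℝ Gv z.1).comp (ContinuousLinearMap.fst ℝ Y Z)) z :=
          hGz.comp z hasFDerivAt_fst
        have h2 : HasFDerivAt (fun z : Y × Z => Φ (Gv z.1))
            ((fderiv ℝ Φ (Gv z.1)).comp ((fderiv ℝ Gv z.1).comp (ContinuousLinearMap.fst ℝ Y Z))) z :=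
          hΦz.comp z h1
        have h3 : HasFDerivAt (fun z : Y × Z => σ π z.2)
            ((fderiv ℝ (σ π) z.2).comp (ContinuousLinearMap.snd ℝ Y Z)) z :=
          hσz.comp z hasFDerivAt_snd
        have h4 := (K.hasFDerivAt.comp z h2).sub (K.hasFDerivAt.comp z h3)
        have h5 : HasFDerivAt (fun z : Y × Z => L z.1) (L.comp (ContinuousLinearMap.fst ℝ Y Z)) z :=
          L.hasFDerivAt.comp z hasFDerivAt_fst
        exact h4.prodMk h5
      have h1 := hder _ hF (w, b') (by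
        refine Prod.ext ?_ ?_
        · show K (D w) - K (fderiv ℝ (σ π) z.2 b') = 0
          rw [← hwb']
          exact sub_self _
        · exact hLw)
      exact congrArg Prod.snd h1

end Pool.Agent.Helper72.BP
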