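import Pool.Agent.Helper72.BP.OLem
import Pool.Agent.Helper72.BP.Defs2

/-!
PROJECT BP, module BP-T4: the chart of the tube near the base point.

Coordinates: u_i = Y_(i,0), i ≠ 0, and t_s, s ≠ s0, where s0 = inl (inl (inl 0, inl 0)). x0 = emb (S0 G ε (inc e0)): y = inc e0 = (1,0,..,0), t = tR G ε 1 0 y, t_(s0) = √(ε/2) > 0
(cay 0 = 1: act_one; sq (inl _) = √(ε/2), mon = 1) and nsq t = ε (tube_identR at the base point, qf_inc, nsq (inc e0) = 1).
Gv w := emb (y, t) with U = ∑_(i≠0) w_i^2, A = (1 + √(1 - 4U))/2, y_0 = √A, y_i = w_i / √A, t_s = w_s (s ≠ s0), t_(s0) = √(ε - ∑_l qf (G l) y ^ 2 - ∑_(s≠s0) w_s^2).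
At k0 = Kmap x0: U = 0, A = 1, the last radicand is ε - 0 - (ε - ε/2) = ε/2 > 0 (with the real value t_(s0)^2), so all square roots are of positive smooth functions near k0: choose R0 with 1 - 4U > 0 and radicand > 0 on the ball (continuity):
Gv is C^1 there. For w in the ball: A + U/A = 1 (A^2 - A + U = 0), so nsq y = 1 and F(y,t) = 0: Gv w ∈ Vemb; Kmap (Gv w) = w: y_i y_0 = w_i.
Conversely v = emb (y, t) ∈ Vemb near x0: y_0^2 = v (inl (0,0)) is near 1; replacing y by -y we may take y_0 > 0; u_i = y_i y_0, U = y_0^2 (1 - y_0^2), 1 - 4U = (2 y_0^2 - 1)^2, A = y_0^2 as y_0^2 > 1/2, so y is recovered;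
t_(s0) > 0 near x0 and t_(s0)^2 = ε - ∑ qf^2 - ∑_(s≠s0) t_s^2 from F = 0. Kmap is continuous, so Kmap v ∈ ball.
-/

set_option autoImplicit false
set_option synthInstance.maxSize 2000

namespace Pool.Agent.Helper72.BP

open MvPolynomial

/-- The coordinate `t_(s0)`, large at the base point. -/
def s0 {p r : ℕ} {κ : Type} : Tx p r κ := Sum.inl (Sum.inl (Sum.inl 0, Sum.inl 0))

/-- Index type of the chart. -/
abbrev Kx (p r : ℕ) (κ : Type) : Type := {i : Ix p κ // i ≠ Sum.inl 0} ⊕ {s : Tx p r κ // s ≠ s0}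

/-- The chart: a coordinate projection. -/
noncomputable def Kmap {p r : ℕ} {κ : Type} [Fintype κ] [DecidableEq κ] :
    (Amb (Ix p κ) (Tx p r κ) → ℝ) →L[ℝ] (Kx p r κ → ℝ) :=
  ContinuousLinearMap.pi fun x => ContinuousLinearMap.proj
    (Sum.elim (fun i : {i : Ix p κ // i ≠ Sum.inl 0} => (Sum.inl (i.1, Sum.inl 0) : Amb (Ix p κ) (Tx p r κ)))
      (fun s : {s : Tx p r κ // s ≠ s0} => Sum.inr s.1) x)

/-- The linear function `Λ` in the chart. -/
noncomputable def Lmap {p r : ℕ} {κ : Type} [Fintype κ] [DecidableEq κ] (a : Fin p → κ → ℝ) :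
    (Kx p r κ → ℝ) →L[ℝ] (Fin p → ℝ) :=
  ContinuousLinearMap.pi fun j => ContinuousLinearMap.proj (Sum.inl ⟨Sum.inl j.succ, by simp [Fin.succ_ne_zero]⟩) +
    ∑ k, a j k • ContinuousLinearMap.proj (Sum.inl ⟨Sum.inr k, by simp⟩)

section

variable {p r : ℕ} {κ : Type} [Fintype κ] [DecidableEq κ]

theorem Lmap_Kmap (a : Fin p → κ → ℝ) (v : Amb (Ix p κ) (Tx p r κ) → ℝ) (j : Fin p) :
    Lmap a (Kmap v) j = Lam a j v := by
  simp [Lmap, Kmap, Lam]

theorem card_Kx (d : ℕ) (hd : d + p + 2 = Fintype.card (Ix p κ) + Fintype.card (Tx p r κ)) :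
    Fintype.card (Kx p r κ) = d + p := by
  have h1 : Fintype.card {i : Ix p κ // i ≠ Sum.inl 0} + 1 = Fintype.card (Ix p κ) := by
    have h := Fintype.sum_eq_add_sum_subtype_ne (fun _ : Ix p κ => 1) (Sum.inl 0)
    simp only [Finset.sum_const, smul_eq_mul, mul_one] at h
    rw [← Finset.card_univ, ← Finset.card_univ, h, add_comm]
  have h2 : Fintype.card {s : Tx p r κ // s ≠ s0} + 1 = Fintype.card (Tx p r κ) := by
    have h := Fintype.sum_eq_add_sum_subtype_ne (fun _ : Tx p r κ => 1) s0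
    simp only [Finset.sum_const, smul_eq_mul, mul_one] at h
    rw [← Finset.card_univ, ← Finset.card_univ, h, add_comm]
  have h3 : Fintype.card (Kx p r κ) = Fintype.card {i : Ix p κ // i ≠ Sum.inl 0} +
      Fintype.card {s : Tx p r κ // s ≠ s0} := Fintype.card_sum
  omega

/-- dimension of `M` in the chart. -/
theorem finrank_ker_Lmap (a : Fin p → κ → ℝ) (d : ℕ)
    (hd : d + p + 2 = Fintype.card (Ix p κ) + Fintype.card (Tx p r κ)) :
    Module.finrank ℝ (LinearMap.ker ((Lmap a : (Kx p r κ → ℝ) →L[ℝ] (Fin p → ℝ)) : (Kx p r κ → ℝ) →ₗ[ℝ] (Fin p → ℝ))) = d := by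
  have hsurj : Function.Surjective ((Lmap a : (Kx p r κ → ℝ) →L[ℝ] (Fin p → ℝ)) : (Kx p r κ → ℝ) →ₗ[ℝ] (Fin p → ℝ)) := by
    intro z
    refine ⟨fun x => match x with
      | Sum.inl ⟨Sum.inl i, _⟩ => if h : i = 0 then 0 else z (i.pred h)
      | _ => 0, ?_⟩
    funext j
    simp [Lmap, Fin.succ_ne_zero]
  have h1 := LinearMap.finrank_range_add_finrank_ker
    ((Lmap a : (Kx p r κ → ℝ) →L[ℝ] (Fin p → ℝ)) : (Kx p r κ → ℝ) →ₗ[ℝ] (Fin p → ℝ))
  rw [LinearMap.range_eq_top.mpr hsurj, finrank_top, Module.finrank_fintype_fun_eq_card,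
    Module.finrank_fintype_fun_eq_card, card_Kx d hd, Fintype.card_fin] at h1
  omega

/-! The inverse of the chart. -/

private noncomputable def cU (w : Kx p r κ → ℝ) : ℝ := ∑ i : {i : Ix p κ // i ≠ Sum.inl 0}, w (Sum.inl i) ^ 2

private noncomputable def cA (w : Kx p r κ → ℝ) : ℝ := (1 + Real.sqrt (1 - 4 * cU w)) / 2

private noncomputable def cy (w : Kx p r κ → ℝ) : Ix p κ → ℝ := fun i =>
  if h : i = Sum.inl 0 then Real.sqrt (cA w) else w (Sum.inl ⟨i, h⟩) / Real.sqrt (cA w)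

private noncomputable def crad (G : Fin r → Matrix (Ix p κ) (Ix p κ) ℝ) (ε : ℝ) (w : Kx p r κ → ℝ) : ℝ :=
  ε - ∑ l, qf (G l) (cy w) ^ 2 - ∑ s : {s : Tx p r κ // s ≠ s0}, w (Sum.inr s) ^ 2

private noncomputable def ct (G : Fin r → Matrix (Ix p κ) (Ix p κ) ℝ) (ε : ℝ) (w : Kx p r κ → ℝ) : Tx p r κ → ℝ := fun s =>
  if h : s = s0 then Real.sqrt (crad G ε w) else w (Sum.inr ⟨s, h⟩)

private theorem cA_pos (w : Kx p r κ → ℝ) : 0 < cA w := by
  unfold cA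
  have := Real.sqrt_nonneg (1 - 4 * cU w)
  linarith

private theorem smooth_U : ContDiff ℝ 1 (cU : (Kx p r κ → ℝ) → ℝ) := by
  unfold cU
  refine ContDiff.sum fun i _ => ?_
  exact (contDiff_apply ℝ ℝ (Sum.inl i : Kx p r κ)).pow 2

private theorem smooth_A (w : Kx p r κ → ℝ) (hw : 0 < 1 - 4 * cU w) : ContDiffAt ℝ 1 (cA : (Kx p r κ → ℝ) → ℝ) w := by
  unfold cA
  refine ContDiffAt.div_const ?_ 2
  refine contDiffAt_const.add ?_
  refine ContDiffAt.sqrt ?_ hw.ne'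
  exact contDiffAt_const.sub (contDiffAt_const.mul smooth_U.contDiffAt)

private theorem smooth_y (w : Kx p r κ → ℝ) (hw : 0 < 1 - 4 * cU w) (i : Ix p κ) :
    ContDiffAt ℝ 1 (fun w : Kx p r κ → ℝ => cy w i) w := by
  unfold cy
  by_cases h : i = Sum.inl 0
  · simp only [h, dite_true]
    exact (smooth_A w hw).sqrt (cA_pos w).ne'
  · simp only [h, dite_false]
    refine ContDiffAt.div ?_ ((smooth_A w hw).sqrt (cA_pos w).ne') (Real.sqrt_pos.mpr (cA_pos w)).ne'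
    exact (contDiff_apply ℝ ℝ (Sum.inl ⟨i, h⟩ : Kx p r κ)).contDiffAt

private theorem smooth_rad (G : Fin r → Matrix (Ix p κ) (Ix p κ) ℝ) (ε : ℝ) (w : Kx p r κ → ℝ) (hw : 0 < 1 - 4 * cU w) :
    ContDiffAt ℝ 1 (crad G ε : (Kx p r κ → ℝ) → ℝ) w := by
  unfold crad
  refine ContDiffAt.sub (ContDiffAt.sub contDiffAt_const ?_) ?_
  · refine ContDiffAt.sum fun l _ => ContDiffAt.pow ?_ 2
    unfold qf
    refine ContDiffAt.sum fun i _ => ContDiffAt.sum fun j _ => ?_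
    exact (contDiffAt_const.mul (smooth_y w hw i)).mul (smooth_y w hw j)
  · refine ContDiffAt.sum fun s _ => ?_
    exact (contDiff_apply ℝ ℝ (Sum.inr s : Kx p r κ)).contDiffAt.pow 2

private theorem smooth_t (G : Fin r → Matrix (Ix p κ) (Ix p κ) ℝ) (ε : ℝ) (w : Kx p r κ → ℝ) (hw : 0 < 1 - 4 * cU w)
    (hr : 0 < crad G ε w) (s : Tx p r κ) : ContDiffAt ℝ 1 (fun w : Kx p r κ → ℝ => ct G ε w s) w := by
  unfold ct
  by_cases h : s = s0
  · simp only [h, dite_true]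
    exact (smooth_rad G ε w hw).sqrt hr.ne'
  · simp only [h, dite_false]
    exact (contDiff_apply ℝ ℝ (Sum.inr ⟨s, h⟩ : Kx p r κ)).contDiffAt

private theorem open_D (G : Fin r → Matrix (Ix p κ) (Ix p κ) ℝ) (ε : ℝ) :
    IsOpen {w : Kx p r κ → ℝ | 0 < 1 - 4 * cU w ∧ 0 < crad G ε w} := by
  have h1 : IsOpen {w : Kx p r κ → ℝ | 0 < 1 - 4 * cU w} :=
    isOpen_lt continuous_const (continuous_const.sub (continuous_const.mul smooth_U.continuous))
  have h2 : ContinuousOn (crad G ε : (Kx p r κ → ℝ) → ℝ) {w : Kx p r κ → ℝ | 0 < 1 - 4 * cU w} := fun w hw =>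
    (smooth_rad G ε w hw).continuousAt.continuousWithinAt
  exact h2.isOpen_inter_preimage h1 isOpen_Ioi

private theorem cy_zero (w : Kx p r κ → ℝ) : cy w (Sum.inl 0) = Real.sqrt (cA w) := by
  simp [cy]

private theorem cy_ne (w : Kx p r κ → ℝ) (i : {i : Ix p κ // i ≠ Sum.inl 0}) :
    cy w i.1 = w (Sum.inl i) / Real.sqrt (cA w) := by
  simp only [cy, i.2, dite_false]

private theorem ct_zero (G : Fin r → Matrix (Ix p κ) (Ix p κ) ℝ) (ε : ℝ) (w : Kx p r κ → ℝ) :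
    ct G ε w s0 = Real.sqrt (crad G ε w) := by
  simp [ct]

private theorem ct_ne (G : Fin r → Matrix (Ix p κ) (Ix p κ) ℝ) (ε : ℝ) (w : Kx p r κ → ℝ)
    (s : {s : Tx p r κ // s ≠ s0}) : ct G ε w s.1 = w (Sum.inr s) := by
  simp only [ct, s.2, dite_false]

private theorem nsq_y (w : Kx p r κ → ℝ) (hw : 0 < 1 - 4 * cU w) : nsq (cy w) = 1 := by
  have hA := cA_pos w
  have h1 : nsq (cy w) = cA w + cU w / cA w := by
    unfold nsq
    rw [Fintype.sum_eq_add_sum_subtype_ne _ (Sum.inl 0 : Ix p κ), cy_zero, Real.sq_sqrt hA.le]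
    congr 1
    unfold cU
    rw [Finset.sum_div]
    refine Finset.sum_congr rfl fun i _ => ?_
    rw [cy_ne, div_pow, Real.sq_sqrt hA.le]
  have h2 : cA w * cA w + cU w = cA w := by
    have h3 := Real.sq_sqrt hw.le
    have h4 : cA w = (1 + Real.sqrt (1 - 4 * cU w)) / 2 := rfl
    rw [h4]
    nlinarith
  rw [h1]
  field_simp
  nlinarith

private theorem Ffun_yt (G : Fin r → Matrix (Ix p κ) (Ix p κ) ℝ) (ε : ℝ) (w : Kx p r κ → ℝ) (hw : 0 < 1 - 4 * cU w)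
    (hr : 0 < crad G ε w) : Ffun G ε (cy w) (ct G ε w) = 0 := by
  have h1 : nsq (ct G ε w) = crad G ε w + ∑ s : {s : Tx p r κ // s ≠ s0}, w (Sum.inr s) ^ 2 := by
    unfold nsq
    rw [Fintype.sum_eq_add_sum_subtype_ne _ (s0 : Tx p r κ), ct_zero, Real.sq_sqrt hr.le]
    congr 1
    refine Finset.sum_congr rfl fun s _ => ?_
    rw [ct_ne]
  unfold Ffun
  rw [h1, nsq_y w hw]
  unfold crad
  have h4 : (algebraMap ℝ ℝ) ε = ε := rfl
  rw [h4]
  ring

private theorem Kmap_Gv (G : Fin r → Matrix (Ix p κ) (Ix p κ) ℝ) (ε : ℝ) (w : Kx p r κ → ℝ) :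
    Kmap (emb (cy w, ct G ε w)) = w := by
  have hA := Real.sqrt_pos.mpr (cA_pos w)
  funext x
  rcases x with i | s
  · have h1 : Kmap (emb (cy w, ct G ε w)) (Sum.inl i) = cy w i.1 * cy w (Sum.inl 0) := rfl
    rw [h1, cy_ne, cy_zero, div_mul_cancel₀ _ hA.ne']
  · have h1 : Kmap (emb (cy w, ct G ε w)) (Sum.inr s) = ct G ε w s.1 := rfl
    rw [h1, ct_ne]

private theorem back (G : Fin r → Matrix (Ix p κ) (Ix p κ) ℝ) (ε : ℝ) (y : Ix p κ → ℝ) (t : Tx p r κ → ℝ)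
    (hy : nsq y = 1) (hF : Ffun G ε y t = 0) (h1 : 1 / 2 < y (Sum.inl 0) ^ 2) (h2 : 0 < y (Sum.inl 0)) (h3 : 0 < t s0) :
    0 < 1 - 4 * cU (Kmap (emb (y, t)) : Kx p r κ → ℝ) ∧ cy (Kmap (emb (y, t)) : Kx p r κ → ℝ) = y ∧
      crad G ε (Kmap (emb (y, t))) = t s0 ^ 2 ∧ ct G ε (Kmap (emb (y, t))) = t := by
  have e1 : ∀ i : {i : Ix p κ // i ≠ Sum.inl 0},
      (Kmap (emb (y, t)) : Kx p r κ → ℝ) (Sum.inl i) = y i.1 * y (Sum.inl 0) := fun i => rfl
  have e2 : ∀ s : {s : Tx p r κ // s ≠ s0}, (Kmap (emb (y, t)) : Kx p r κ → ℝ) (Sum.inr s) = t s.1 := fun s => rfl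
  have hsum : y (Sum.inl 0) ^ 2 + ∑ i : {i : Ix p κ // i ≠ Sum.inl 0}, y i.1 ^ 2 = 1 := by
    rw [← hy]
    unfold nsq
    rw [Fintype.sum_eq_add_sum_subtype_ne _ (Sum.inl 0 : Ix p κ)]
  have hU : cU (Kmap (emb (y, t)) : Kx p r κ → ℝ) = y (Sum.inl 0) ^ 2 * (1 - y (Sum.inl 0) ^ 2) := by
    unfold cU
    have : ∀ i : {i : Ix p κ // i ≠ Sum.inl 0}, (Kmap (emb (y, t)) : Kx p r κ → ℝ) (Sum.inl i) ^ 2 =
        y (Sum.inl 0) ^ 2 * y i.1 ^ 2 := by
      intro i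
      rw [e1]
      ring
    rw [Finset.sum_congr rfl fun i _ => this i, ← Finset.mul_sum]
    congr 1
    linarith
  have hsq : 1 - 4 * cU (Kmap (emb (y, t)) : Kx p r κ → ℝ) = (2 * y (Sum.inl 0) ^ 2 - 1) ^ 2 := by
    rw [hU]
    ring
  have hA : cA (Kmap (emb (y, t)) : Kx p r κ → ℝ) = y (Sum.inl 0) ^ 2 := by
    unfold cA
    rw [hsq, Real.sqrt_sq (by linarith)]
    ring
  have hsA : Real.sqrt (cA (Kmap (emb (y, t)) : Kx p r κ → ℝ)) = y (Sum.inl 0) := by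
    rw [hA, Real.sqrt_sq h2.le]
  have hcy : cy (Kmap (emb (y, t)) : Kx p r κ → ℝ) = y := by
    funext i
    by_cases h : i = Sum.inl 0
    · rw [h, cy_zero, hsA]
    · have := cy_ne (Kmap (emb (y, t)) : Kx p r κ → ℝ) ⟨i, h⟩
      rw [this, hsA, e1, mul_div_assoc, div_self h2.ne', mul_one]
  have hrad : crad G ε (Kmap (emb (y, t))) = t s0 ^ 2 := by
    unfold crad
    rw [hcy]
    have h5 : nsq t = t s0 ^ 2 + ∑ s : {s : Tx p r κ // s ≠ s0}, t s.1 ^ 2 := by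
      unfold nsq
      rw [Fintype.sum_eq_add_sum_subtype_ne _ (s0 : Tx p r κ)]
    unfold Ffun at hF
    have h4 : (algebraMap ℝ ℝ) ε = ε := rfl
    rw [hy, h4, h5] at hF
    simp only [e2]
    linarith
  refine ⟨?_, hcy, hrad, ?_⟩
  · rw [hsq]
    have : 0 < 2 * y (Sum.inl 0) ^ 2 - 1 := by linarith
    positivity
  · funext s
    by_cases h : s = s0
    · rw [h, ct_zero, hrad, Real.sqrt_sq h3.le]
    · have := ct_ne G ε (Kmap (emb (y, t)) : Kx p r κ → ℝ) ⟨s, h⟩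
      rw [this, e2]

private theorem base_facts {m : ℕ} (G : Fin r → Matrix (Ix p κ) (Ix p κ) ℝ) (q : (Fin m → ℂ) → Ix p κ → ℝ) (ε : ℝ)
    (hT : IsTube G q ε) : nsq (inc e0 : Ix p κ → ℝ) = 1 ∧ Ffun G ε (inc e0 : Ix p κ → ℝ) (tR G ε 1 0 (inc e0)) = 0 ∧
      (inc e0 : Ix p κ → ℝ) (Sum.inl 0) = 1 ∧ tR G ε 1 0 (inc e0 : Ix p κ → ℝ) s0 = Real.sqrt (ε / 2) := by
  have h0 : (inc e0 : Ix p κ → ℝ) (Sum.inl 0) = 1 := by
    simp [inc, e0]
  refine ⟨?_, ?_, h0, ?_⟩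
  · unfold nsq
    rw [Fintype.sum_eq_add_sum_subtype_ne _ (Sum.inl 0 : Ix p κ), h0]
    rw [Finset.sum_eq_zero]
    · ring
    · rintro ⟨i, hi⟩ _
      rcases i with i | k
      · have : i ≠ 0 := fun h => hi (by rw [h])
        simp [inc, e0, this]
      · simp [inc]
  · obtain ⟨δ, hδ, h⟩ := tube_identR (p := p) (r := r) (κ := κ) G q ε hT
    have hN : Near δ (1 : Matrix (Ix p κ) (Ix p κ) ℝ) (0 : Matrix (Tx p r κ) (Tx p r κ) ℝ) := by
      refine ⟨fun i j => by simpa using hδ, fun i j => by simpa using hδ, by simp⟩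
    have h1 := h 1 0 hN ℝ (inc e0) (fun l => qf_inc G hT.lin e0 l)
    rwa [act_one] at h1
  · have hc : cay (0 : Matrix (Tx p r κ) (Tx p r κ) ℝ) = 1 := by
      unfold cay
      simp
    unfold tR
    rw [hc, act_one]
    have h1 : uR (r := r) G ε 1 (inc e0 : Ix p κ → ℝ) s0 =
        Real.sqrt (ε / 2) * ((inc e0 : Ix p κ → ℝ) (Sum.inl 0) * (inc e0 : Ix p κ → ℝ) (Sum.inl 0)) := rfl
    rw [h1, h0]
    ring

theorem chart {m : ℕ} (G : Fin r → Matrix (Ix p κ) (Ix p κ) ℝ) (q : (Fin m → ℂ) → Ix p κ → ℝ) (ε : ℝ)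
    (hT : IsTube G q ε) :
    ∃ (Gv : (Kx p r κ → ℝ) → (Amb (Ix p κ) (Tx p r κ) → ℝ)) (R0 : ℝ), 0 < R0 ∧
      ContDiffOn ℝ 1 Gv (Metric.ball (Kmap (emb (S0 G ε (inc e0)))) R0) ∧
      (∀ w ∈ Metric.ball (Kmap (emb (S0 G ε (inc e0)))) R0, Gv w ∈ Vemb G ε ∧ Kmap (Gv w) = w) ∧
      ∃ ρ > 0, ∀ v ∈ Vemb G ε, dist v (emb (S0 G ε (inc e0))) < ρ →
        Kmap v ∈ Metric.ball (Kmap (emb (S0 G ε (inc e0)))) R0 ∧ Gv (Kmap v) = v := by
  obtain ⟨f1, f2, f3, f4⟩ := base_facts G q ε hT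
  have hs : 0 < Real.sqrt (ε / 2) := Real.sqrt_pos.mpr (by have := hT.pos; positivity)
  have hS0 : S0 G ε (inc e0 : Ix p κ → ℝ) = (inc e0, tR G ε 1 0 (inc e0)) := rfl
  obtain ⟨b1, b2, b3, b4⟩ := back G ε (inc e0) (tR G ε 1 0 (inc e0)) f1 f2 (by rw [f3]; norm_num) (by rw [f3]; norm_num)
    (by rw [f4]; exact hs)
  have hk0 : (Kmap (emb (S0 G ε (inc e0))) : Kx p r κ → ℝ) ∈
      {w : Kx p r κ → ℝ | 0 < 1 - 4 * cU w ∧ 0 < crad G ε w} := by
    refine ⟨b1, ?_⟩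
    rw [hS0, b3, f4]
    positivity
  obtain ⟨R0, hR0, hball⟩ := Metric.isOpen_iff.mp (open_D G ε) _ hk0
  refine ⟨fun w => emb (cy w, ct G ε w), R0, hR0, ?_, ?_, ?_⟩
  · rw [contDiffOn_pi]
    intro x
    intro w hw
    obtain ⟨hw1, hw2⟩ := hball hw
    rcases x with ⟨a, b⟩ | s
    · exact ((smooth_y w hw1 a).mul (smooth_y w hw1 b)).contDiffWithinAt
    · exact (smooth_t G ε w hw1 hw2 s).contDiffWithinAt
  · intro w hw
    obtain ⟨hw1, hw2⟩ := hball hw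
    exact ⟨⟨(cy w, ct G ε w), ⟨nsq_y w hw1, Ffun_yt G ε w hw1 hw2⟩, rfl⟩, Kmap_Gv G ε w⟩
  · refine ⟨min R0 (min (1 / 2) (Real.sqrt (ε / 2))), lt_min hR0 (lt_min (by norm_num) hs), ?_⟩
    rintro v ⟨⟨y', t⟩, ⟨hy', hF'⟩, rfl⟩ hd
    simp only at hy' hF'
    have hd1 := lt_of_lt_of_le hd (min_le_left _ _)
    have hd2 := lt_of_lt_of_le hd ((min_le_right _ _).trans (min_le_left _ _))
    have hd3 := lt_of_lt_of_le hd ((min_le_right _ _).trans (min_le_right _ _))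
    have hK : (Kmap (emb (y', t)) : Kx p r κ → ℝ) ∈ Metric.ball (Kmap (emb (S0 G ε (inc e0)))) R0 := by
      rw [Metric.mem_ball, dist_pi_lt_iff hR0]
      intro x
      rcases x with i | s
      · exact lt_of_le_of_lt (dist_le_pi_dist (emb (y', t)) (emb (S0 G ε (inc e0)))
          (Sum.inl (i.1, Sum.inl 0) : Amb (Ix p κ) (Tx p r κ))) hd1
      · exact lt_of_le_of_lt (dist_le_pi_dist (emb (y', t)) (emb (S0 G ε (inc e0)))
          (Sum.inr s.1 : Amb (Ix p κ) (Tx p r κ))) hd1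
    refine ⟨hK, ?_⟩
    have hc1 := lt_of_le_of_lt (dist_le_pi_dist (emb (y', t)) (emb (S0 G ε (inc e0)))
          (Sum.inl (Sum.inl 0, Sum.inl 0) : Amb (Ix p κ) (Tx p r κ))) hd2
    have hc2 := lt_of_le_of_lt (dist_le_pi_dist (emb (y', t)) (emb (S0 G ε (inc e0)))
          (Sum.inr s0 : Amb (Ix p κ) (Tx p r κ))) hd3
    have hc1' : |y' (Sum.inl 0) * y' (Sum.inl 0) - 1| < 1 / 2 := by
      have e : (emb (S0 G ε (inc e0 : Ix p κ → ℝ))) (Sum.inl (Sum.inl 0, Sum.inl 0) : Amb (Ix p κ) (Tx p r κ)) =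
          (inc e0 : Ix p κ → ℝ) (Sum.inl 0) * (inc e0 : Ix p κ → ℝ) (Sum.inl 0) := rfl
      rw [Real.dist_eq, e, f3, mul_one] at hc1
      exact hc1
    have hc2' : |t s0 - Real.sqrt (ε / 2)| < Real.sqrt (ε / 2) := by
      have e : (emb (S0 G ε (inc e0 : Ix p κ → ℝ))) (Sum.inr s0 : Amb (Ix p κ) (Tx p r κ)) =
          tR G ε 1 0 (inc e0 : Ix p κ → ℝ) s0 := rfl
      rw [Real.dist_eq, e, f4] at hc2
      exact hc2
    have ht : 0 < t s0 := by
      have := (abs_lt.mp hc2').1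
      linarith
    have hy2 : 1 / 2 < y' (Sum.inl 0) ^ 2 := by
      have := (abs_lt.mp hc1').1
      nlinarith
    have hfin : ∀ y : Ix p κ → ℝ, nsq y = 1 → Ffun G ε y t = 0 → 1 / 2 < y (Sum.inl 0) ^ 2 → 0 < y (Sum.inl 0) →
        emb (cy (Kmap (emb (y, t)) : Kx p r κ → ℝ), ct G ε (Kmap (emb (y, t)))) = emb (y, t) := by
      intro y hy hF h1 h2
      obtain ⟨_, c2, _, c4⟩ := back G ε y t hy hF h1 h2 ht
      rw [c2, c4]
    rcases lt_or_ge 0 (y' (Sum.inl 0)) with hpos | hneg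
    · exact hfin y' hy' hF' hy2 hpos
    · have hne : y' (Sum.inl 0) ≠ 0 := by
        intro h
        rw [h] at hy2
        norm_num at hy2
      have hlt : y' (Sum.inl 0) < 0 := lt_of_le_of_ne hneg hne
      have hemb : (emb (y', t) : Amb (Ix p κ) (Tx p r κ) → ℝ) = emb (-y', t) := by
        funext x
        rcases x with x | x
        · simp [emb]
        · rfl
      have hn : nsq (-y') = 1 := by
        rw [← hy']
        simp [nsq]
      have hqf : ∀ l, qf (G l) (-y') = qf (G l) y' := by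
        intro l
        simp [qf]
      have hFn : Ffun G ε (-y') t = 0 := by
        rw [← hF']
        unfold Ffun
        rw [hn, hy']
        simp only [hqf]
      have := hfin (-y') hn hFn (by simpa using hy2) (by simpa using hlt)
      change emb (cy (Kmap (emb (y', t)) : Kx p r κ → ℝ), ct G ε (Kmap (emb (y', t)))) = emb (y', t)
      rw [hemb]
      exact this

end

end Pool.Agent.Helper72.BP
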