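import Pool.Agent.Helper72.BP.T.SigSmooth

/-!
PROJECT BP, module BP-T7: localisation of the intersection near the base point, and closeness of the sections.

loc: let C = {x : nsq x = 1} × M (compact: the unit sphere of a finite dimensional space is closed and bounded, |x_i| ≤ 1), f(x,x') = dist (emb (S0 (inc x))) x' continuous (S0 (inc x) = (inc x, tR G ε 1 0 (inc x)), entries are polynomials in x).
U = {(x,x') : x_0 ≠ 0, |x_(j+1)| < R |x_0| for all j, dist x' x0 < R} is open. On the compact set C \ U the function f is > 0: if f = 0 then x' = emb (S0 (inc x)) ∈ M, so x = ± e0 by hM.e_only; then x_0 = ±1, x_(j+1) = 0 and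
x' = emb (S0 (inc (± e0))) = emb (S0 (inc e0)) (tR_smul with c = -1, emb of -y), so (x,x') ∈ U. The minimum of f on C \ U (if nonempty) is η.
perturb: for each x with nsq x = 1, z ↦ sigP z.1 z.2 is continuous at (par0, x) (sigP_contDiffAt) with value emb (S0 (inc x)) (sigP_par0, sig_base); so for (π, x') near (par0, x): dist (sigP π x') (sigP par0 x') < η. By compactness of the unit sphere
(`IsCompact.eventually_forall_of_forall_eventually`): eventually in π for all x. Then near_of_eventually.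
-/

set_option autoImplicit false
set_option synthInstance.maxSize 2000

namespace Pool.Agent.Helper72.BP

open MvPolynomial

private theorem cont_inc {p : ℕ} {κ : Type} : Continuous (fun x : Fin (p + 1) → ℝ => (inc x : Ix p κ → ℝ)) := by
  refine continuous_pi fun i => ?_
  rcases i with i | i
  · exact continuous_apply i
  · exact continuous_const

private theorem cont_tR {p r : ℕ} {κ : Type} [Fintype κ] [DecidableEq κ]
    (G : Fin r → Matrix (Ix p κ) (Ix p κ) ℝ) (ε : ℝ) (γ : Matrix (Ix p κ) (Ix p κ) ℝ)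
    (W : Matrix (Tx p r κ) (Tx p r κ) ℝ) : Continuous (fun y : Ix p κ → ℝ => (tR G ε γ W y : Tx p r κ → ℝ)) := by
  have hm : ∀ a : Mu p κ, Continuous (fun y : Ix p κ → ℝ => mon y a) := fun a =>
    (continuous_apply a.1).mul (continuous_apply a.2)
  have hn : ∀ j : Qx p κ, Continuous (fun y : Ix p κ → ℝ => nj y j) := by
    intro j
    rcases j with a | ab | ab
    · exact hm a
    · exact (hm ab.1).add (hm ab.2)
    · exact (hm ab.1).sub (hm ab.2)
  have hu : ∀ s : Tx p r κ, Continuous (fun y : Ix p κ → ℝ => uR G ε γ y s) := by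
    intro s
    rcases s with j | s
    · exact continuous_const.mul (hn j)
    · exact continuous_const
  refine continuous_pi fun s => ?_
  refine continuous_finsetSum _ fun x _ => ?_
  exact continuous_const.mul (hu x)

private theorem cont_base {p r : ℕ} {κ : Type} [Fintype κ] [DecidableEq κ]
    (G : Fin r → Matrix (Ix p κ) (Ix p κ) ℝ) (ε : ℝ) :
    Continuous (fun x : Fin (p + 1) → ℝ => (emb (S0 G ε (inc x)) : Amb (Ix p κ) (Tx p r κ) → ℝ)) := by
  refine continuous_pi fun i => ?_
  rcases i with a | s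
  · exact ((continuous_apply a.1).comp cont_inc).mul ((continuous_apply a.2).comp cont_inc)
  · exact (continuous_apply s).comp ((cont_tR G ε 1 0).comp cont_inc)

private theorem compact_sph (p : ℕ) : IsCompact {x : Fin (p + 1) → ℝ | nsq x = 1} := by
  refine Metric.isCompact_of_isClosed_isBounded ?_ ?_
  · refine isClosed_eq ?_ continuous_const
    unfold nsq
    fun_prop
  · refine (Metric.isBounded_closedBall (x := (0 : Fin (p + 1) → ℝ)) (r := 1)).subset ?_
    intro x hx
    rw [Metric.mem_closedBall, dist_zero_right, pi_norm_le_iff_of_nonneg zero_le_one]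
    intro i
    have h1 : x i ^ 2 ≤ 1 := by
      rw [← (hx : nsq x = 1)]
      exact Finset.single_le_sum (f := fun i => x i ^ 2) (fun j _ => sq_nonneg (x j)) (Finset.mem_univ i)
    rw [Real.norm_eq_abs]
    exact (sq_le_one_iff_abs_le_one _).1 h1

theorem loc {p m r : ℕ} (hp : 0 < p) {κ : Type} [Fintype κ] [DecidableEq κ]
    (G : Fin r → Matrix (Ix p κ) (Ix p κ) ℝ) (q : (Fin m → ℂ) → Ix p κ → ℝ) (ε : ℝ)
    (a : Fin p → κ → ℝ) (M : Set (Amb (Ix p κ) (Tx p r κ) → ℝ)) (hM : IsM hp G q ε a M) (R : ℝ) (hR : 0 < R) :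
    ∃ η > 0, ∀ x : Fin (p + 1) → ℝ, nsq x = 1 → ∀ x' ∈ M, dist (emb (S0 G ε (inc x))) x' < η →
      x 0 ≠ 0 ∧ (∀ j : Fin p, |x j.succ| < R * |x 0|) ∧ dist x' (emb (S0 G ε (inc e0))) < R := by
  set x0 : Amb (Ix p κ) (Tx p r κ) → ℝ := emb (S0 G ε (inc e0)) with hx0
  have hU : IsOpen {z : (Fin (p + 1) → ℝ) × (Amb (Ix p κ) (Tx p r κ) → ℝ) |
      z.1 0 ≠ 0 ∧ (∀ j : Fin p, |z.1 j.succ| < R * |z.1 0|) ∧ dist z.2 x0 < R} := by
    refine IsOpen.inter ?_ (IsOpen.inter ?_ ?_)
    · exact isOpen_ne_fun ((continuous_apply (0 : Fin (p + 1))).comp continuous_fst) continuous_const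
    · have he : (⋂ j : Fin p, {z : (Fin (p + 1) → ℝ) × (Amb (Ix p κ) (Tx p r κ) → ℝ) |
          |z.1 j.succ| < R * |z.1 0|}) = {z | ∀ j : Fin p, |z.1 j.succ| < R * |z.1 0|} := by
        ext z
        simp only [Set.mem_iInter, Set.mem_setOf_eq]
      have ho : IsOpen (⋂ j : Fin p, {z : (Fin (p + 1) → ℝ) × (Amb (Ix p κ) (Tx p r κ) → ℝ) |
          |z.1 j.succ| < R * |z.1 0|}) := ?_
      · rw [he] at ho
        exact ho
      refine isOpen_iInter_of_finite fun j => isOpen_lt ?_ ?_
      · exact ((continuous_apply (j.succ : Fin (p + 1))).comp continuous_fst).abs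
      · exact continuous_const.mul ((continuous_apply (0 : Fin (p + 1))).comp continuous_fst).abs
    · exact isOpen_lt (continuous_snd.dist continuous_const) continuous_const
  have hC : IsCompact (({x : Fin (p + 1) → ℝ | nsq x = 1} ×ˢ M) \
      {z : (Fin (p + 1) → ℝ) × (Amb (Ix p κ) (Tx p r κ) → ℝ) |
      z.1 0 ≠ 0 ∧ (∀ j : Fin p, |z.1 j.succ| < R * |z.1 0|) ∧ dist z.2 x0 < R}) :=
    ((compact_sph p).prod hM.compact).diff hU
  have hf : Continuous (fun z : (Fin (p + 1) → ℝ) × (Amb (Ix p κ) (Tx p r κ) → ℝ) =>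
      dist (emb (S0 G ε (inc z.1)) : Amb (Ix p κ) (Tx p r κ) → ℝ) z.2) :=
    ((cont_base G ε).comp continuous_fst).dist continuous_snd
  obtain ⟨η, hη, hmin⟩ := hC.exists_forall_le' hf.continuousOn (a := 0) (by
    rintro ⟨x, x'⟩ ⟨⟨hx, hx'⟩, hn⟩
    rw [dist_pos]
    intro he
    apply hn
    have hx1 : nsq x = 1 := hx
    have he' : (emb (S0 G ε (inc x)) : Amb (Ix p κ) (Tx p r κ) → ℝ) = x' := he
    have hmem : (emb (S0 G ε (inc x)) : Amb (Ix p κ) (Tx p r κ) → ℝ) ∈ M := by
      rw [he']
      exact hx'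
    have hR1 : (0 : ℝ) < R * |1| := by rw [abs_one, mul_one]; exact hR
    rcases hM.e_only x hx1 hmem with h | h
    · subst h
      refine ⟨?_, ?_, ?_⟩
      · simp [e0]
      · intro j
        simp [e0, Fin.succ_ne_zero, hR]
      · show dist x' x0 < R
        rw [← he', hx0, dist_self]
        exact hR
    · subst h
      refine ⟨?_, ?_, ?_⟩
      · simp [e0]
      · intro j
        simp [e0, Fin.succ_ne_zero, hR]
      · show dist x' x0 < R
        have h1 : (inc (-e0 : Fin (p + 1) → ℝ) : Ix p κ → ℝ) = (-1 : ℝ) • inc e0 := by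
          funext i
          rcases i with i | i
          · simp [inc]
          · simp [inc]
        have h2 : (emb (S0 G ε (inc (-e0 : Fin (p + 1) → ℝ))) : Amb (Ix p κ) (Tx p r κ) → ℝ) = x0 := by
          rw [hx0, h1]
          funext i
          rcases i with a | s
          · simp [emb, S0]
          · simp only [emb, S0, Sum.elim_inr]
            rw [tR_smul]
            simp
        rw [← he', h2, dist_self]
        exact hR)
  refine ⟨η, hη, fun x hx x' hx' hd => ?_⟩
  by_contra hn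
  have := hmin (x, x') ⟨⟨hx, hx'⟩, hn⟩
  exact absurd hd (not_lt.2 this)

theorem perturb {p r : ℕ} {κ : Type} [Fintype κ] [DecidableEq κ]
    (G : Fin r → Matrix (Ix p κ) (Ix p κ) ℝ) (ε : ℝ) (hε : 0 < ε) (η : ℝ) (hη : 0 < η) :
    ∃ δ : ℝ, 0 < δ ∧ ∀ (γ : Matrix (Ix p κ) (Ix p κ) ℝ) (W : Matrix (Tx p r κ) (Tx p r κ) ℝ), Near δ γ W →
      ∀ x : Fin (p + 1) → ℝ, nsq x = 1 → dist (sig G ε γ W x) (emb (S0 G ε (inc x))) < η := by
  have key : ∀ᶠ π in nhds (par0 : Par (Ix p κ) (Tx p r κ)), ∀ x ∈ {x : Fin (p + 1) → ℝ | nsq x = 1},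
      dist (sigP G ε π x) (emb (S0 G ε (inc x))) < η := by
    refine (compact_sph p).eventually_forall_of_forall_eventually ?_
    intro x hx
    have hx1 : nsq x = 1 := hx
    have hne : x ≠ 0 := by
      rintro rfl
      simp [nsq] at hx1
    have hc : ContinuousAt (fun z : Par (Ix p κ) (Tx p r κ) × (Fin (p + 1) → ℝ) =>
        dist (sigP G ε z.1 z.2) (emb (S0 G ε (inc z.2)))) (par0, x) :=
      (sigP_contDiffAt G ε hε x hne).continuousAt.dist ((cont_base G ε).comp continuous_snd).continuousAt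
    refine hc.eventually_lt continuousAt_const ?_
    rw [sigP_par0, sig_base G ε x hx1, dist_self]
    exact hη
  obtain ⟨δ, hδ, h⟩ := near_of_eventually _ key
  exact ⟨δ, hδ, fun γ W hn x hx => h γ W hn x hx⟩

end Pool.Agent.Helper72.BP
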