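import Pool.Agent.Helper72.BP.T.Tan
import Pool.Agent.Helper72.BP.T.Chart
import Pool.Agent.Helper72.BP.T.AbsOne
import Pool.Agent.Helper72.BP.T.Loc

/-!
PROJECT BP, module BP-T18: assembly of `tOne` (helper72).
-/

set_option autoImplicit false
set_option synthInstance.maxSize 2000

namespace Pool.Agent.Helper72.BP

open MvPolynomial
open Pool.Agent.Helper79.BP

private theorem cons_zero {p : ℕ} : (Fin.cons 1 (0 : Fin p → ℝ) : Fin (p + 1) → ℝ) = e0 := by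
  funext i
  refine Fin.cases ?_ (fun j => ?_) i
  · simp [e0]
  · simp [e0, Fin.succ_ne_zero]

private theorem cons_ne {p : ℕ} (b : Fin p → ℝ) : (Fin.cons 1 b : Fin (p + 1) → ℝ) ≠ 0 := by
  intro h
  have := congrFun h 0
  simp at this

private theorem nsq_e0 {p : ℕ} : nsq (e0 : Fin (p + 1) → ℝ) = 1 := by
  simp [nsq, e0]

/-- BLOCK T, one transversal point. -/
theorem tOne' {p m r : ℕ} (hp : 0 < p) {κ : Type} [Fintype κ] [DecidableEq κ]
    (G : Fin r → Matrix (Ix p κ) (Ix p κ) ℝ) (q : (Fin m → ℂ) → Ix p κ → ℝ) (ε : ℝ) (hT : IsTube G q ε)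
    (a : Fin p → κ → ℝ) (M : Set (Amb (Ix p κ) (Tx p r κ) → ℝ)) (hM : IsM hp G q ε a M) (d : ℕ)
    (hd : d + p + 2 = Fintype.card (Ix p κ) + Fintype.card (Tx p r κ)) :
    ∃ ε0 > 0, ∀ Φ : (Amb (Ix p κ) (Tx p r κ) → ℝ) → (Amb (Ix p κ) (Tx p r κ) → ℝ), ContDiff ℝ 1 Φ →
      (∀ x, ‖Φ x - x‖ ≤ ε0) → (∀ x, ‖fderiv ℝ Φ x - ContinuousLinearMap.id ℝ _‖ ≤ ε0) → (∀ x ∈ M, Φ x ∈ Vemb G ε) →
      IsNZ d (Φ '' M) → ∀ I : Ideal (MvPolynomial (Var (Ix p κ) (Tx p r κ)) ℝ),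
      (∀ (y : Ix p κ → ℝ) (t : Tx p r κ → ℝ), nsq y = 1 → IsZero (coneIdeal (lift (Φ '' M))) y t → ¬ IsZero I y t →
        (y, t) ∈ lift (Φ '' M)) →
      (∀ f ∈ I, ∀ n, weightedHomogeneousComponent (wt : Var (Ix p κ) (Tx p r κ) → ℕ) n f ∈ I) →
      ∃ δ > 0, ∀ γ W, Near δ γ W → OnePoint G ε (coneIdeal (lift (Φ '' M))) I γ W := by
  obtain ⟨Gv, R0, hR0, hG, hGV, ρ1, hρ1, hGK⟩ := chart (r := r) G q ε hT
  obtain ⟨ρ2, hρ2, hMn⟩ := hM.e_near
  obtain ⟨δn, hδn, hnear⟩ := sig_near (r := r) G q ε hT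
  obtain ⟨σ', hσ, hσL⟩ := sigP_strict (r := r) G ε hT.pos a
  set x0 : Amb (Ix p κ) (Tx p r κ) → ℝ := emb (S0 G ε (inc e0)) with hx0
  have hsig0 : sigP G ε par0 (Fin.cons 1 (0 : Fin p → ℝ)) = x0 := by
    rw [sigP_par0, cons_zero, sig_base G ε e0 nsq_e0]
  have hx0V : x0 ∈ Vemb G ε := by
    have hn : Near δn (1 : Matrix (Ix p κ) (Ix p κ) ℝ) (0 : Matrix (Tx p r κ) (Tx p r κ) ℝ) :=
      ⟨fun i j => by simpa using hδn, fun i j => by simpa using hδn, by simp⟩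
    have h := (hnear 1 0 hn).2.1 e0 (by
      intro h
      have := nsq_e0 (p := p)
      rw [h] at this
      simp [nsq] at this)
    rwa [sig_base G ε e0 nsq_e0] at h
  have hLam0 : ∀ j, Lam a j x0 = 0 := by
    intro j
    have h := Lam_sig (r := r) G ε a j (0 : Fin p → ℝ)
    rw [cons_zero, sig_base G ε e0 nsq_e0] at h
    simpa using h
  have hx0M : x0 ∈ M := (hMn x0 hx0V (by simpa [hx0] using hρ2)).2 hLam0
  have hLK : ∀ v : Amb (Ix p κ) (Tx p r κ) → ℝ, Lmap a (Kmap v) = 0 ↔ ∀ j, Lam a j v = 0 := by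
    intro v
    constructor
    · intro h j
      rw [← Lmap_Kmap, h]
      rfl
    · intro h
      funext j
      rw [Lmap_Kmap, h j]
      rfl
  -- the good parameters
  set Ps : Set (Par (Ix p κ) (Tx p r κ)) :=
    {π | ∃ (γ : Matrix (Ix p κ) (Ix p κ) ℝ) (W : Matrix (Tx p r κ) (Tx p r κ) ℝ), Near δn γ W ∧ π = toPar γ W} with hPs
  have hσV : ∀ᶠ z in nhds ((par0, 0) : Par (Ix p κ) (Tx p r κ) × (Fin p → ℝ)),
      z.1 ∈ Ps → sigP G ε z.1 (Fin.cons 1 z.2) ∈ Vemb G ε := by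
    refine Filter.Eventually.of_forall ?_
    rintro ⟨π, b⟩ ⟨γ, W, hn, hπ⟩
    have hπ' : π = toPar γ W := hπ
    show sigP G ε π (Fin.cons 1 b) ∈ Vemb G ε
    rw [hπ', sigP_toPar]
    exact (hnear γ W hn).2.1 _ (cons_ne b)
  have hcd : ∀ b : Fin p → ℝ, DifferentiableAt ℝ (fun b : Fin p → ℝ => (Fin.cons 1 b : Fin (p + 1) → ℝ)) b := by
    intro b
    rw [differentiableAt_pi]
    intro i
    refine Fin.cases ?_ (fun j => ?_) i
    · simp only [Fin.cons_zero]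
      exact differentiableAt_const _
    · simp only [Fin.cons_succ]
      exact differentiableAt_apply j b
  have hσd : ∀ᶠ z in nhds ((par0, 0) : Par (Ix p κ) (Tx p r κ) × (Fin p → ℝ)),
      z.1 ∈ Ps → DifferentiableAt ℝ (fun b => sigP G ε z.1 (Fin.cons 1 b)) z.2 := by
    refine Filter.Eventually.of_forall ?_
    rintro ⟨π, b⟩ ⟨γ, W, hn, hπ⟩
    have hπ' : π = toPar γ W := hπ
    show DifferentiableAt ℝ (fun b => sigP G ε π (Fin.cons 1 b)) b
    rw [hπ']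
    simp only [sigP_toPar]
    have h1 := sig_diff G ε γ W (Fin.cons 1 b) (nsq_pos γ (hnear γ W hn).1 _ (cons_ne b)).ne'
    exact DifferentiableAt.comp (g := fun x => sig G ε γ W x) b h1 (hcd b)
  set ρ : ℝ := min ρ1 ρ2 with hρdef
  have hρ : 0 < ρ := lt_min hρ1 hρ2
  obtain ⟨R, hR, ε1, hε1, δ1, hδ1, hAbs⟩ := absOne (Vemb G ε) M x0 Kmap (Lmap a) Gv R0 hR0 hG hGV ρ hρ
    (fun v hv hvd => hGK v hv (hvd.trans_le (min_le_left _ _)))
    (fun v hv hvd => by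
      rw [hLK]
      exact hMn v hv (hvd.trans_le (min_le_right _ _)))
    hx0M hM.sub (fun π b => sigP G ε π (Fin.cons 1 b)) Ps par0 σ' hσ hsig0 hσV hσd
    (fun b => by
      funext j
      rw [Lmap_Kmap]
      exact hσL b j)
  obtain ⟨η, hη, hloc⟩ := loc hp G q ε a M hM R hR
  obtain ⟨δ2, hδ2, hpert⟩ := perturb (p := p) (r := r) G ε hT.pos (η / 2) (half_pos hη)
  obtain ⟨δ3, hδ3, hdist⟩ := near_of_eventually (ι := Ix p κ) (τ := Tx p r κ) (fun π => dist π par0 < δ1)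
    (Metric.ball_mem_nhds _ hδ1)
  refine ⟨min ε1 (η / 4), lt_min hε1 (by linarith), ?_⟩
  intro Φ hΦ hc1 hc2 hΦV hNZ I hI hIc
  refine ⟨min δn (min δ2 δ3), lt_min hδn (lt_min hδ2 hδ3), ?_⟩
  intro γ W hγW
  have hmono : ∀ {a b : ℝ}, a ≤ b → Near a γ W → Near b γ W := fun hab h =>
    ⟨fun i j => (h.1 i j).trans_le hab, fun i j => (h.2.1 i j).trans_le hab, h.2.2⟩
  have hn0 : Near δn γ W := hmono (min_le_left _ _) hγW
  have hn2 : Near δ2 γ W := hmono ((min_le_right _ _).trans (min_le_left _ _)) hγW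
  have hn3 : Near δ3 γ W := hmono ((min_le_right _ _).trans (min_le_right _ _)) hγW
  obtain ⟨hγ, hsV, hSV, hF⟩ := hnear γ W hn0
  obtain ⟨xs, hxs, b, hb, hbu, T0, hT0, hTc, hTk⟩ := hAbs Φ hΦ (fun x => (hc1 x).trans (min_le_left _ _))
    (fun x => (hc2 x).trans (min_le_left _ _)) hΦV (toPar γ W) ⟨γ, W, hn0, rfl⟩ (hdist γ W hn3)
  simp only [sigP_toPar] at hb hbu hTk
  set Z' : Set (Amb (Ix p κ) (Tx p r κ) → ℝ) := Φ '' M with hZ'
  have hZV : Z' ⊆ Vemb G ε := by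
    rintro _ ⟨x, hx, rfl⟩
    exact hΦV x hx
  obtain ⟨l, hl, hl1⟩ := exists_unit (p := p) γ hγ (Fin.cons 1 b) (cons_ne b)
  set ξ : Fin (p + 1) → ℝ := l • Fin.cons 1 b with hξ
  have hξ0 : ξ ≠ 0 := smul_ne_zero hl.ne' (cons_ne b)
  have hsξ : sig G ε γ W ξ = Φ xs := by
    rw [hξ, sig_smul G ε γ W _ l hl.ne', hb]
  have hemb : emb (Sec G ε γ W ξ) = Φ xs := by
    rw [← sig_unit G ε γ W ξ hl1, hsξ]
  have hξZ : emb (Sec G ε γ W ξ) ∈ Z' := by
    rw [hemb]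
    exact ⟨xs, hxs, rfl⟩
  refine ⟨ξ, hξ0, lift_isZero Z' (Sec G ε γ W ξ) ⟨hl1, hξZ⟩, ?_, ?_⟩
  · -- uniqueness
    intro x hx1 hx2
    by_cases hx : x = 0
    · exact ⟨0, by rw [hx, zero_smul]⟩
    have hxZ := sig_mem_of_zero G ε γ W hγ Z' I hI hIc x hx hx1 hx2
    obtain ⟨x', hx', hx'e⟩ := hxZ
    have hN : 0 < nsq x := by
      have h := nsq_pos (p := p) (κ := κ) 1 (by simp) x hx
      rwa [act_one, show nsq (inc x : Ix p κ → ℝ) = nsq x by simp [nsq, inc]] at h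
    set c : ℝ := 1 / Real.sqrt (nsq x) with hc
    have hc0 : 0 < c := by positivity
    have hu : nsq (c • x) = 1 := by
      rw [nsq_smul, hc, div_pow, one_pow, Real.sq_sqrt hN.le]
      field_simp
    have hsu : sig G ε γ W (c • x) = Φ x' := by
      rw [sig_smul G ε γ W x c hc0.ne', hx'e]
    have hdd : dist (emb (S0 G ε (inc (c • x)))) x' < η := by
      calc dist (emb (S0 G ε (inc (c • x)))) x' ≤ dist (emb (S0 G ε (inc (c • x)))) (sig G ε γ W (c • x)) +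
            dist (sig G ε γ W (c • x)) x' := dist_triangle _ _ _
        _ < η / 2 + η / 2 := by
            refine add_lt_add ?_ ?_
            · rw [dist_comm]
              exact hpert γ W hn2 _ hu
            · rw [hsu, dist_eq_norm]
              have := (hc1 x').trans (min_le_right _ _)
              linarith
        _ = η := by ring
    obtain ⟨h0, hj, hd0⟩ := hloc (c • x) hu x' hx' hdd
    have hx00 : x 0 ≠ 0 := by
      intro h
      apply h0
      simp [h]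
    set b' : Fin p → ℝ := fun j => x j.succ / x 0 with hb'
    have hxb : x = x 0 • (Fin.cons 1 b' : Fin (p + 1) → ℝ) := by
      funext i
      refine Fin.cases ?_ (fun j => ?_) i
      · simp
      · simp only [hb', Pi.smul_apply, Fin.cons_succ, smul_eq_mul]
        field_simp
    have hbn : ‖b'‖ < R := by
      rw [pi_norm_lt_iff hR]
      intro j
      have h := hj j
      simp only [Pi.smul_apply, smul_eq_mul, abs_mul, abs_of_pos hc0] at h
      have h' : |x j.succ| < R * |x 0| := by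
        have : c * |x j.succ| < c * (R * |x 0|) := by linarith
        exact lt_of_mul_lt_mul_left this hc0.le
      rw [Real.norm_eq_abs, hb', abs_div, div_lt_iff₀ (abs_pos.2 hx00)]
      exact h'
    have hbb : b' = b := by
      refine hbu x' hx' b' hd0 hbn ?_
      rw [hx'e]
      conv_lhs => rw [hxb]
      exact sig_smul G ε γ W _ _ hx00
    refine ⟨x 0 / l, ?_⟩
    rw [hξ, smul_smul, div_mul_cancel₀ _ hl.ne', ← hbb]
    exact hxb
  · -- transversality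
    refine tan_part G q ε hT d hd Z' hZV hNZ γ W hF ξ hl1 hξZ T0 (by rw [hT0]; exact finrank_ker_Lmap a d hd) ?_ ?_
    · intro u hu
      obtain ⟨c, hc0, hc1, hc2⟩ := hTc u hu
      exact ⟨c, by rw [hc0, hemb], hc1, hc2⟩
    · intro v hv
      exact sig_cons G ε γ W hγ b l hl.ne' T0 hTk v hv

end Pool.Agent.Helper72.BP
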