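import Pool.Agent.Helper79.BP.Stat

/-!
PROJECT BP, module BP-T16: the pushed point is not in the Zariski closure.

Write η x = Φ x - x (ε0-Lipschitz, ε0 ≤ 1/2). B := zcl (Φ '' M) \ Φ '' M is algebraic, so closed (IsAlg: intersection of zero sets of continuous functions, MvPolynomial.continuous_eval), and disjoint from the compact set Φ '' Q (Φ '' Q ⊆ Φ '' M; Φ is continuous,
since id + Lipschitz): there is d > 0 with ‖y - Φ x‖ ≥ d for all y ∈ B, x ∈ Q (`IsCompact.exists_..`, Metric.infDist or Disjoint: `IsCompact.exists_thickening_subset_open`; empty Q is trivial).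
u0 := min(ρ/(4 C1), d/(2 C1)). Let 0 < u < u0, x ∈ Q, ‖y - Φ x‖ ≤ C1 u, y b - Φ x b = u. Then y ∉ B. If y = Φ x' with x' ∈ M: ‖x' - x‖ ≤ ‖Φ x' - Φ x‖ + ε0 ‖x' - x‖, so ‖x' - x‖ ≤ 2 C1 u < ρ, hence x' b = 0, and x b = 0 too (dist x x = 0 < ρ).
u = y b - Φ x b = (x' b - x b) + (η x' b - η x b) ≤ ε0 ‖x' - x‖ ≤ 2 ε0 C1 u < u (norm_le_pi_norm), contradiction. So y ∉ Φ '' M and y ∉ B, that is y ∉ zcl.
-/

set_option autoImplicit false
set_option synthInstance.maxSize 2000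

namespace Pool.Agent.Helper72.BP

open MvPolynomial
open Pool.Agent.Helper79.BP

theorem off {ι : Type} [Fintype ι] (M Q : Set (ι → ℝ)) (hQ : IsCompact Q) (hQM : Q ⊆ M) (b : ι) (ρ : ℝ) (hρ : 0 < ρ)
    (hnear : ∀ x ∈ M, ∀ y ∈ Q, dist x y < ρ → x b = 0) (C1 : ℝ) (hC1 : 1 ≤ C1) (ε0 : ℝ) (h0 : 0 ≤ ε0)
    (h1 : ε0 ≤ 1 / 2) (h2 : 2 * ε0 * C1 < 1) (Φ : (ι → ℝ) → (ι → ℝ))
    (hlip : ∀ x y, ‖(Φ x - x) - (Φ y - y)‖ ≤ ε0 * ‖x - y‖) (halg : IsAlg (zcl (Φ '' M) \ Φ '' M)) :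
    ∃ u0 > 0, ∀ u, 0 < u → u < u0 → ∀ x ∈ Q, ∀ y : ι → ℝ, ‖y - Φ x‖ ≤ C1 * u → y b - Φ x b = u →
      y ∉ zcl (Φ '' M) := by
  classical
  have hcont : Continuous Φ := by
    have hL : ∀ x y, dist (Φ x) (Φ y) ≤ (1 + ε0) * dist x y := by
      intro x y
      rw [dist_eq_norm, dist_eq_norm]
      have h3 : Φ x - Φ y = (x - y) + ((Φ x - x) - (Φ y - y)) := by abel
      rw [h3]
      refine (norm_add_le _ _).trans ?_
      have h4 := hlip x y
      linarith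
    exact (LipschitzWith.of_dist_le' hL).continuous
  have hclosed : IsClosed (zcl (Φ '' M) \ Φ '' M) := by
    obtain ⟨S, hS⟩ := halg
    rw [hS]
    have h5 : {x : ι → ℝ | ∀ f ∈ S, eval x f = 0} = ⋂ f ∈ S, {x : ι → ℝ | eval x f = 0} := by
      ext x
      simp
    rw [h5]
    refine isClosed_biInter (fun f _ => ?_)
    exact isClosed_eq (MvPolynomial.continuous_eval f) continuous_const
  have hdisj : Disjoint (Φ '' Q) (zcl (Φ '' M) \ Φ '' M) := by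
    rw [Set.disjoint_left]
    rintro z ⟨q, hq, rfl⟩ hz
    exact hz.2 ⟨q, hQM hq, rfl⟩
  obtain ⟨d, hd, hdd⟩ := hdisj.exists_thickenings (hQ.image hcont) hclosed
  have hC0 : 0 < C1 := by linarith
  refine ⟨min (ρ / (4 * C1)) (d / (2 * C1)), by positivity, ?_⟩
  intro u hu0 hu1 x hx y hy hyb hz
  have hu2 : u < ρ / (4 * C1) := lt_of_lt_of_le hu1 (min_le_left _ _)
  have hu3 : u < d / (2 * C1) := lt_of_lt_of_le hu1 (min_le_right _ _)
  rw [lt_div_iff₀ (by positivity)] at hu2 hu3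
  by_cases hyM : y ∈ Φ '' M
  · obtain ⟨x', hx', rfl⟩ := hyM
    have h6 : x' - x = (Φ x' - Φ x) - ((Φ x' - x') - (Φ x - x)) := by abel
    have h7 : ‖x' - x‖ ≤ ‖Φ x' - Φ x‖ + ε0 * ‖x' - x‖ := by
      calc ‖x' - x‖ = ‖(Φ x' - Φ x) - ((Φ x' - x') - (Φ x - x))‖ := by rw [← h6]
        _ ≤ ‖Φ x' - Φ x‖ + ‖(Φ x' - x') - (Φ x - x)‖ := norm_sub_le _ _
        _ ≤ ‖Φ x' - Φ x‖ + ε0 * ‖x' - x‖ := by
          have := hlip x' x
          linarith
    have h8 : ‖x' - x‖ ≤ 2 * C1 * u := by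
      have h9 : ε0 * ‖x' - x‖ ≤ 1 / 2 * ‖x' - x‖ := mul_le_mul_of_nonneg_right h1 (norm_nonneg _)
      linarith
    have h10 : dist x' x < ρ := by
      rw [dist_eq_norm]
      nlinarith
    have h11 : x' b = 0 := hnear x' hx' x hx h10
    have h12 : x b = 0 := hnear x (hQM hx) x hx (by rw [dist_self]; exact hρ)
    have h13 : Φ x' b - Φ x b ≤ ε0 * ‖x' - x‖ := by
      have h14 : Φ x' b - Φ x b = ((Φ x' - x') - (Φ x - x)) b := by
        simp only [Pi.sub_apply, h11, h12]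
        ring
      rw [h14]
      refine (le_abs_self _).trans ?_
      rw [← Real.norm_eq_abs]
      exact (norm_le_pi_norm _ b).trans (hlip x' x)
    have h15 : ε0 * ‖x' - x‖ ≤ ε0 * (2 * C1 * u) := mul_le_mul_of_nonneg_left h8 h0
    have h16 : ε0 * (2 * C1 * u) < u := by
      have : 2 * ε0 * C1 * u < 1 * u := mul_lt_mul_of_pos_right h2 hu0
      linarith
    linarith
  · have hB : y ∈ zcl (Φ '' M) \ Φ '' M := ⟨hz, hyM⟩
    have h17 : dist y (Φ x) < d := by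
      rw [dist_eq_norm]
      nlinarith
    have h18 : y ∈ Metric.thickening d (Φ '' Q) := by
      rw [Metric.mem_thickening_iff]
      exact ⟨Φ x, ⟨x, hx, rfl⟩, h17⟩
    exact Set.disjoint_left.mp hdd h18 (Metric.self_subset_thickening hd _ hB)

end Pool.Agent.Helper72.BP
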