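import Pool.Agent.Helper72.BP.OLem
import Pool.Agent.Helper72.BP.Defs2

/-!
PROJECT BP, module BP-T2: smoothness of the Cayley transform and of the coefficients in the parameters.

det_contDiff: Matrix.det_apply, finite sum of finite products of coordinates (`contDiff_prod`, fun_prop / `contDiff_apply_apply`).
inv: (1+W)⁻¹ = Ring.inverse det • adjugate (Matrix.inv_def, Ring.inverse_eq_inv'), adjugate_apply is the determinant of (updateRow/Col .. (Pi.single ..)), so its entries are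
finite sums of products of coordinates or constants, hence smooth; ContDiffAt.inv for the determinant ≠ 0. cay = (1 - W) * (1+W)⁻¹: Matrix.mul_apply.
rho_contDiff: unfold rho, Matrix.mul_apply, Matrix.transpose_apply, finite sums of products of coordinates: fun_prop.
sq_contDiffAt: cases on the index; constant; Real.sqrt of a smooth function which is positive at the point (ContDiffAt.sqrt): |rho| < 4 dl gives dl ± rho/4 > 0.
tR_contDiffAt: contDiffAt_pi, unfold tR act uR: finite sum of products of cay entries, sq, nj (a quadratic polynomial in y).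
-/

set_option autoImplicit false
set_option synthInstance.maxSize 2000

namespace Pool.Agent.Helper72.BP

open MvPolynomial

private theorem h86_det {E : Type} [NormedAddCommGroup E] [NormedSpace ℝ E] {τ : Type} [Fintype τ] [DecidableEq τ]
    (f : E → Matrix τ τ ℝ) (x : E) (h : ∀ i j, ContDiffAt ℝ 1 (fun z => f z i j) x) :
    ContDiffAt ℝ 1 (fun z => (f z).det) x := by
  simp only [Matrix.det_apply']
  refine ContDiffAt.sum fun σ _ => contDiffAt_const.mul ?_
  exact contDiffAt_prod fun i _ => h _ _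

private theorem h86_mul {E : Type} [NormedAddCommGroup E] [NormedSpace ℝ E] {a b c : Type} [Fintype b]
    (f : E → Matrix a b ℝ) (g : E → Matrix b c ℝ) (x : E) (hf : ∀ i j, ContDiffAt ℝ 1 (fun z => f z i j) x)
    (hg : ∀ i j, ContDiffAt ℝ 1 (fun z => g z i j) x) (i : a) (j : c) :
    ContDiffAt ℝ 1 (fun z => (f z * g z) i j) x := by
  simp only [Matrix.mul_apply]
  exact ContDiffAt.sum fun k _ => (hf i k).mul (hg k j)

private theorem h86_inv {E : Type} [NormedAddCommGroup E] [NormedSpace ℝ E] {τ : Type} [Fintype τ] [DecidableEq τ]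
    (f : E → Matrix τ τ ℝ) (x : E) (h : ∀ i j, ContDiffAt ℝ 1 (fun z => f z i j) x) (hd : (f x).det ≠ 0) (i j : τ) :
    ContDiffAt ℝ 1 (fun z => (f z)⁻¹ i j) x := by
  simp only [Matrix.inv_def, Ring.inverse_eq_inv', Matrix.smul_apply, smul_eq_mul, Matrix.adjugate_apply]
  refine ((h86_det f x h).inv hd).mul (h86_det _ x fun k l => ?_)
  simp only [Matrix.updateRow_apply]
  by_cases hk : k = j
  · simp only [if_pos hk]
    exact contDiffAt_const
  · simp only [if_neg hk]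
    exact h k l

private theorem h86_of {a b : Type} [Fintype a] [Fintype b] (W0 : a → b → ℝ) (i : a) (j : b) :
    ContDiffAt ℝ 1 (fun W : a → b → ℝ => Matrix.of W i j) W0 := by
  simp only [Matrix.of_apply]
  exact (contDiff_apply_apply ℝ ℝ i j).contDiffAt

theorem det_contDiff {τ : Type} [Fintype τ] [DecidableEq τ] :
    ContDiff ℝ 1 (fun W : τ → τ → ℝ => (Matrix.of W).det) := by
  rw [contDiff_iff_contDiffAt]
  intro W
  exact h86_det (fun W : τ → τ → ℝ => Matrix.of W) W (h86_of W)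

theorem cay_contDiffAt {τ : Type} [Fintype τ] [DecidableEq τ] (W0 : τ → τ → ℝ)
    (h : (1 + Matrix.of W0 : Matrix τ τ ℝ).det ≠ 0) (i j : τ) :
    ContDiffAt ℝ 1 (fun W : τ → τ → ℝ => cay (Matrix.of W) i j) W0 := by
  unfold cay
  refine h86_mul (fun W : τ → τ → ℝ => 1 - Matrix.of W) (fun W : τ → τ → ℝ => (1 + Matrix.of W)⁻¹) W0 ?_ ?_ i j
  · intro i j
    simp only [Matrix.sub_apply]
    exact contDiffAt_const.sub (h86_of W0 i j)
  · refine h86_inv (fun W : τ → τ → ℝ => 1 + Matrix.of W) W0 ?_ h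
    intro i j
    simp only [Matrix.add_apply]
    exact contDiffAt_const.add (h86_of W0 i j)

theorem rho_contDiff {ι : Type} [Fintype ι] [DecidableEq ι] {r : ℕ} (G : Fin r → Matrix ι ι ℝ) (ε : ℝ) (a b : ι × ι) :
    ContDiff ℝ 1 (fun γ : ι → ι → ℝ => rho G ε (Matrix.of γ) a b) := by
  rw [contDiff_iff_contDiffAt]
  intro γ
  have hT : ∀ i j, ContDiffAt ℝ 1 (fun γ : ι → ι → ℝ => (Matrix.of γ).transpose i j) γ := fun i j => h86_of γ j i
  have hO : ∀ i j, ContDiffAt ℝ 1 (fun γ : ι → ι → ℝ => Matrix.of γ i j) γ := h86_of γ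
  have hC : ∀ l i j, ContDiffAt ℝ 1 (fun _ : ι → ι → ℝ => G l i j) γ := fun l i j => contDiffAt_const
  have hg : ∀ i j, ContDiffAt ℝ 1 (fun γ : ι → ι → ℝ => ((Matrix.of γ).transpose * Matrix.of γ) i j) γ :=
    h86_mul _ _ γ hT hO
  have hG : ∀ l i j, ContDiffAt ℝ 1
      (fun γ : ι → ι → ℝ => ((Matrix.of γ).transpose * G l * Matrix.of γ) i j) γ := fun l =>
    h86_mul (fun γ : ι → ι → ℝ => (Matrix.of γ).transpose * G l) _ γ
      (h86_mul (fun γ : ι → ι → ℝ => (Matrix.of γ).transpose) (fun _ => G l) γ hT (hC l)) hO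
  unfold rho
  refine ContDiffAt.add (contDiffAt_const.mul (((hg _ _).mul (hg _ _)).sub contDiffAt_const)) ?_
  exact ContDiffAt.sum fun l _ => contDiffAt_const.sub ((hG l _ _).mul (hG l _ _))

theorem sq_contDiffAt {p r : ℕ} {κ : Type} [Fintype κ] [DecidableEq κ] (G : Fin r → Matrix (Ix p κ) (Ix p κ) ℝ)
    (ε : ℝ) (γ0 : Ix p κ → Ix p κ → ℝ)
    (hρ : ∀ a b : Mu p κ, |rho G ε (Matrix.of γ0) a b| < 4 * dl p κ ε) (j : Qx p κ) :
    ContDiffAt ℝ 1 (fun γ : Ix p κ → Ix p κ → ℝ => sq G ε (Matrix.of γ) j) γ0 := by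
  have hr : ∀ a b : Mu p κ, ContDiffAt ℝ 1 (fun γ : Ix p κ → Ix p κ → ℝ => rho G ε (Matrix.of γ) a b) γ0 :=
    fun a b => (rho_contDiff G ε a b).contDiffAt
  rcases j with a | ab | ab
  · exact contDiffAt_const
  · refine ContDiffAt.sqrt (contDiffAt_const.add ((hr ab.1 ab.2).div_const 4)) ?_
    have h := abs_lt.1 (hρ ab.1 ab.2)
    have h2 : 0 < dl p κ ε + rho G ε (Matrix.of γ0) ab.1 ab.2 / 4 := by linarith [h.1]
    exact h2.ne'
  · refine ContDiffAt.sqrt (contDiffAt_const.sub ((hr ab.1 ab.2).div_const 4)) ?_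
    have h := abs_lt.1 (hρ ab.1 ab.2)
    have h2 : 0 < dl p κ ε - rho G ε (Matrix.of γ0) ab.1 ab.2 / 4 := by linarith [h.2]
    exact h2.ne'

theorem tR_contDiffAt {p r : ℕ} {κ : Type} [Fintype κ] [DecidableEq κ] (G : Fin r → Matrix (Ix p κ) (Ix p κ) ℝ)
    (ε : ℝ) (π : (Ix p κ → Ix p κ → ℝ) × (Tx p r κ → Tx p r κ → ℝ)) (y : Ix p κ → ℝ)
    (hρ : ∀ a b : Mu p κ, |rho G ε (Matrix.of π.1) a b| < 4 * dl p κ ε)
    (hdet : (1 + Matrix.of π.2 : Matrix (Tx p r κ) (Tx p r κ) ℝ).det ≠ 0) :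
    ContDiffAt ℝ 1 (fun z : ((Ix p κ → Ix p κ → ℝ) × (Tx p r κ → Tx p r κ → ℝ)) × (Ix p κ → ℝ) =>
      tR G ε (Matrix.of z.1.1) (Matrix.of z.1.2) z.2) (π, y) := by
  rw [contDiffAt_pi]
  intro s
  have h11 : ContDiffAt ℝ 1 (fun z : ((Ix p κ → Ix p κ → ℝ) × (Tx p r κ → Tx p r κ → ℝ)) × (Ix p κ → ℝ) => z.1.1)
      (π, y) := contDiff_fst.contDiffAt.comp (π, y) contDiff_fst.contDiffAt
  have h12 : ContDiffAt ℝ 1 (fun z : ((Ix p κ → Ix p κ → ℝ) × (Tx p r κ → Tx p r κ → ℝ)) × (Ix p κ → ℝ) => z.1.2)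
      (π, y) := contDiff_snd.contDiffAt.comp (π, y) contDiff_fst.contDiffAt
  have h2 : ContDiffAt ℝ 1 (fun z : ((Ix p κ → Ix p κ → ℝ) × (Tx p r κ → Tx p r κ → ℝ)) × (Ix p κ → ℝ) => z.2)
      (π, y) := contDiff_snd.contDiffAt
  have hy : ∀ i, ContDiffAt ℝ 1
      (fun z : ((Ix p κ → Ix p κ → ℝ) × (Tx p r κ → Tx p r κ → ℝ)) × (Ix p κ → ℝ) => z.2 i) (π, y) :=
    contDiffAt_pi.1 h2
  unfold tR act
  refine ContDiffAt.sum fun x _ => ContDiffAt.mul ?_ ?_
  · exact ContDiffAt.comp (π, y) (g := fun W : Tx p r κ → Tx p r κ → ℝ => cay (Matrix.of W) s x)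
      (cay_contDiffAt π.2 hdet s x) h12
  · rcases x with j | x
    · refine ContDiffAt.mul ?_ ?_
      · exact ContDiffAt.comp (π, y) (g := fun γ : Ix p κ → Ix p κ → ℝ => sq G ε (Matrix.of γ) j)
          (sq_contDiffAt G ε π.1 hρ j) h11
      · rcases j with a | ab | ab
        · exact (hy _).mul (hy _)
        · exact ((hy _).mul (hy _)).add ((hy _).mul (hy _))
        · exact ((hy _).mul (hy _)).sub ((hy _).mul (hy _))
    · exact contDiffAt_const

end Pool.Agent.Helper72.BP
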