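import Pool.Agent.Helper72.BP.T.Eq
import Pool.Agent.Helper72.BP.T.Cay

/-!
PROJECT BP, module BP-T13: the path from the section `(γ, W)` over `q` to the base section.

δ = min of the δ's of near_inv, near_sq, tube_identR. For s in [0,1]: γ_s = (1-s) γ + s 1, W_s = (1-s) W; Near δ γ_s W_s (|γ_s - 1| = (1-s)|γ - 1|; W_s is skew). y_s z = act γ_s (q z), t_s z = tR G ε γ_s W_s (q z), N = nsq (y_s z) > 0 (γ_s invertible, nsq (q z) = (∑‖z_a‖^2)^2 = 1
by hT.q_norm, so q z ≠ 0: if y_s = 0 then q z = act γ_s⁻¹ y_s = 0). H z s := (c • y_s z, c^2 • t_s z), c = 1/√N; c z := 1/√(nsq (act γ (q z))) is its value at s = 0.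
In Vt: nsq = c^2 N = 1; Ffun (c y, c^2 t) = c^4 Ffun (y, t) = 0 (Ffun_smul, tube_identR with R = ℝ, qf (G l) (q z) = 0 by hT.g_q).
Equivariance: q (i z) = - q z (hT.q_I); act γ (-y) = - act γ y, tR (-y) = tR y (tR_smul with c = -1; or act_smul), nsq (-y) = nsq y.
s = 1: γ_1 = 1, W_1 = 0, act_one, nsq (q z) = 1, c = 1: H z 1 = (q z, tR G ε 1 0 (q z)) = S0 G ε (q z).
Continuity: (z, s) ↦ (γ_s, W_s, q z) is continuous (hT.q_cont) and tR is continuous at such points (tR_contDiffAt.continuousAt: det (1 + W_s) ≠ 0 and |rho| < 4 dl hold for Near δ); √ and 1/√ of a positive continuous function.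
-/

set_option autoImplicit false
set_option synthInstance.maxSize 2000

namespace Pool.Agent.Helper72.BP

open MvPolynomial

private theorem near_mono {ι τ : Type} [DecidableEq ι] {δ δ' : ℝ} (h : δ ≤ δ') {γ : Matrix ι ι ℝ} {W : Matrix τ τ ℝ}
    (hN : Near δ γ W) : Near δ' γ W :=
  ⟨fun i j => (hN.1 i j).trans_le h, fun i j => (hN.2.1 i j).trans_le h, hN.2.2⟩

private theorem tR_cont {X : Type} [TopologicalSpace X] {p r : ℕ} {κ : Type} [Fintype κ] [DecidableEq κ]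
    (G : Fin r → Matrix (Ix p κ) (Ix p κ) ℝ) (ε : ℝ) (g : X → Ix p κ → Ix p κ → ℝ)
    (w : X → Tx p r κ → Tx p r κ → ℝ) (y : X → Ix p κ → ℝ) (x : X)
    (hρ : ∀ a b : Mu p κ, |rho G ε (Matrix.of (g x)) a b| < 4 * dl p κ ε)
    (hdet : (1 + Matrix.of (w x) : Matrix (Tx p r κ) (Tx p r κ) ℝ).det ≠ 0)
    (h : ContinuousAt (fun x => ((g x, w x), y x)) x) :
    ContinuousAt (fun x => tR G ε (Matrix.of (g x)) (Matrix.of (w x)) (y x)) x := by
  have h2 : ContinuousAt (fun z : ((Ix p κ → Ix p κ → ℝ) × (Tx p r κ → Tx p r κ → ℝ)) × (Ix p κ → ℝ) =>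
      tR G ε (Matrix.of z.1.1) (Matrix.of z.1.2) z.2) ((g x, w x), y x) :=
    (tR_contDiffAt G ε (g x, w x) (y x) hρ hdet).continuousAt
  exact ContinuousAt.comp (f := fun x => ((g x, w x), y x)) h2 h

theorem pathA {p m r : ℕ} {κ : Type} [Fintype κ] [DecidableEq κ]
    (G : Fin r → Matrix (Ix p κ) (Ix p κ) ℝ) (q : (Fin m → ℂ) → Ix p κ → ℝ) (ε : ℝ) (hT : IsTube G q ε) :
    ∃ δ : ℝ, 0 < δ ∧ ∀ (γ : Matrix (Ix p κ) (Ix p κ) ℝ) (W : Matrix (Tx p r κ) (Tx p r κ) ℝ), Near δ γ W →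
      ∃ c : (Fin m → ℂ) → ℝ, (∀ z ∈ Sph m, c z ≠ 0) ∧
        EqPath G ε (fun z => (c z • act γ (q z), c z ^ 2 • tR G ε γ W (q z))) (fun z => S0 G ε (q z)) := by
  obtain ⟨δ1, hδ1, hinv⟩ := near_inv (p := p) (r := r) (κ := κ)
  obtain ⟨δ2, hδ2, hsq⟩ := near_sq G ε hT.pos
  obtain ⟨δ3, hδ3, hid⟩ := tube_identR G q ε hT
  refine ⟨min δ1 (min δ2 δ3), lt_min hδ1 (lt_min hδ2 hδ3), fun γ W hN => ?_⟩
  have hm1 : min δ1 (min δ2 δ3) ≤ δ1 := min_le_left _ _
  have hm2 : min δ1 (min δ2 δ3) ≤ δ2 := (min_le_right _ _).trans (min_le_left _ _)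
  have hm3 : min δ1 (min δ2 δ3) ≤ δ3 := (min_le_right _ _).trans (min_le_right _ _)
  obtain ⟨g, hg⟩ : ∃ g : ℝ → Matrix (Ix p κ) (Ix p κ) ℝ, g = fun s => (1 - s) • γ + s • 1 := ⟨_, rfl⟩
  obtain ⟨w, hw⟩ : ∃ w : ℝ → Matrix (Tx p r κ) (Tx p r κ) ℝ, w = fun s => (1 - s) • W := ⟨_, rfl⟩
  have gij : ∀ s i j, g s i j = (1 - s) * γ i j + s * (1 : Matrix (Ix p κ) (Ix p κ) ℝ) i j := by
    intro s i j
    rw [hg]
    rfl
  have wij : ∀ s i j, w s i j = (1 - s) * W i j := by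
    intro s i j
    rw [hw]
    rfl
  have hnear : ∀ s ∈ Set.Icc (0 : ℝ) 1, Near (min δ1 (min δ2 δ3)) (g s) (w s) := by
    intro s hs
    obtain ⟨h1, h2, h3⟩ := hN
    have h1s : 0 ≤ 1 - s := sub_nonneg.2 hs.2
    have h1s' : 1 - s ≤ 1 := by linarith [hs.1]
    refine ⟨fun i j => ?_, fun i j => ?_, ?_⟩
    · have h4 : g s i j - (1 : Matrix (Ix p κ) (Ix p κ) ℝ) i j =
          (1 - s) * (γ i j - (1 : Matrix (Ix p κ) (Ix p κ) ℝ) i j) := by
        rw [gij]
        ring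
      rw [h4, abs_mul, abs_of_nonneg h1s]
      exact lt_of_le_of_lt (mul_le_of_le_one_left (abs_nonneg _) h1s') (h1 i j)
    · rw [wij, abs_mul, abs_of_nonneg h1s]
      exact lt_of_le_of_lt (mul_le_of_le_one_left (abs_nonneg _) h1s') (h2 i j)
    · rw [hw]
      show ((1 - s) • W).transpose = -((1 - s) • W)
      rw [Matrix.transpose_smul, h3, smul_neg]
  have hnq : ∀ z ∈ Sph m, nsq (q z) = 1 := by
    intro z hz
    have hz' : ∑ i, ‖z i‖ ^ 2 = 1 := hz
    rw [hT.q_norm, hz', one_pow]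
  have hpos : ∀ z ∈ Sph m, ∀ s ∈ Set.Icc (0 : ℝ) 1, 0 < nsq (act (g s) (q z)) := by
    intro z hz s hs
    have h0 : 0 ≤ nsq (act (g s) (q z)) := Finset.sum_nonneg fun i _ => sq_nonneg _
    rcases h0.lt_or_eq with h | h
    · exact h
    · exfalso
      have h' : ∑ i, act (g s) (q z) i ^ 2 = 0 := h.symm
      have h2 : act (g s) (q z) = 0 := by
        have h3 := (Finset.sum_eq_zero_iff_of_nonneg (fun i _ => sq_nonneg (act (g s) (q z) i))).1 h'
        funext i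
        exact (pow_eq_zero_iff two_ne_zero).1 (h3 i (Finset.mem_univ i))
      have h4 : q z = 0 := by
        have hu := (hinv (g s) (w s) (near_mono hm1 (hnear s hs))).1
        have h5 : act (g s)⁻¹ (act (g s) (q z)) = q z := by
          rw [act_act, Matrix.nonsing_inv_mul _ hu, act_one]
        rw [← h5, h2]
        funext i
        simp [act]
      have h6 := hnq z hz
      rw [h4] at h6
      simp [nsq] at h6
  obtain ⟨c, hc⟩ : ∃ c : (Fin m → ℂ) → ℝ → ℝ, c = fun z s => (Real.sqrt (nsq (act (g s) (q z))))⁻¹ := ⟨_, rfl⟩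
  have hcd : ∀ z s, c z s = (Real.sqrt (nsq (act (g s) (q z))))⁻¹ := by
    intro z s
    rw [hc]
  have hc2 : ∀ z ∈ Sph m, ∀ s ∈ Set.Icc (0 : ℝ) 1, c z s ^ 2 * nsq (act (g s) (q z)) = 1 := by
    intro z hz s hs
    rw [hcd, inv_pow, Real.sq_sqrt (hpos z hz s hs).le, inv_mul_cancel₀ (hpos z hz s hs).ne']
  have hc0 : ∀ z ∈ Sph m, ∀ s ∈ Set.Icc (0 : ℝ) 1, c z s ≠ 0 := by
    intro z hz s hs
    rw [hcd]
    exact inv_ne_zero (Real.sqrt_ne_zero'.2 (hpos z hz s hs))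
  have hIz : ∀ z ∈ Sph m, (fun a => Complex.I * z a) ∈ Sph m := by
    intro z hz
    show ∑ i, ‖Complex.I * z i‖ ^ 2 = 1
    have hz' : ∑ i, ‖z i‖ ^ 2 = 1 := hz
    rw [← hz']
    refine Finset.sum_congr rfl fun i _ => ?_
    rw [norm_mul, Complex.norm_I, one_mul]
  have hg0 : g 0 = γ := by
    rw [hg]
    show (1 - (0 : ℝ)) • γ + (0 : ℝ) • (1 : Matrix (Ix p κ) (Ix p κ) ℝ) = γ
    rw [sub_zero, one_smul, zero_smul, add_zero]
  have hw0 : w 0 = W := by
    rw [hw]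
    show (1 - (0 : ℝ)) • W = W
    rw [sub_zero, one_smul]
  have hg1 : g 1 = 1 := by
    rw [hg]
    show (1 - (1 : ℝ)) • γ + (1 : ℝ) • (1 : Matrix (Ix p κ) (Ix p κ) ℝ) = 1
    rw [sub_self, zero_smul, zero_add, one_smul]
  have hw1 : w 1 = 0 := by
    rw [hw]
    show (1 - (1 : ℝ)) • W = 0
    rw [sub_self, zero_smul]
  have hneg : ∀ z s, q (fun a => Complex.I * z a) = (-1 : ℝ) • q z ∧
      act (g s) (q (fun a => Complex.I * z a)) = (-1 : ℝ) • act (g s) (q z) ∧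
      tR G ε (g s) (w s) (q (fun a => Complex.I * z a)) = tR G ε (g s) (w s) (q z) ∧
      c (fun a => Complex.I * z a) s = c z s := by
    intro z s
    have h1 : q (fun a => Complex.I * z a) = (-1 : ℝ) • q z := by
      rw [hT.q_I, neg_one_smul]
    have h2 : act (g s) (q (fun a => Complex.I * z a)) = (-1 : ℝ) • act (g s) (q z) := by
      rw [h1, act_smul]
    refine ⟨h1, h2, ?_, ?_⟩
    · rw [h1, tR_smul]
      norm_num
    · rw [hcd, hcd, h2, nsq_smul]
      norm_num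
  refine ⟨fun z => c z 0, fun z hz => hc0 z hz 0 ⟨le_rfl, zero_le_one⟩,
    fun z s => (c z s • act (g s) (q z), c z s ^ 2 • tR G ε (g s) (w s) (q z)), ?_, ?_, ?_, ?_, ?_⟩
  · have hqc : Continuous fun x : (Fin m → ℂ) × ℝ => q x.1 := hT.q_cont.comp continuous_fst
    have hgc : Continuous fun x : (Fin m → ℂ) × ℝ => fun i j => g x.2 i j := by
      refine continuous_pi fun i => continuous_pi fun j => ?_
      simp only [gij]
      fun_prop
    have hwc : Continuous fun x : (Fin m → ℂ) × ℝ => fun i j => w x.2 i j := by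
      refine continuous_pi fun i => continuous_pi fun j => ?_
      simp only [wij]
      fun_prop
    have hYc : Continuous fun x : (Fin m → ℂ) × ℝ => act (g x.2) (q x.1) := by
      refine continuous_pi fun i => ?_
      show Continuous fun x : (Fin m → ℂ) × ℝ => ∑ j, algebraMap ℝ ℝ (g x.2 i j) * q x.1 j
      refine continuous_finsetSum _ fun j _ => Continuous.mul ?_ ((continuous_apply j).comp hqc)
      exact (continuous_apply_apply i j).comp hgc
    have hNc : Continuous fun x : (Fin m → ℂ) × ℝ => nsq (act (g x.2) (q x.1)) := by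
      show Continuous fun x : (Fin m → ℂ) × ℝ => ∑ i, act (g x.2) (q x.1) i ^ 2
      exact continuous_finsetSum _ fun i _ => ((continuous_apply i).comp hYc).pow 2
    have hcc : ContinuousOn (fun x : (Fin m → ℂ) × ℝ => c x.1 x.2) (Sph m ×ˢ Set.Icc 0 1) := by
      simp only [hcd]
      exact (Real.continuous_sqrt.comp hNc).continuousOn.inv₀
        fun x hx => Real.sqrt_ne_zero'.2 (hpos x.1 hx.1 x.2 hx.2)
    have hTc : ContinuousOn (fun x : (Fin m → ℂ) × ℝ => tR G ε (g x.2) (w x.2) (q x.1))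
        (Sph m ×ˢ Set.Icc 0 1) := by
      intro x hx
      apply ContinuousAt.continuousWithinAt
      have hnx := hnear x.2 hx.2
      have hd : (1 + Matrix.of (fun i j => w x.2 i j) : Matrix (Tx p r κ) (Tx p r κ) ℝ).det ≠ 0 :=
        (hinv _ _ (near_mono hm1 hnx)).2.1.ne_zero
      have hr : ∀ a b : Mu p κ, |rho G ε (Matrix.of (fun i j => g x.2 i j)) a b| < 4 * dl p κ ε :=
        hsq (g x.2) (near_mono hm2 hnx).1
      have h3 : ContinuousAt (fun x : (Fin m → ℂ) × ℝ =>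
          (((fun i j => g x.2 i j, fun i j => w x.2 i j) :
            (Ix p κ → Ix p κ → ℝ) × (Tx p r κ → Tx p r κ → ℝ)), q x.1)) x :=
        ((hgc.prodMk hwc).prodMk hqc).continuousAt
      exact tR_cont G ε _ _ _ x hr hd h3
    have hA : ContinuousOn (fun x : (Fin m → ℂ) × ℝ => c x.1 x.2 • act (g x.2) (q x.1)) (Sph m ×ˢ Set.Icc 0 1) :=
      hcc.smul hYc.continuousOn
    have hB : ContinuousOn (fun x : (Fin m → ℂ) × ℝ => c x.1 x.2 ^ 2 • tR G ε (g x.2) (w x.2) (q x.1))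
        (Sph m ×ˢ Set.Icc 0 1) := (hcc.pow 2).smul hTc
    exact hA.prodMk hB
  · intro z hz s hs
    constructor
    · show nsq (c z s • act (g s) (q z)) = 1
      rw [nsq_smul]
      exact hc2 z hz s hs
    · show Ffun G ε (c z s • act (g s) (q z)) (c z s ^ 2 • tR G ε (g s) (w s) (q z)) = 0
      rw [Ffun_smul, hid (g s) (w s) (near_mono hm3 (hnear s hs)) ℝ (q z) (fun l => hT.g_q l z), mul_zero]
  · intro z hz s hs
    obtain ⟨h1, h2, h3, h4⟩ := hneg z s
    apply Prod.ext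
    · show c (fun a => Complex.I * z a) s • act (g s) (q (fun a => Complex.I * z a)) = -(c z s • act (g s) (q z))
      rw [h2, h4, neg_one_smul, smul_neg]
    · show c (fun a => Complex.I * z a) s ^ 2 • tR G ε (g s) (w s) (q (fun a => Complex.I * z a)) =
        c z s ^ 2 • tR G ε (g s) (w s) (q z)
      rw [h3, h4]
  · intro z hz
    show (c z 0 • act (g 0) (q z), c z 0 ^ 2 • tR G ε (g 0) (w 0) (q z)) =
      (c z 0 • act γ (q z), c z 0 ^ 2 • tR G ε γ W (q z))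
    rw [hg0, hw0]
  · intro z hz
    show (c z 1 • act (g 1) (q z), c z 1 ^ 2 • tR G ε (g 1) (w 1) (q z)) = (q z, tR G ε 1 0 (q z))
    have h1 : c z 1 = 1 := by
      rw [hcd, hg1, act_one, hnq z hz, Real.sqrt_one, inv_one]
    rw [h1, hg1, hw1, act_one, one_smul, one_pow, one_smul]

end Pool.Agent.Helper72.BP
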