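import Pool.Agent.Helper72.BP.T.Eq
import Pool.Agent.Helper72.BP.OLem

/-!
PROJECT BP, module BP-T14: lifting the isotopy.

Let x z s := φ (s, emb (S0 G ε (q z))) ∈ Vemb G ε (hM.q_mem, hφV), Y_(ij) z s := x z s (inl (i,j)), so x z s = emb (y, t) with (y,t) ∈ Vt, Y_ij = y_i y_j, ∑ y_i^2 = 1.
v_i z s := ∑_j Y_ij (q z)_j = (y·q) y_i, D z s := ∑_i (q z)_i v_i = (y·q)^2. |Y_ij z s - Y_ij z 0| ≤ ε0 (sup norm, φ(0,·) = id on M), Y_ij z 0 = q_i q_j, ∑ q_i^2 = nsq (q z) = 1 (hT.q_norm) so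
|D - 1| ≤ ε0 (∑ |q_i|)^2 ≤ ε0 card^2 (|q_i| ≤ 1) ≤ 1/2 if ε0 ≤ 1/(2 card^2); so D ≥ 1/2 > 0, (y·q) ≠ 0. H z s := (v / √D, t) where t = x z s ∘ inr. v/√D = ± y, so H z s ∈ Vt (Ffun is even in y: qf, nsq quadratic) and emb (H z s) = x z s
(v_i v_j / D = y_i y_j). At s = 0: v_i = q_i (∑ q_j^2) = q_i, D = 1: H z 0 = S0 G ε (q z) (its t-part is tR G ε 1 0 (q z)). Equivariance: q (i z) = - q z, tR (-y) = tR y (tR_smul, c = -1) so emb (S0 (q (i z))) = emb (S0 (q z)), x (iz) s = x z s, v changes sign, D does not.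
Continuity: φ, q, tR .. 1 0 (a polynomial in y), √ are continuous, D > 0 on Sph × [0,1].
B1 z := H z 1.
-/

set_option autoImplicit false
set_option synthInstance.maxSize 2000

namespace Pool.Agent.Helper72.BP

open MvPolynomial

private theorem pb_emb_neg {p r : ℕ} {κ : Type} [Fintype κ] [DecidableEq κ]
    (G : Fin r → Matrix (Ix p κ) (Ix p κ) ℝ) (ε : ℝ) (y : Ix p κ → ℝ) :
    (emb (S0 G ε (-y)) : Amb (Ix p κ) (Tx p r κ) → ℝ) = emb (S0 G ε y) := by
  have h1 : -y = (-1 : ℝ) • y := by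
    rw [neg_one_smul]
  rw [h1]
  funext i
  rcases i with a | s
  · simp [emb, S0]
  · simp only [emb, S0, Sum.elim_inr]
    rw [tR_smul]
    simp

private theorem pb_cont {p r : ℕ} {κ : Type} [Fintype κ] [DecidableEq κ]
    (G : Fin r → Matrix (Ix p κ) (Ix p κ) ℝ) (ε : ℝ) :
    Continuous (fun y : Ix p κ → ℝ => (emb (S0 G ε y) : Amb (Ix p κ) (Tx p r κ) → ℝ)) := by
  have hm : ∀ a : Mu p κ, Continuous (fun y : Ix p κ → ℝ => mon y a) := fun a =>
    (continuous_apply a.1).mul (continuous_apply a.2)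
  have hn : ∀ j : Qx p κ, Continuous (fun y : Ix p κ → ℝ => nj y j) := by
    intro j
    rcases j with a | ab | ab
    · exact hm a
    · exact (hm ab.1).add (hm ab.2)
    · exact (hm ab.1).sub (hm ab.2)
  have hu : ∀ s : Tx p r κ, Continuous (fun y : Ix p κ → ℝ => uR G ε 1 y s) := by
    intro s
    rcases s with j | s
    · exact continuous_const.mul (hn j)
    · exact continuous_const
  refine continuous_pi fun i => ?_
  rcases i with a | s
  · exact (continuous_apply a.1).mul (continuous_apply a.2)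
  · refine continuous_finsetSum _ fun x _ => ?_
    exact continuous_const.mul (hu x)

private theorem pb_point {ι τ : Type} [Fintype ι] [Fintype τ] {r : ℕ} (G : Fin r → Matrix ι ι ℝ) (ε : ℝ)
    (hN : (0 : ℝ) < Fintype.card ι) (x : Amb ι τ → ℝ) (hx : x ∈ Vemb G ε) (q : ι → ℝ) (hq : nsq q = 1)
    (hxq : ∀ i j, |x (Sum.inl (i, j)) - q i * q j| ≤ 1 / (2 * (Fintype.card ι : ℝ) ^ 2)) :
    0 < ∑ i, q i * ∑ j, x (Sum.inl (i, j)) * q j ∧
      ((fun i => (∑ j, x (Sum.inl (i, j)) * q j) / √(∑ i, q i * ∑ j, x (Sum.inl (i, j)) * q j),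
        fun t => x (Sum.inr t)) : (ι → ℝ) × (τ → ℝ)) ∈ Vt G ε ∧
      emb ((fun i => (∑ j, x (Sum.inl (i, j)) * q j) / √(∑ i, q i * ∑ j, x (Sum.inl (i, j)) * q j),
        fun t => x (Sum.inr t)) : (ι → ℝ) × (τ → ℝ)) = x := by
  obtain ⟨⟨y, t⟩, ⟨hy1, hF⟩, hyx⟩ := hx
  simp only at hy1 hF
  set D : ℝ := ∑ i, q i * ∑ j, x (Sum.inl (i, j)) * q j with hD
  set c : ℝ := ∑ j, y j * q j with hc
  have hxl : ∀ i j, x (Sum.inl (i, j)) = y i * y j := by
    intro i j
    rw [← hyx]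
    rfl
  have hxr : (fun u => x (Sum.inr u)) = t := by
    funext u
    rw [← hyx]
    rfl
  have hv : ∀ i, ∑ j, x (Sum.inl (i, j)) * q j = y i * c := by
    intro i
    rw [hc, Finset.mul_sum]
    refine Finset.sum_congr rfl fun j _ => ?_
    rw [hxl]
    ring
  have hDc : D = c ^ 2 := by
    rw [hD, pow_two]
    nth_rewrite 2 [hc]
    rw [Finset.sum_mul]
    refine Finset.sum_congr rfl fun i _ => ?_
    rw [hv]
    ring
  have hq1 : ∀ i, |q i| ≤ 1 := by
    intro i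
    have h1 : q i ^ 2 ≤ 1 := by
      rw [← hq]
      exact Finset.single_le_sum (f := fun i => q i ^ 2) (fun j _ => sq_nonneg (q j)) (Finset.mem_univ i)
    exact (sq_le_one_iff_abs_le_one _).1 h1
  have hone : ∑ i, q i * ∑ j, q i * q j * q j = 1 := by
    have h1 : ∀ i, q i * ∑ j, q i * q j * q j = q i ^ 2 * nsq q := by
      intro i
      rw [nsq, Finset.mul_sum, Finset.mul_sum]
      refine Finset.sum_congr rfl fun j _ => ?_
      ring
    rw [Finset.sum_congr rfl fun i _ => h1 i, ← Finset.sum_mul, hq, mul_one]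
    exact hq
  have hdiff : |D - 1| ≤ 1 / 2 := by
    have h1 : D - 1 = ∑ i, ∑ j, q i * (x (Sum.inl (i, j)) - q i * q j) * q j := by
      rw [← hone, hD, ← Finset.sum_sub_distrib]
      refine Finset.sum_congr rfl fun i _ => ?_
      rw [← mul_sub, ← Finset.sum_sub_distrib, Finset.mul_sum]
      refine Finset.sum_congr rfl fun j _ => ?_
      ring
    rw [h1]
    calc |∑ i, ∑ j, q i * (x (Sum.inl (i, j)) - q i * q j) * q j|
        ≤ ∑ i, ∑ j, |q i * (x (Sum.inl (i, j)) - q i * q j) * q j| :=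
          (Finset.abs_sum_le_sum_abs _ _).trans (Finset.sum_le_sum fun i _ => Finset.abs_sum_le_sum_abs _ _)
      _ ≤ ∑ _i : ι, ∑ _j : ι, 1 / (2 * (Fintype.card ι : ℝ) ^ 2) := by
          refine Finset.sum_le_sum fun i _ => Finset.sum_le_sum fun j _ => ?_
          rw [abs_mul, abs_mul]
          have ha := hq1 i
          have hb := hq1 j
          have hc := hxq i j
          have h0 : 0 ≤ |x (Sum.inl (i, j)) - q i * q j| := abs_nonneg _
          have e1 : |q i| * |x (Sum.inl (i, j)) - q i * q j| ≤ 1 * |x (Sum.inl (i, j)) - q i * q j| :=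
            mul_le_mul_of_nonneg_right ha h0
          have e2 : |q i| * |x (Sum.inl (i, j)) - q i * q j| * |q j| ≤
              |q i| * |x (Sum.inl (i, j)) - q i * q j| * 1 :=
            mul_le_mul_of_nonneg_left hb (mul_nonneg (abs_nonneg _) h0)
          linarith
      _ = 1 / 2 := by
          simp only [Finset.sum_const, Finset.card_univ, nsmul_eq_mul]
          field_simp
  have hDpos : 0 < D := by
    have := (abs_le.1 hdiff).1
    linarith
  have hc0 : c ≠ 0 := by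
    intro h0
    rw [hDc, h0] at hDpos
    simp at hDpos
  have hsq : √D = |c| := by
    rw [hDc, Real.sqrt_sq_eq_abs]
  set σ : ℝ := c / |c| with hσ
  have hσ2 : σ ^ 2 = 1 := by
    rw [hσ, div_pow, sq_abs, div_self (pow_ne_zero 2 hc0)]
  have hH : (fun i => (∑ j, x (Sum.inl (i, j)) * q j) / √D) = σ • y := by
    funext i
    rw [hv, hsq, Pi.smul_apply, smul_eq_mul, hσ]
    ring
  rw [hH, hxr]
  refine ⟨hDpos, ⟨?_, ?_⟩, ?_⟩
  · show nsq (σ • y) = 1
    rw [nsq_smul, hσ2, one_mul, hy1]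
  · show Ffun G ε (σ • y) t = 0
    rw [← hF]
    unfold Ffun
    simp only [nsq_smul, qf_smul, hσ2, one_mul]
  · rw [← hyx]
    funext i
    rcases i with a | u
    · show (σ • y) a.1 * (σ • y) a.2 = y a.1 * y a.2
      simp only [Pi.smul_apply, smul_eq_mul]
      calc σ * y a.1 * (σ * y a.2) = σ ^ 2 * (y a.1 * y a.2) := by ring
        _ = y a.1 * y a.2 := by rw [hσ2, one_mul]
    · rfl

theorem pathB {p m r : ℕ} (hp : 0 < p) {κ : Type} [Fintype κ] [DecidableEq κ]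
    (G : Fin r → Matrix (Ix p κ) (Ix p κ) ℝ) (q : (Fin m → ℂ) → Ix p κ → ℝ) (ε : ℝ) (hT : IsTube G q ε)
    (a : Fin p → κ → ℝ) (M : Set (Amb (Ix p κ) (Tx p r κ) → ℝ)) (hM : IsM hp G q ε a M) :
    ∃ ε0 > 0, ∀ φ : ℝ × (Amb (Ix p κ) (Tx p r κ) → ℝ) → (Amb (Ix p κ) (Tx p r κ) → ℝ), Continuous φ →
      (∀ t ∈ Set.Icc (0 : ℝ) 1, ∀ x, ‖φ (t, x) - x‖ ≤ ε0) →
      (∀ t ∈ Set.Icc (0 : ℝ) 1, ∀ x ∈ M, φ (t, x) ∈ Vemb G ε) → (∀ x ∈ M, φ (0, x) = x) →
      ∃ B1 : (Fin m → ℂ) → (Ix p κ → ℝ) × (Tx p r κ → ℝ), EqPath G ε (fun z => S0 G ε (q z)) B1 ∧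
        ∀ z ∈ Sph m, emb (B1 z) = φ (1, emb (S0 G ε (q z))) := by
  have hN : (0 : ℝ) < Fintype.card (Ix p κ) := by
    have : Nonempty (Ix p κ) := ⟨Sum.inl 0⟩
    exact_mod_cast Fintype.card_pos
  refine ⟨1 / (2 * (Fintype.card (Ix p κ) : ℝ) ^ 2), by positivity, ?_⟩
  intro φ hφc hφ1 hφV hφ0
  let x : (Fin m → ℂ) → ℝ → (Amb (Ix p κ) (Tx p r κ) → ℝ) := fun z s => φ (s, emb (S0 G ε (q z)))
  let D : (Fin m → ℂ) → ℝ → ℝ := fun z s => ∑ i, q z i * ∑ j, x z s (Sum.inl (i, j)) * q z j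
  let H : (Fin m → ℂ) → ℝ → (Ix p κ → ℝ) × (Tx p r κ → ℝ) := fun z s =>
    (fun i => (∑ j, x z s (Sum.inl (i, j)) * q z j) / √(D z s), fun t => x z s (Sum.inr t))
  have hq : ∀ z ∈ Sph m, nsq (q z) = 1 := by
    intro z hz
    rw [hT.q_norm, (hz : ∑ i, ‖z i‖ ^ 2 = 1), one_pow]
  have hpt : ∀ z ∈ Sph m, ∀ s ∈ Set.Icc (0 : ℝ) 1, 0 < D z s ∧ H z s ∈ Vt G ε ∧ emb (H z s) = x z s := by
    intro z hz s hs
    refine pb_point G ε hN (x z s) (hφV s hs _ (hM.q_mem z hz)) (q z) (hq z hz) ?_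
    intro i j
    have h1 := hφ1 s hs (emb (S0 G ε (q z)))
    have h2 := norm_le_pi_norm (φ (s, emb (S0 G ε (q z))) - emb (S0 G ε (q z))) (Sum.inl (i, j))
    exact (h2.trans h1 :)
  have hxc : Continuous (fun w : (Fin m → ℂ) × ℝ => x w.1 w.2) :=
    hφc.comp (continuous_snd.prodMk (((pb_cont G ε).comp hT.q_cont).comp continuous_fst))
  have hqc : ∀ i, Continuous (fun w : (Fin m → ℂ) × ℝ => q w.1 i) := fun i =>
    (continuous_apply i).comp (hT.q_cont.comp continuous_fst)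
  have hvc : ∀ i, Continuous (fun w : (Fin m → ℂ) × ℝ => ∑ j, x w.1 w.2 (Sum.inl (i, j)) * q w.1 j) := fun i =>
    continuous_finsetSum _ fun j _ => ((continuous_apply (Sum.inl (i, j))).comp hxc).mul (hqc j)
  have hDc : Continuous (fun w : (Fin m → ℂ) × ℝ => D w.1 w.2) :=
    continuous_finsetSum _ fun i _ => (hqc i).mul (hvc i)
  have hHc : ContinuousOn (fun w : (Fin m → ℂ) × ℝ => H w.1 w.2) (Sph m ×ˢ Set.Icc 0 1) := by
    refine ContinuousOn.prodMk ?_ ?_
    · refine continuousOn_pi.2 fun i => ?_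
      refine (hvc i).continuousOn.div (Real.continuous_sqrt.comp hDc).continuousOn ?_
      rintro ⟨z, s⟩ ⟨hz, hs⟩
      exact (Real.sqrt_pos.2 (hpt z hz s hs).1).ne'
    · exact (continuous_pi fun t => (continuous_apply (Sum.inr t)).comp hxc).continuousOn
  have hxI : ∀ z s, x (fun a => Complex.I * z a) s = x z s := by
    intro z s
    show φ (s, emb (S0 G ε (q (fun a => Complex.I * z a)))) = φ (s, emb (S0 G ε (q z)))
    rw [hT.q_I, pb_emb_neg]
  refine ⟨fun z => H z 1, ⟨H, hHc, fun z hz s hs => (hpt z hz s hs).2.1, ?_, ?_, fun z _ => rfl⟩,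
    fun z hz => (hpt z hz 1 ⟨zero_le_one, le_refl _⟩).2.2⟩
  · intro z hz s hs
    have hD : D (fun a => Complex.I * z a) s = D z s := by
      show (∑ i, q (fun a => Complex.I * z a) i * ∑ j, x (fun a => Complex.I * z a) s (Sum.inl (i, j)) *
        q (fun a => Complex.I * z a) j) = D z s
      rw [hxI, hT.q_I]
      refine Finset.sum_congr rfl fun i _ => ?_
      simp only [Pi.neg_apply, mul_neg, Finset.sum_neg_distrib, neg_mul, neg_neg]
    refine Prod.ext ?_ ?_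
    · funext i
      show (∑ j, x (fun a => Complex.I * z a) s (Sum.inl (i, j)) * q (fun a => Complex.I * z a) j) /
        √(D (fun a => Complex.I * z a) s) = -((∑ j, x z s (Sum.inl (i, j)) * q z j) / √(D z s))
      rw [hD, hxI, hT.q_I]
      simp only [Pi.neg_apply, mul_neg, Finset.sum_neg_distrib, neg_div]
    · funext t
      show x (fun a => Complex.I * z a) s (Sum.inr t) = x z s (Sum.inr t)
      rw [hxI]
  · intro z hz
    have h0 : x z 0 = emb (S0 G ε (q z)) := hφ0 _ (hM.q_mem z hz)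
    have hv : ∀ i, ∑ j, x z 0 (Sum.inl (i, j)) * q z j = q z i := by
      intro i
      have h1 : ∀ j, x z 0 (Sum.inl (i, j)) * q z j = q z i * q z j ^ 2 := by
        intro j
        rw [h0]
        show q z i * q z j * q z j = q z i * q z j ^ 2
        ring
      rw [Finset.sum_congr rfl fun j _ => h1 j, ← Finset.mul_sum]
      have h2 : ∑ j, q z j ^ 2 = 1 := hq z hz
      rw [h2, mul_one]
    have hD : D z 0 = 1 := by
      show (∑ i, q z i * ∑ j, x z 0 (Sum.inl (i, j)) * q z j) = 1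
      have h1 : ∀ i, q z i * ∑ j, x z 0 (Sum.inl (i, j)) * q z j = q z i ^ 2 := by
        intro i
        rw [hv]
        ring
      rw [Finset.sum_congr rfl fun i _ => h1 i]
      exact hq z hz
    refine Prod.ext ?_ ?_
    · funext i
      show (∑ j, x z 0 (Sum.inl (i, j)) * q z j) / √(D z 0) = q z i
      rw [hv, hD, Real.sqrt_one, div_one]
    · funext t
      show x z 0 (Sum.inr t) = tR G ε 1 0 (q z) t
      rw [h0]
      rfl

end Pool.Agent.Helper72.BP
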