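import Pool.Agent.Helper72.BP.T.Eq
import Pool.Agent.Helper72.BP.OLem

/-!
PROJECT BP, module BP-T15: pushing the coordinate `b` of `t` and rescaling the others.

nsq_pushT: split off s = b (Finset.sum_erase / `Finset.add_sum_erase`): (t b + u)^2 + (1 - (2 t_b u + u^2)/N) N with N = nsq t - t_b^2 = ∑_(s≠b) t_s^2; Real.sq_sqrt needs 2 t_b u + u^2 ≤ N.
pushT_zero: √1 = 1. pushT_cont: componentwise, Real.continuous_sqrt, division by N ≠ 0.
pushT_est: a := (2 t_b u + u^2)/N, |a| ≤ 3u/N ≤ 1; |√(1-a) - 1| = |a|/(√(1-a)+1) ≤ |a|; |t s| ≤ √N for s ≠ b; so |pushT t s - t s| ≤ (3u/N) √N = 3u/√N ≤ 3u/√(ε/2). For s = b it is u.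
pathC: H z s := ((B1 z).1, pushT b (s δ1) (B1 z).2); Ffun depends on t only through nsq t (unfold Ffun), nsq_pushT; continuity by pushT_cont; equivariance: the t-part of B1 is unchanged under z ↦ i z.
base_est: t0 := (S0 G ε (q z)).2 = tR G ε 1 0 (q z) has nsq t0 = ε (tube identity at the base point: Ffun G ε (q z) t0 = 0, qf (G l) (q z) = 0, nsq (q z) = 1; tube_identR with γ = 1, W = 0, act_one) and t0 (inr (inr ⟨0,hp⟩)) = 0
(cay 0 = 1, act_one, uR (inr _) = 0), |t0 s| ≤ √ε. For |t1 s - t0 s| ≤ ε0: t1_s^2 ≥ t0_s^2 - 2 ε0 √ε, so nsq t1 - t1_b^2 = ∑_(s≠b) t1_s^2 ≥ ε - 2 ε0 √ε card ≥ ε/2 for ε0 small, |t1_b| ≤ ε0 ≤ 1.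
-/

set_option autoImplicit false
set_option synthInstance.maxSize 2000

namespace Pool.Agent.Helper72.BP

/-- Push the coordinate `b` by `u`, rescale the other coordinates. -/
noncomputable def pushT {τ : Type} [Fintype τ] [DecidableEq τ] (b : τ) (u : ℝ) (t : τ → ℝ) : τ → ℝ :=
  fun s => if s = b then t b + u else Real.sqrt (1 - (2 * t b * u + u ^ 2) / (nsq t - t b ^ 2)) * t s

private theorem pm_split {τ : Type} [Fintype τ] [DecidableEq τ] (b : τ) (t : τ → ℝ) :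
    nsq t = t b ^ 2 + ∑ s ∈ Finset.univ.erase b, t s ^ 2 := by
  rw [nsq, ← Finset.add_sum_erase Finset.univ (fun s => t s ^ 2) (Finset.mem_univ b)]

private theorem pm_le {τ : Type} [Fintype τ] [DecidableEq τ] {b s : τ} (hs : s ≠ b) (t : τ → ℝ) :
    t s ^ 2 ≤ nsq t - t b ^ 2 := by
  have h1 : t s ^ 2 ≤ ∑ s ∈ Finset.univ.erase b, t s ^ 2 :=
    Finset.single_le_sum (f := fun s => t s ^ 2) (fun _ _ => sq_nonneg _)
      (Finset.mem_erase.2 ⟨hs, Finset.mem_univ s⟩)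
  rw [pm_split b t]
  linarith

theorem nsq_pushT {τ : Type} [Fintype τ] [DecidableEq τ] (b : τ) (u : ℝ) (t : τ → ℝ) (h : 0 < nsq t - t b ^ 2)
    (hu : 2 * t b * u + u ^ 2 ≤ nsq t - t b ^ 2) : nsq (pushT b u t) = nsq t := by
  set N := nsq t - t b ^ 2 with hN
  have hsum : ∑ s ∈ Finset.univ.erase b, t s ^ 2 = N := by
    rw [hN, pm_split b t]
    ring
  have ha : 0 ≤ 1 - (2 * t b * u + u ^ 2) / N := by
    have : (2 * t b * u + u ^ 2) / N ≤ 1 := by
      rw [div_le_one h]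
      exact hu
    linarith
  rw [pm_split b (pushT b u t)]
  have h1 : ∑ s ∈ Finset.univ.erase b, pushT b u t s ^ 2 =
      (1 - (2 * t b * u + u ^ 2) / N) * N := by
    rw [← hsum, Finset.mul_sum, hsum]
    refine Finset.sum_congr rfl fun s hs => ?_
    have hsb : s ≠ b := (Finset.mem_erase.1 hs).1
    simp only [pushT, if_neg hsb]
    rw [← hN, mul_pow, Real.sq_sqrt ha]
  have h2 : pushT b u t b = t b + u := by simp [pushT]
  have h3 : (1 - (2 * t b * u + u ^ 2) / N) * N = N - (2 * t b * u + u ^ 2) := by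
    field_simp
  rw [h1, h2, h3, hN]
  ring

theorem pushT_zero {τ : Type} [Fintype τ] [DecidableEq τ] (b : τ) (t : τ → ℝ) : pushT b 0 t = t := by
  funext s
  by_cases hs : s = b
  · subst hs
    simp [pushT]
  · simp [pushT, hs]

theorem pushT_cont {τ : Type} [Fintype τ] [DecidableEq τ] (b : τ) :
    ContinuousOn (fun z : ℝ × (τ → ℝ) => pushT b z.1 z.2) {z | 0 < nsq z.2 - z.2 b ^ 2} := by
  rw [continuousOn_pi]
  intro s
  by_cases hs : s = b
  · simp only [pushT, if_pos hs]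
    fun_prop
  · simp only [pushT, if_neg hs]
    have hn : Continuous (fun z : ℝ × (τ → ℝ) => nsq z.2 - z.2 b ^ 2) := by
      unfold nsq
      fun_prop
    refine ContinuousOn.mul ?_ (by fun_prop)
    refine Real.continuous_sqrt.comp_continuousOn (continuousOn_const.sub ?_)
    refine ContinuousOn.div (by fun_prop) hn.continuousOn ?_
    intro z hz
    exact ne_of_gt hz

theorem pushT_est {τ : Type} [Fintype τ] [DecidableEq τ] (b : τ) (ε u : ℝ) (hε : 0 < ε) (t : τ → ℝ)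
    (h : ε / 2 ≤ nsq t - t b ^ 2) (hb : |t b| ≤ 1) (hu0 : 0 ≤ u) (hu1 : u ≤ 1) (hu : 3 * u ≤ ε / 2) (s : τ) :
    |pushT b u t s - t s| ≤ max 1 (3 / Real.sqrt (ε / 2)) * u := by
  by_cases hs : s = b
  · have e : pushT b u t s - t s = u := by
      rw [hs]
      simp [pushT]
    rw [e, abs_of_nonneg hu0]
    calc u = 1 * u := (one_mul u).symm
      _ ≤ max 1 (3 / Real.sqrt (ε / 2)) * u := mul_le_mul_of_nonneg_right (le_max_left _ _) hu0
  · set N := nsq t - t b ^ 2 with hN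
    have hN0 : 0 < N := lt_of_lt_of_le (by positivity) h
    set a := (2 * t b * u + u ^ 2) / N with ha
    have h1 : |2 * t b * u + u ^ 2| ≤ 3 * u := by
      rw [abs_le] at hb ⊢
      constructor <;> nlinarith
    have h2 : |a| ≤ 3 * u / N := by
      rw [ha, abs_div, abs_of_pos hN0]
      gcongr
    have h3 : 3 * u / N ≤ 1 := by
      rw [div_le_one hN0]
      linarith
    have h4 : a ≤ 1 := (le_abs_self a).trans (h2.trans h3)
    set r := Real.sqrt (1 - a) with hr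
    have hr0 : 0 ≤ r := Real.sqrt_nonneg _
    have hr2 : r ^ 2 = 1 - a := Real.sq_sqrt (by linarith)
    have h5 : |r - 1| ≤ |a| := by
      have h6 : |r - 1| * (r + 1) = |a| := by
        rw [← abs_of_nonneg (by linarith : (0 : ℝ) ≤ r + 1), ← abs_mul]
        have : (r - 1) * (r + 1) = -a := by
          have : (r - 1) * (r + 1) = r ^ 2 - 1 := by ring
          rw [this, hr2]
          ring
        rw [this, abs_neg]
      have h7 := abs_nonneg (r - 1)
      nlinarith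
    have h8 : |t s| ≤ Real.sqrt N := Real.abs_le_sqrt (pm_le hs t)
    have e : pushT b u t s - t s = (r - 1) * t s := by
      simp only [pushT, if_neg hs]
      rw [← hN, ← ha, ← hr]
      ring
    have hsq : 0 < Real.sqrt (ε / 2) := Real.sqrt_pos.2 (by positivity)
    have hsqN : 0 < Real.sqrt N := Real.sqrt_pos.2 hN0
    have h9 : Real.sqrt (ε / 2) ≤ Real.sqrt N := Real.sqrt_le_sqrt h
    rw [e, abs_mul]
    calc |r - 1| * |t s| ≤ (3 * u / N) * Real.sqrt N :=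
          mul_le_mul (h5.trans h2) h8 (abs_nonneg _) (by positivity)
      _ = 3 / Real.sqrt N * u := by
          have h10 : N = Real.sqrt N * Real.sqrt N := (Real.mul_self_sqrt hN0.le).symm
          rw [div_mul_eq_mul_div, div_mul_eq_mul_div, div_eq_div_iff hN0.ne' hsqN.ne']
          calc 3 * u * Real.sqrt N * Real.sqrt N = 3 * u * (Real.sqrt N * Real.sqrt N) := by ring
            _ = 3 * u * N := by rw [← h10]
      _ ≤ 3 / Real.sqrt (ε / 2) * u := by gcongr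
      _ ≤ max 1 (3 / Real.sqrt (ε / 2)) * u := mul_le_mul_of_nonneg_right (le_max_right _ _) hu0

theorem pathC {m r : ℕ} {ι τ : Type} [Fintype ι] [Fintype τ] [DecidableEq τ] (G : Fin r → Matrix ι ι ℝ) (ε : ℝ)
    (hε : 0 < ε) (b : τ) (B1 : (Fin m → ℂ) → (ι → ℝ) × (τ → ℝ)) (hc : ContinuousOn B1 (Sph m))
    (hV : ∀ z ∈ Sph m, B1 z ∈ Vt G ε)
    (hI : ∀ z ∈ Sph m, B1 (fun a => Complex.I * z a) = (-(B1 z).1, (B1 z).2))
    (hN : ∀ z ∈ Sph m, ε / 2 ≤ nsq (B1 z).2 - (B1 z).2 b ^ 2) (hb : ∀ z ∈ Sph m, |(B1 z).2 b| ≤ 1)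
    (u : ℝ) (hu0 : 0 ≤ u) (hu1 : u ≤ 1) (hu : 3 * u ≤ ε / 2) :
    EqPath G ε B1 (fun z => ((B1 z).1, pushT b u (B1 z).2)) := by
  have hpos : ∀ z ∈ Sph m, 0 < nsq (B1 z).2 - (B1 z).2 b ^ 2 := fun z hz =>
    lt_of_lt_of_le (by positivity) (hN z hz)
  have hle : ∀ z ∈ Sph m, ∀ s ∈ Set.Icc (0 : ℝ) 1,
      2 * (B1 z).2 b * (s * u) + (s * u) ^ 2 ≤ nsq (B1 z).2 - (B1 z).2 b ^ 2 := by
    intro z hz s hs
    have h1 := hN z hz
    have h2 := (abs_le.1 (hb z hz)).2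
    have h3 : 0 ≤ s * u := mul_nonneg hs.1 hu0
    have h4 : s * u ≤ u := by
      have := mul_le_mul_of_nonneg_right hs.2 hu0
      linarith
    nlinarith
  refine ⟨fun z s => ((B1 z).1, pushT b (s * u) (B1 z).2), ?_, ?_, ?_, ?_, ?_⟩
  · have h1 : ContinuousOn (fun x : (Fin m → ℂ) × ℝ => B1 x.1) (Sph m ×ˢ Set.Icc 0 1) :=
      hc.comp continuousOn_fst fun x hx => hx.1
    have h2 : ContinuousOn (fun x : (Fin m → ℂ) × ℝ => ((x.2 * u, (B1 x.1).2) : ℝ × (τ → ℝ)))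
        (Sph m ×ˢ Set.Icc 0 1) :=
      (continuousOn_snd.mul continuousOn_const).prodMk (continuous_snd.comp_continuousOn h1)
    exact (continuous_fst.comp_continuousOn h1).prodMk
      ((pushT_cont b).comp h2 fun x hx => hpos _ hx.1)
  · intro z hz s hs
    obtain ⟨h1, h2⟩ := hV z hz
    refine ⟨h1, ?_⟩
    unfold Ffun at h2 ⊢
    dsimp only
    rw [nsq_pushT b (s * u) (B1 z).2 (hpos z hz) (hle z hz s hs)]
    exact h2
  · intro z hz s hs
    dsimp only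
    rw [hI z hz]
  · intro z hz
    dsimp only
    rw [zero_mul, pushT_zero]
  · intro z hz
    dsimp only
    rw [one_mul]

theorem base_est {p m r : ℕ} (hp : 0 < p) {κ : Type} [Fintype κ] [DecidableEq κ]
    (G : Fin r → Matrix (Ix p κ) (Ix p κ) ℝ) (q : (Fin m → ℂ) → Ix p κ → ℝ) (ε : ℝ) (hT : IsTube G q ε) :
    ∃ ε0 > 0, ∀ z ∈ Sph m, ∀ t : Tx p r κ → ℝ, (∀ s, |t s - (S0 G ε (q z)).2 s| ≤ ε0) →
      ε / 2 ≤ nsq t - t (Sum.inr (Sum.inr ⟨0, hp⟩)) ^ 2 ∧ |t (Sum.inr (Sum.inr ⟨0, hp⟩))| ≤ 1 := by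
  obtain ⟨δ, hδ, hid⟩ := tube_identR G q ε hT
  have hε := hT.pos
  have hcard : (0 : ℝ) ≤ (Fintype.card (Tx p r κ) : ℝ) := by positivity
  obtain ⟨ε0, hε0, h1, h2⟩ : ∃ ε0 > 0, ε0 ≤ 1 ∧
      2 * ε0 * Real.sqrt ε * (Fintype.card (Tx p r κ) : ℝ) ≤ ε / 2 := by
    have hsq := Real.sqrt_nonneg ε
    refine ⟨min 1 (ε / (4 * (Real.sqrt ε + 1) * ((Fintype.card (Tx p r κ) : ℝ) + 1))), by positivity,
      min_le_left _ _, ?_⟩
    calc _ ≤ 2 * (ε / (4 * (Real.sqrt ε + 1) * ((Fintype.card (Tx p r κ) : ℝ) + 1))) *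
          (Real.sqrt ε + 1) * ((Fintype.card (Tx p r κ) : ℝ) + 1) := by
          gcongr
          · exact min_le_right _ _
          · linarith
          · linarith
      _ = ε / 2 := by
          field_simp
          norm_num
  refine ⟨ε0, hε0, fun z hz t ht => ?_⟩
  set t0 := (S0 G ε (q z)).2 with ht0
  have hcay : cay (0 : Matrix (Tx p r κ) (Tx p r κ) ℝ) = 1 := by
    simp [cay]
  have hb0 : t0 (Sum.inr (Sum.inr ⟨0, hp⟩)) = 0 := by
    rw [ht0]
    simp only [S0, tR]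
    rw [hcay, act_one]
    rfl
  have hz' : ∑ i, ‖z i‖ ^ 2 = 1 := hz
  have hnq : nsq (q z) = 1 := by
    rw [hT.q_norm, hz', one_pow]
  have hnt : nsq t0 = ε := by
    have hN : Near δ (1 : Matrix (Ix p κ) (Ix p κ) ℝ) (0 : Matrix (Tx p r κ) (Tx p r κ) ℝ) := by
      refine ⟨fun i j => by simpa using hδ, fun i j => by simpa using hδ, by simp⟩
    have h3 := hid 1 0 hN ℝ (q z) (fun l => hT.g_q l z)
    rw [act_one] at h3
    unfold Ffun at h3
    have h4 : ∑ l, qf (G l) (q z) ^ 2 = 0 :=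
      Finset.sum_eq_zero fun l _ => by rw [hT.g_q l z]; ring
    rw [h4, hnq] at h3
    simp only [Algebra.algebraMap_self, RingHom.id_apply] at h3
    have h5 : nsq t0 = nsq (tR G ε 1 0 (q z)) := rfl
    rw [h5]
    linarith
  have hbound : ∀ s, |t0 s| ≤ Real.sqrt ε := by
    intro s
    refine Real.abs_le_sqrt ?_
    rw [← hnt]
    exact Finset.single_le_sum (f := fun s => t0 s ^ 2) (fun _ _ => sq_nonneg _) (Finset.mem_univ s)
  constructor
  · rw [pm_split (Sum.inr (Sum.inr ⟨0, hp⟩)) t]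
    have h3 : ∀ s, t0 s ^ 2 - 2 * ε0 * Real.sqrt ε ≤ t s ^ 2 := by
      intro s
      have h4 := ht s
      have h5 := hbound s
      have h6 : |(t s - t0 s) * t0 s| ≤ ε0 * Real.sqrt ε := by
        rw [abs_mul]
        exact mul_le_mul h4 h5 (abs_nonneg _) hε0.le
      have h7 := (abs_le.1 h6).1
      nlinarith [sq_nonneg (t s - t0 s)]
    have h4 : ∑ s ∈ Finset.univ.erase (Sum.inr (Sum.inr ⟨0, hp⟩) : Tx p r κ), t0 s ^ 2 = ε := by
      have h5 := pm_split (Sum.inr (Sum.inr ⟨0, hp⟩) : Tx p r κ) t0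
      rw [hb0, hnt] at h5
      linarith
    have h5 : ∑ s ∈ Finset.univ.erase (Sum.inr (Sum.inr ⟨0, hp⟩) : Tx p r κ),
        (t0 s ^ 2 - 2 * ε0 * Real.sqrt ε) ≤
        ∑ s ∈ Finset.univ.erase (Sum.inr (Sum.inr ⟨0, hp⟩) : Tx p r κ), t s ^ 2 :=
      Finset.sum_le_sum fun s _ => h3 s
    rw [Finset.sum_sub_distrib, h4, Finset.sum_const, nsmul_eq_mul] at h5
    have h6 : ((Finset.univ.erase (Sum.inr (Sum.inr ⟨0, hp⟩) : Tx p r κ)).card : ℝ) ≤
        (Fintype.card (Tx p r κ) : ℝ) := by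
      exact_mod_cast Finset.card_le_univ _
    have h7 : ((Finset.univ.erase (Sum.inr (Sum.inr ⟨0, hp⟩) : Tx p r κ)).card : ℝ) *
        (2 * ε0 * Real.sqrt ε) ≤ (Fintype.card (Tx p r κ) : ℝ) * (2 * ε0 * Real.sqrt ε) := by
      have := Real.sqrt_nonneg ε
      gcongr
    linarith
  · have h3 := ht (Sum.inr (Sum.inr ⟨0, hp⟩))
    rw [hb0, sub_zero] at h3
    exact h3.trans h1

end Pool.Agent.Helper72.BP
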