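import Pool.Agent.Helper72.BP.IfT4
import Pool.Agent.Helper72.BP.T.PathA
import Pool.Agent.Helper72.BP.T.PathB
import Pool.Agent.Helper72.BP.T.PushMap
import Pool.Agent.Helper72.BP.T.Off

/-!
PROJECT BP, module BP-T17: assembly of `tPush` (helper72).
-/

set_option autoImplicit false
set_option synthInstance.maxSize 2000

namespace Pool.Agent.Helper72.BP

open MvPolynomial
open Pool.Agent.Helper79.BP

/-- BLOCK T, the push-off. -/
theorem tPush' {p m r : ℕ} (hp : 0 < p) {κ : Type} [Fintype κ] [DecidableEq κ]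
    (G : Fin r → Matrix (Ix p κ) (Ix p κ) ℝ) (q : (Fin m → ℂ) → Ix p κ → ℝ) (ε : ℝ) (hT : IsTube G q ε)
    (a : Fin p → κ → ℝ) (M : Set (Amb (Ix p κ) (Tx p r κ) → ℝ)) (hM : IsM hp G q ε a M) (d : ℕ)
    (hd : d + p + 2 = Fintype.card (Ix p κ) + Fintype.card (Tx p r κ)) :
    ∃ ε0 > 0, ∀ φ : ℝ × (Amb (Ix p κ) (Tx p r κ) → ℝ) → (Amb (Ix p κ) (Tx p r κ) → ℝ), ContDiff ℝ 1 φ →
      (∀ t ∈ Set.Icc (0 : ℝ) 1, ∀ x, ‖φ (t, x) - x‖ ≤ ε0) →
      (∀ t ∈ Set.Icc (0 : ℝ) 1, ∀ x y, ‖(φ (t, x) - x) - (φ (t, y) - y)‖ ≤ ε0 * ‖x - y‖) →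
      (∀ t ∈ Set.Icc (0 : ℝ) 1, ∀ x ∈ M, φ (t, x) ∈ Vemb G ε) → (∀ x ∈ M, φ (0, x) = x) →
      IsNZ d ((fun x => φ (1, x)) '' M) →
      ∃ δ > 0, ∀ γ W, Near δ γ W → PushH G q ε (coneIdeal (lift ((fun x => φ (1, x)) '' M))) γ W := by
  obtain ⟨δ, hδ, hA⟩ := pathA (r := r) G q ε hT
  obtain ⟨ε1, hε1, hB⟩ := pathB hp G q ε hT a M hM
  obtain ⟨ε2, hε2, hE⟩ := base_est hp G q ε hT
  obtain ⟨ρ, hρ, hqn⟩ := hM.q_near
  set C1 : ℝ := max 1 (3 / Real.sqrt (ε / 2)) with hC1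
  have hC1' : 1 ≤ C1 := le_max_left _ _
  have hC0 : 0 < C1 := lt_of_lt_of_le one_pos hC1'
  set b : Tx p r κ := Sum.inr (Sum.inr ⟨0, hp⟩) with hb
  have hq : 0 < 1 / (4 * C1) := by positivity
  refine ⟨min (min ε1 ε2) (min (1 / 2) (1 / (4 * C1))), lt_min (lt_min hε1 hε2) (lt_min (by norm_num) hq), ?_⟩
  intro φ hφ hclose hlip hV h0 hNZ
  set ε0 : ℝ := min (min ε1 ε2) (min (1 / 2) (1 / (4 * C1))) with hε0
  have e1 : ε0 ≤ ε1 := (min_le_left _ _).trans (min_le_left _ _)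
  have e2 : ε0 ≤ ε2 := (min_le_left _ _).trans (min_le_right _ _)
  have e3 : ε0 ≤ 1 / 2 := (min_le_right _ _).trans (min_le_left _ _)
  have e4 : ε0 ≤ 1 / (4 * C1) := (min_le_right _ _).trans (min_le_right _ _)
  have e0 : 0 < ε0 := lt_min (lt_min hε1 hε2) (lt_min (by norm_num) hq)
  have e5 : 2 * ε0 * C1 < 1 := by
    have : ε0 * C1 ≤ 1 / (4 * C1) * C1 := mul_le_mul_of_nonneg_right e4 hC0.le
    have h4 : 1 / (4 * C1) * C1 = 1 / 4 := by
      field_simp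
    rw [h4] at this
    nlinarith
  refine ⟨δ, hδ, ?_⟩
  intro γ W hγW
  obtain ⟨c, hc, hpA⟩ := hA γ W hγW
  obtain ⟨B1, hpB, hB1⟩ := hB φ hφ.continuous (fun t ht x => (hclose t ht x).trans e1) hV h0
  obtain ⟨hBc, hBV, hBI⟩ := hpB.right
  have h11 : (1 : ℝ) ∈ Set.Icc (0 : ℝ) 1 := ⟨zero_le_one, le_refl _⟩
  set Z' : Set (Amb (Ix p κ) (Tx p r κ) → ℝ) := (fun x => φ (1, x)) '' M with hZ'
  have hZV : Z' ⊆ Vemb G ε := by
    rintro _ ⟨x, hx, rfl⟩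
    exact hV 1 h11 x hx
  -- closeness of the t-part
  have hcl : ∀ z ∈ Sph m, ∀ s, |(B1 z).2 s - (S0 G ε (q z)).2 s| ≤ ε2 := by
    intro z hz s
    have h := (hclose 1 h11 (emb (S0 G ε (q z)))).trans e2
    rw [← hB1 z hz] at h
    have h' := norm_le_pi_norm (emb (B1 z) - emb (S0 G ε (q z))) (Sum.inr s)
    simp only [emb, Pi.sub_apply, Sum.elim_inr, Real.norm_eq_abs] at h'
    exact h'.trans h
  have hN : ∀ z ∈ Sph m, ε / 2 ≤ nsq (B1 z).2 - (B1 z).2 b ^ 2 := fun z hz => (hE z hz _ (hcl z hz)).1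
  have hbb : ∀ z ∈ Sph m, |(B1 z).2 b| ≤ 1 := fun z hz => (hE z hz _ (hcl z hz)).2
  -- the compact set of section points
  set Q : Set (Amb (Ix p κ) (Tx p r κ) → ℝ) := (fun z => emb (S0 G ε (q z))) '' Sph m with hQ
  have hQc : IsCompact Q := by
    refine (isCompact_Sph m).image_of_continuousOn ?_
    have hA0 := hpA.right.1
    have h2 : Continuous (fun x : (Ix p κ → ℝ) × (Tx p r κ → ℝ) => (emb x : Amb (Ix p κ) (Tx p r κ) → ℝ)) := by
      refine continuous_pi fun i => ?_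
      rcases i with i | i
      · simp only [emb, Sum.elim_inl]
        fun_prop
      · simp only [emb, Sum.elim_inr]
        fun_prop
    exact h2.comp_continuousOn hA0
  have hQM : Q ⊆ M := by
    rintro _ ⟨z, hz, rfl⟩
    exact hM.q_mem z hz
  obtain ⟨u0, hu0, hoff⟩ := off M Q hQc hQM (Sum.inr b) ρ hρ
    (by
      rintro x hx _ ⟨z, hz, rfl⟩ hd
      exact hqn x hx z hz hd) C1 hC1' ε0 e0.le e3 e5 (fun x => φ (1, x)) (hlip 1 h11) hNZ.1
  -- the size of the push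
  set u : ℝ := min (u0 / 2) (min 1 (ε / 6)) with hu
  have hu1 : 0 < u := lt_min (by linarith) (lt_min one_pos (by have := hT.pos; linarith))
  have hu2 : u < u0 := (min_le_left _ _).trans_lt (by linarith)
  have hu3 : u ≤ 1 := (min_le_right _ _).trans (min_le_left _ _)
  have hu4 : 3 * u ≤ ε / 2 := by
    have : u ≤ ε / 6 := (min_le_right _ _).trans (min_le_right _ _)
    linarith
  have hpC := pathC G ε hT.pos b B1 hBc hBV hBI hN hbb u hu1.le hu3 hu4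
  obtain ⟨H, hHc, hHV, hHI, hH0, hH1⟩ := (hpA.trans hpB).trans hpC
  refine ⟨H, hHc, hHV, hHI, fun z hz => ⟨c z, hc z hz, hH0 z hz⟩, ?_⟩
  intro z hz
  refine t4_off G q ε hT d hd Z' hZV hNZ (H z 1) (hHV z hz 1 h11) ?_
  rw [hH1 z hz]
  have hx : emb (S0 G ε (q z)) ∈ Q := ⟨z, hz, rfl⟩
  refine hoff u hu1 hu2 _ hx _ ?_ ?_
  · show ‖emb ((B1 z).1, pushT b u (B1 z).2) - φ (1, emb (S0 G ε (q z)))‖ ≤ C1 * u
    rw [← hB1 z hz]
    rw [pi_norm_le_iff_of_nonneg (by positivity)]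
    intro i
    rcases i with i | i
    · simp only [emb, Pi.sub_apply, Sum.elim_inl, sub_self, norm_zero]
      positivity
    · simp only [emb, Pi.sub_apply, Sum.elim_inr, Real.norm_eq_abs]
      exact pushT_est b ε u hT.pos (B1 z).2 (hN z hz) (hbb z hz) hu1.le hu3 hu4 i
  · show emb ((B1 z).1, pushT b u (B1 z).2) (Sum.inr b) - φ (1, emb (S0 G ε (q z))) (Sum.inr b) = u
    rw [← hB1 z hz]
    simp [emb, pushT]

end Pool.Agent.Helper72.BP
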