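import Pool.Agent.Helper72.BP.Defs2

/-!
PROJECT BP, module BP-T8: algebraic lemmas on gradients.

chain: induction on f (MvPolynomial.induction_on): constants (pderiv_C), sums, and f * X_x: pderiv is a derivation (Derivation.leibniz, pderiv_X / pderiv_mul), aeval (f * X x) = aeval f * g x; eval ξ (aeval g f) = aeval (fun x => eval ξ (g x)) f.
ker_span: Submodule.span_induction (or Ideal version): zero, sum, and c * h: value c(w) * 0, gradient c(w) * 0 + h(w) * (..) = 0.
kill: D * h ∈ span S, so by ker_span ∑ grad w (D * h) ω = 0 = D(w) ∑ grad w h ω + h(w) * (..), h(w) = 0, D(w) ≠ 0.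
indep_of_ker: the linear map A v = (∑_a g_j a v_a)_j from R^(p+1) to R^p has kernel inside span {ξ}, so finrank ker ≤ 1 and A is onto (rank-nullity). If ∑ λ_j g_j = 0 take v with A v = λ: ∑ λ_j^2 = ∑_a (∑_j λ_j g_j a) v_a = 0, so λ = 0
(`Fintype.linearIndependent_iff`).
-/

set_option autoImplicit false
set_option synthInstance.maxSize 2000

namespace Pool.Agent.Helper72.BP

open MvPolynomial

theorem chain {σ ρ : Type} [Fintype σ] [Fintype ρ] (g : σ → MvPolynomial ρ ℝ) (f : MvPolynomial σ ℝ) (ξ v : ρ → ℝ) :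
    ∑ a, eval ξ (pderiv a (aeval g f)) * v a =
      ∑ x, grad (fun x => eval ξ (g x)) f x * ∑ a, eval ξ (pderiv a (g x)) * v a := by
  classical
  have hev : ∀ f : MvPolynomial σ ℝ, eval ξ (aeval g f) = aeval (fun x => eval ξ (g x)) f := by
    intro f
    induction f using MvPolynomial.induction_on with
    | C a => simp
    | add p q hp hq => rw [map_add, map_add, map_add, hp, hq]
    | mul_X p x hp => rw [map_mul, map_mul, map_mul, hp, aeval_X, aeval_X]
  induction f using MvPolynomial.induction_on with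
  | C a => simp [grad]
  | add p q hp hq =>
    have h1 : ∀ a, eval ξ (pderiv a (aeval g (p + q))) * v a =
        eval ξ (pderiv a (aeval g p)) * v a + eval ξ (pderiv a (aeval g q)) * v a := by
      intro a
      rw [map_add, map_add, map_add, add_mul]
    have h2 : ∀ x, grad (fun x => eval ξ (g x)) (p + q) x * ∑ a, eval ξ (pderiv a (g x)) * v a =
        grad (fun x => eval ξ (g x)) p x * ∑ a, eval ξ (pderiv a (g x)) * v a +
          grad (fun x => eval ξ (g x)) q x * ∑ a, eval ξ (pderiv a (g x)) * v a := by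
      intro x
      simp only [grad, map_add, add_mul]
    simp only [h1, h2, Finset.sum_add_distrib, hp, hq]
  | mul_X p y hp =>
    have h1 : ∀ a, eval ξ (pderiv a (aeval g (p * X y))) * v a =
        eval ξ (g y) * (eval ξ (pderiv a (aeval g p)) * v a) +
          eval ξ (aeval g p) * (eval ξ (pderiv a (g y)) * v a) := by
      intro a
      rw [map_mul, aeval_X, Derivation.leibniz, map_add, smul_eq_mul, smul_eq_mul, map_mul, map_mul]
      ring
    have h2 : ∀ x, grad (fun x => eval ξ (g x)) (p * X y) x * ∑ a, eval ξ (pderiv a (g x)) * v a =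
        eval ξ (g y) * (grad (fun x => eval ξ (g x)) p x * ∑ a, eval ξ (pderiv a (g x)) * v a) +
          (if x = y then eval ξ (aeval g p) * ∑ a, eval ξ (pderiv a (g x)) * v a else 0) := by
      intro x
      simp only [grad, hev]
      rw [Derivation.leibniz, map_add, smul_eq_mul, smul_eq_mul, map_mul, map_mul, aeval_X, pderiv_X]
      by_cases hxy : x = y
      · subst hxy
        simp
        ring
      · rw [Pi.single_eq_of_ne (Ne.symm hxy), if_neg hxy]
        simp
        ring
    simp only [h1, h2, Finset.sum_add_distrib, ← Finset.mul_sum, hp, Finset.sum_ite_eq', Finset.mem_univ, if_true]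

theorem ker_span {σ : Type} [Fintype σ] (w ω : σ → ℝ) (S : Set (MvPolynomial σ ℝ))
    (hS : ∀ f ∈ S, aeval w f = 0 ∧ ∑ x, grad w f x * ω x = 0) (h : MvPolynomial σ ℝ) (hh : h ∈ Ideal.span S) :
    aeval w h = 0 ∧ ∑ x, grad w h x * ω x = 0 := by
  induction hh using Submodule.span_induction with
  | mem x hx => exact hS x hx
  | zero => simp [grad]
  | add x y _ _ hx hy =>
    refine ⟨by rw [map_add, hx.1, hy.1, add_zero], ?_⟩
    have h1 : ∀ z, grad w (x + y) z * ω z = grad w x z * ω z + grad w y z * ω z := by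
      intro z
      simp only [grad, map_add, add_mul]
    simp only [h1, Finset.sum_add_distrib, hx.2, hy.2, add_zero]
  | smul a x _ hx =>
    refine ⟨by rw [smul_eq_mul, map_mul, hx.1, mul_zero], ?_⟩
    have h1 : ∀ z, grad w (a • x) z * ω z = aeval w a * (grad w x z * ω z) := by
      intro z
      simp only [grad]
      rw [smul_eq_mul, Derivation.leibniz, map_add, smul_eq_mul, smul_eq_mul, map_mul, map_mul, hx.1]
      ring
    simp only [h1, ← Finset.mul_sum, hx.2, mul_zero]

theorem kill {σ : Type} [Fintype σ] (w ω : σ → ℝ) (S : Set (MvPolynomial σ ℝ))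
    (hS : ∀ f ∈ S, aeval w f = 0 ∧ ∑ x, grad w f x * ω x = 0) (D h : MvPolynomial σ ℝ) (hD : aeval w D ≠ 0)
    (hw : aeval w h = 0) (hh : D * h ∈ Ideal.span S) : ∑ x, grad w h x * ω x = 0 := by
  have h0 := (ker_span w ω S hS (D * h) hh).2
  have h1 : ∀ z, grad w (D * h) z * ω z = aeval w D * (grad w h z * ω z) := by
    intro z
    simp only [grad]
    rw [Derivation.leibniz, map_add, smul_eq_mul, smul_eq_mul, map_mul, map_mul, hw]
    ring
  simp only [h1, ← Finset.mul_sum] at h0
  exact (mul_eq_zero.mp h0).resolve_left hD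

theorem indep_of_ker {p : ℕ} (g : Fin p → Fin (p + 1) → ℝ) (ξ : Fin (p + 1) → ℝ)
    (h : ∀ v : Fin (p + 1) → ℝ, (∀ j, ∑ a, g j a * v a = 0) → ∃ c : ℝ, v = c • ξ) : LinearIndependent ℝ g := by
  let A : (Fin (p + 1) → ℝ) →ₗ[ℝ] (Fin p → ℝ) := (Matrix.of g).mulVecLin
  have hA : ∀ v j, A v j = ∑ a, g j a * v a := fun v j => rfl
  have hker : LinearMap.ker A ≤ Submodule.span ℝ {ξ} := by
    intro v hv
    have hv' : ∀ j, ∑ a, g j a * v a = 0 := by
      intro j
      rw [← hA, LinearMap.mem_ker.mp hv]
      rfl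
    obtain ⟨c, hc⟩ := h v hv'
    exact Submodule.mem_span_singleton.mpr ⟨c, hc.symm⟩
  have h1 : Module.finrank ℝ (LinearMap.ker A) ≤ 1 :=
    (Submodule.finrank_mono hker).trans ((finrank_span_le_card {ξ}).trans (by simp))
  have h2 := LinearMap.finrank_range_add_finrank_ker A
  rw [Module.finrank_fin_fun] at h2
  have hsurj : LinearMap.range A = ⊤ := by
    refine Submodule.eq_top_of_finrank_eq ?_
    refine le_antisymm (Submodule.finrank_le _) ?_
    rw [Module.finrank_fin_fun]
    omega
  rw [Fintype.linearIndependent_iff]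
  intro lam hlam
  obtain ⟨v, hv⟩ := LinearMap.range_eq_top.mp hsurj lam
  have h3 : ∑ j, lam j * lam j = 0 := by
    have h4 : ∀ j, lam j * lam j = ∑ a, (lam j * g j a) * v a := by
      intro j
      have h6 : lam j = ∑ a, g j a * v a := by
        rw [← hA, hv]
      calc lam j * lam j = lam j * ∑ a, g j a * v a := by rw [← h6]
        _ = ∑ a, (lam j * g j a) * v a := by
          rw [Finset.mul_sum]
          exact Finset.sum_congr rfl fun a _ => by ring
    simp only [h4]
    rw [Finset.sum_comm]
    refine Finset.sum_eq_zero fun a _ => ?_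
    rw [← Finset.sum_mul]
    have h7 := congrFun hlam a
    simp only [Finset.sum_apply, Pi.smul_apply, smul_eq_mul, Pi.zero_apply] at h7
    rw [h7, zero_mul]
  intro j
  have h5 := (Finset.sum_eq_zero_iff_of_nonneg (fun i _ => mul_self_nonneg (lam i))).mp h3 j (Finset.mem_univ j)
  exact mul_self_eq_zero.mp h5

end Pool.Agent.Helper72.BP
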