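import Pool.Agent.Helper72.BP.TDefs
import Pool.Agent.Helper72.BP.OLem
import Pool.Agent.Helper79.BP.KitC

/-!
PROJECT BP, module BP-T10: a tangent space of the right dimension inside an NZ-subvariety is the whole Zariski tangent space.

NonsingAt d (zcl Z') x0 (from hNZ.2, x0 ∈ Z') gives c, f with c + d = card ι, f_i vanishing on zcl Z' ⊇ Z', independent gradients at x0. N := {ζ : ∑_a eval x0 (pderiv a (f i)) ζ a = 0 for all i} has finrank = card ι - c = d
(the linear map ζ ↦ (∑ ..)_i is onto R^c because the rows are independent; rank-nullity). T0 ≤ N: u ∈ T0, curve γ in Z' with velocity u: f_i ∘ γ = 0 near 0, its derivative at 0 is ∑_a eval x0 (pderiv a (f i)) u a (hasFDeriv and chain rule).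
finrank T0 = d = finrank N, so T0 = N (Submodule.eq_of_le_of_finrank_eq), and ζ ∈ N by hζ.
-/

set_option autoImplicit false
set_option synthInstance.maxSize 2000

namespace Pool.Agent.Helper72.BP

open MvPolynomial
open Pool.Agent.Helper79.BP

theorem dim_part {ι : Type} [Fintype ι] (d : ℕ) (Z' : Set (ι → ℝ)) (hNZ : IsNZ d Z') (x0 : ι → ℝ) (hx0 : x0 ∈ Z')
    (T0 : Submodule ℝ (ι → ℝ)) (hd : Module.finrank ℝ T0 = d)
    (hc : ∀ u ∈ T0, ∃ c : ℝ → (ι → ℝ), c 0 = x0 ∧ HasDerivAt c u 0 ∧ ∀ᶠ s in nhds (0 : ℝ), c s ∈ Z')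
    (ζ : ι → ℝ) (hζ : ∀ P : MvPolynomial ι ℝ, (∀ z ∈ Z', eval z P = 0) → ∑ a, eval x0 (pderiv a P) * ζ a = 0) :
    ζ ∈ T0 := by
  obtain ⟨_, c, f, U, hcd, hf, hli, _, _, _⟩ := (hNZ.2 x0).1 hx0
  have hsub : ∀ i, ∀ z ∈ Z', eval z (f i) = 0 := fun i z hz => hf i z (fun P hP => hP z hz)
  have hsurj := surjective_fderiv_evm f x0 hli
  set A : (ι → ℝ) →ₗ[ℝ] (Fin c → ℝ) := (fderiv ℝ (evm f) x0 : (ι → ℝ) →L[ℝ] (Fin c → ℝ)).toLinearMap with hA
  have hsurj' : Function.Surjective A := hsurj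
  have hrn : Module.finrank ℝ (LinearMap.ker A) = d := by
    have h1 := LinearMap.finrank_range_add_finrank_ker A
    rw [LinearMap.range_eq_top.2 hsurj', finrank_top, Module.finrank_fin_fun, Module.finrank_fintype_fun_eq_card] at h1
    omega
  have hle : T0 ≤ LinearMap.ker A := by
    intro u hu
    obtain ⟨γ, hγ0, hγd, hγm⟩ := hc u hu
    rw [LinearMap.mem_ker]
    have h1 : HasFDerivAt (evm f) (fderiv ℝ (evm f) x0) (γ 0) := by
      rw [hγ0]
      exact ((contDiff_evm f (n := 1)).differentiable one_ne_zero x0).hasFDerivAt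
    have h2 : HasDerivAt (fun s => evm f (γ s)) (fderiv ℝ (evm f) x0 u) 0 := h1.comp_hasDerivAt 0 hγd
    have h3 : (fun s => evm f (γ s)) =ᶠ[nhds 0] fun _ => (0 : Fin c → ℝ) := by
      filter_upwards [hγm] with s hs
      ext i
      exact hsub i _ hs
    have h4 : HasDerivAt (fun s => evm f (γ s)) (0 : Fin c → ℝ) 0 :=
      (hasDerivAt_const (0 : ℝ) (0 : Fin c → ℝ)).congr_of_eventuallyEq h3
    exact h2.unique h4
  have hζN : ζ ∈ LinearMap.ker A := by
    rw [LinearMap.mem_ker]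
    ext i
    change fderiv ℝ (evm f) x0 ζ i = 0
    rw [fderiv_evm]
    exact hζ (f i) (hsub i)
  have heq : T0 = LinearMap.ker A := Submodule.eq_of_le_of_finrank_eq hle (by rw [hd, hrn])
  rw [heq]
  exact hζN

end Pool.Agent.Helper72.BP
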