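import Pool.Agent.Helper72.BP.Defs2

/-!
PROJECT BP, module BP-T12: equivariant paths of sections and their concatenation.

trans: H z s := if s ≤ 1/2 then H1 z (2 s) else H2 z (2 s - 1). Continuity on Sph × [0,1]: `ContinuousOn.if` or gluing on the two closed pieces {s ≤ 1/2}, {1/2 ≤ s} (`ContinuousOn.union_of_isClosed` / `ContinuousOn.if'`), on the common part s = 1/2 both are B z.
The other clauses by cases.
-/

set_option autoImplicit false
set_option synthInstance.maxSize 2000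

namespace Pool.Agent.Helper72.BP

/-- There is an equivariant path in `V~` from `A` to `B`. -/
def EqPath {m r : ℕ} {ι τ : Type} [Fintype ι] [Fintype τ] (G : Fin r → Matrix ι ι ℝ) (ε : ℝ)
    (A B : (Fin m → ℂ) → (ι → ℝ) × (τ → ℝ)) : Prop :=
  ∃ H : (Fin m → ℂ) → ℝ → (ι → ℝ) × (τ → ℝ),
    ContinuousOn (fun x : (Fin m → ℂ) × ℝ => H x.1 x.2) (Sph m ×ˢ Set.Icc 0 1) ∧
    (∀ z ∈ Sph m, ∀ s ∈ Set.Icc (0 : ℝ) 1, H z s ∈ Vt G ε) ∧
    (∀ z ∈ Sph m, ∀ s ∈ Set.Icc (0 : ℝ) 1, H (fun a => Complex.I * z a) s = (-(H z s).1, (H z s).2)) ∧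
    (∀ z ∈ Sph m, H z 0 = A z) ∧ (∀ z ∈ Sph m, H z 1 = B z)

theorem isCompact_Sph (m : ℕ) : IsCompact (Sph m) := by
  apply Metric.isCompact_of_isClosed_isBounded
  · unfold Sph
    apply isClosed_eq
    · fun_prop
    · exact continuous_const
  · refine (Metric.isBounded_closedBall (x := (0 : Fin m → ℂ)) (r := 1)).subset ?_
    intro z hz
    have hz' : ∑ i, ‖z i‖ ^ 2 = 1 := hz
    rw [mem_closedBall_zero_iff, pi_norm_le_iff_of_nonneg zero_le_one]
    intro i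
    have h1 : ‖z i‖ ^ 2 ≤ ∑ j, ‖z j‖ ^ 2 :=
      Finset.single_le_sum (f := fun j => ‖z j‖ ^ 2) (fun j _ => sq_nonneg _) (Finset.mem_univ i)
    rw [hz'] at h1
    have h2 := norm_nonneg (z i)
    nlinarith

private theorem rot_mem {m : ℕ} {z : Fin m → ℂ} (hz : z ∈ Sph m) :
    (fun a => Complex.I * z a) ∈ Sph m := by
  have hz' : ∑ i, ‖z i‖ ^ 2 = 1 := hz
  change ∑ i, ‖Complex.I * z i‖ ^ 2 = 1
  rw [← hz']
  refine Finset.sum_congr rfl fun i _ => ?_
  rw [norm_mul, Complex.norm_I, one_mul]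

theorem EqPath.trans {m r : ℕ} {ι τ : Type} [Fintype ι] [Fintype τ] {G : Fin r → Matrix ι ι ℝ} {ε : ℝ}
    {A B C : (Fin m → ℂ) → (ι → ℝ) × (τ → ℝ)} (h1 : EqPath G ε A B) (h2 : EqPath G ε B C) : EqPath G ε A C := by
  obtain ⟨H1, c1, v1, e1, l1, r1⟩ := h1
  obtain ⟨H2, c2, v2, e2, l2, r2⟩ := h2
  refine ⟨fun z s => if s ≤ 1 / 2 then H1 z (2 * s) else H2 z (2 * s - 1), ?_, ?_, ?_, ?_, ?_⟩
  · have hS : Sph m ×ˢ Set.Icc (0 : ℝ) 1 =
        (Sph m ×ˢ Set.Icc (0 : ℝ) (1 / 2)) ∪ (Sph m ×ˢ Set.Icc (1 / 2 : ℝ) 1) := by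
      rw [← Set.prod_union, Set.Icc_union_Icc_eq_Icc (by norm_num) (by norm_num)]
    rw [hS]
    apply ContinuousOn.union_of_isClosed
    · have h3 : ContinuousOn (fun x : (Fin m → ℂ) × ℝ => H1 x.1 (2 * x.2))
          (Sph m ×ˢ Set.Icc (0 : ℝ) (1 / 2)) := by
        have h4 : ContinuousOn (fun x : (Fin m → ℂ) × ℝ => ((x.1, 2 * x.2) : (Fin m → ℂ) × ℝ))
            (Sph m ×ˢ Set.Icc (0 : ℝ) (1 / 2)) := by fun_prop
        refine c1.comp h4 ?_
        rintro ⟨z, s⟩ ⟨hz, hs⟩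
        exact ⟨hz, by dsimp only; linarith [hs.1], by dsimp only; linarith [hs.2]⟩
      refine h3.congr ?_
      rintro ⟨z, s⟩ ⟨hz, hs⟩
      exact if_pos hs.2
    · have h3 : ContinuousOn (fun x : (Fin m → ℂ) × ℝ => H2 x.1 (2 * x.2 - 1))
          (Sph m ×ˢ Set.Icc (1 / 2 : ℝ) 1) := by
        have h4 : ContinuousOn (fun x : (Fin m → ℂ) × ℝ => ((x.1, 2 * x.2 - 1) : (Fin m → ℂ) × ℝ))
            (Sph m ×ˢ Set.Icc (1 / 2 : ℝ) 1) := by fun_prop
        refine c2.comp h4 ?_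
        rintro ⟨z, s⟩ ⟨hz, hs⟩
        exact ⟨hz, by dsimp only; linarith [hs.1], by dsimp only; linarith [hs.2]⟩
      refine h3.congr ?_
      rintro ⟨z, s⟩ ⟨hz, hs⟩
      dsimp only
      split_ifs with h5
      · have h6 : s = 1 / 2 := le_antisymm h5 hs.1
        subst h6
        norm_num
        rw [r1 z hz, l2 z hz]
      · rfl
    · exact (isCompact_Sph m).isClosed.prod isClosed_Icc
    · exact (isCompact_Sph m).isClosed.prod isClosed_Icc
  · intro z hz s hs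
    dsimp only
    split_ifs with h5
    · exact v1 z hz _ ⟨by linarith [hs.1], by linarith⟩
    · exact v2 z hz _ ⟨by linarith, by linarith [hs.2]⟩
  · intro z hz s hs
    dsimp only
    split_ifs with h5
    · exact e1 z hz _ ⟨by linarith [hs.1], by linarith⟩
    · exact e2 z hz _ ⟨by linarith, by linarith [hs.2]⟩
  · intro z hz
    dsimp only
    rw [if_pos (by norm_num), mul_zero]
    exact l1 z hz
  · intro z hz
    dsimp only
    rw [if_neg (by norm_num)]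
    norm_num
    exact r2 z hz

/-- the end of a path is continuous, lies in `V~` and is equivariant. -/
theorem EqPath.right {m r : ℕ} {ι τ : Type} [Fintype ι] [Fintype τ] {G : Fin r → Matrix ι ι ℝ} {ε : ℝ}
    {A B : (Fin m → ℂ) → (ι → ℝ) × (τ → ℝ)} (h : EqPath G ε A B) :
    ContinuousOn B (Sph m) ∧ (∀ z ∈ Sph m, B z ∈ Vt G ε) ∧
      (∀ z ∈ Sph m, B (fun a => Complex.I * z a) = (-(B z).1, (B z).2)) := by
  obtain ⟨H, c, v, e, l, r⟩ := h
  have h1 : (1 : ℝ) ∈ Set.Icc (0 : ℝ) 1 := ⟨zero_le_one, le_rfl⟩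
  refine ⟨?_, ?_, ?_⟩
  · have h3 : ContinuousOn (fun z : Fin m → ℂ => H z 1) (Sph m) := by
      have h4 : ContinuousOn (fun z : Fin m → ℂ => ((z, 1) : (Fin m → ℂ) × ℝ)) (Sph m) := by fun_prop
      exact c.comp h4 fun z hz => ⟨hz, h1⟩
    exact h3.congr fun z hz => (r z hz).symm
  · intro z hz
    rw [← r z hz]
    exact v z hz 1 h1
  · intro z hz
    rw [← r z hz, ← r _ (rot_mem hz)]
    exact e z hz 1 h1


end Pool.Agent.Helper72.BP
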