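import Pool.Agent.Helper72.BP.OLem
import Pool.Agent.Helper72.BP.Defs2

/-!
PROJECT BP, module BP-T1: the section over `P^p`, its normalised embedding, and the parameter space.

embn_unit: division by 1. embn_smul: nsq (c • y) = c^2 nsq y (nsq_smul), cancel c^2. Sec_smul: inc (c • x) = c • inc x, act_smul, tR_smul. sig_smul: both.
nsq_pos: y := act γ (inc x); γ invertible and inc x ≠ 0, so y ≠ 0 (act γ⁻¹ y = inc x), and nsq y = ∑ y_i^2 > 0 over ℝ.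
exists_unit: c = 1 / √(nsq ..). sig_base: act 1 = id, nsq (inc x) = nsq x (Fintype.sum_sum_type), S0.
sig_near: δ from tube_identR (R = ℝ and R = MvPolynomial (Fin (p+1)) ℝ; qf_inc gives qf (G l) (inc x) = 0) and near_inv. For nsq (Sec x).1 = 1 the pair is in Vt by definition. For x ≠ 0 take c from exists_unit:
sig x = sig (c • x) = embn (Sec (c • x)) = emb (Sec (c • x)) ∈ emb '' Vt.
lift_isZero: by definition of coneIdeal with c = 1. lift_of_zero: given x ≠ 0, IsZero J (Sec x), not IsZero I (Sec x): take c from exists_unit, isZero_smul for J (coneIdeal_comp) gives IsZero J (Sec (c • x)); if IsZero I (Sec (c • x))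
then isZero_smul with c⁻¹ gives IsZero I (Sec x), contradiction; the hypothesis hI gives Sec (c • x) ∈ lift Z', so sig x = sig (c • x) = emb (Sec (c • x)) ∈ Z'.
near_of_eventually: Metric.eventually_nhds_iff on the product of pi types; dist in the sup metric is < δ when all entries are (dist_pi_lt_iff).
-/

set_option autoImplicit false
set_option synthInstance.maxSize 2000

namespace Pool.Agent.Helper72.BP

open MvPolynomial

/-- The section over `P^p`, not normalised. -/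
noncomputable def Sec {p r : ℕ} {κ : Type} [Fintype κ] [DecidableEq κ] (G : Fin r → Matrix (Ix p κ) (Ix p κ) ℝ) (ε : ℝ)
    (γ : Matrix (Ix p κ) (Ix p κ) ℝ) (W : Matrix (Tx p r κ) (Tx p r κ) ℝ) (x : Fin (p + 1) → ℝ) :
    (Ix p κ → ℝ) × (Tx p r κ → ℝ) := (act γ (inc x), tR G ε γ W (inc x))

/-- The normalised embedding. -/
noncomputable def embn {ι τ : Type} [Fintype ι] (x : (ι → ℝ) × (τ → ℝ)) : Amb ι τ → ℝ :=
  Sum.elim (fun a => x.1 a.1 * x.1 a.2 / nsq x.1) (fun s => x.2 s / nsq x.1)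

/-- The normalised section as a map to the ambient space of `V`. -/
noncomputable def sig {p r : ℕ} {κ : Type} [Fintype κ] [DecidableEq κ] (G : Fin r → Matrix (Ix p κ) (Ix p κ) ℝ) (ε : ℝ)
    (γ : Matrix (Ix p κ) (Ix p κ) ℝ) (W : Matrix (Tx p r κ) (Tx p r κ) ℝ) (x : Fin (p + 1) → ℝ) :
    Amb (Ix p κ) (Tx p r κ) → ℝ := embn (Sec G ε γ W x)

/-- The normed space of parameters. -/
abbrev Par (ι τ : Type) : Type := (ι → ι → ℝ) × (τ → τ → ℝ)

/-- The base point. -/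
def par0 {ι τ : Type} [DecidableEq ι] : Par ι τ := (fun i j => if i = j then 1 else 0, fun _ _ => 0)

/-- Matrices as parameters. -/
def toPar {ι τ : Type} (γ : Matrix ι ι ℝ) (W : Matrix τ τ ℝ) : Par ι τ := (fun i j => γ i j, fun i j => W i j)

/-- The section as a function of the parameters. -/
noncomputable def sigP {p r : ℕ} {κ : Type} [Fintype κ] [DecidableEq κ] (G : Fin r → Matrix (Ix p κ) (Ix p κ) ℝ) (ε : ℝ)
    (π : Par (Ix p κ) (Tx p r κ)) (x : Fin (p + 1) → ℝ) : Amb (Ix p κ) (Tx p r κ) → ℝ :=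
  sig G ε (Matrix.of π.1) (Matrix.of π.2) x

theorem sigP_toPar {p r : ℕ} {κ : Type} [Fintype κ] [DecidableEq κ] (G : Fin r → Matrix (Ix p κ) (Ix p κ) ℝ) (ε : ℝ)
    (γ : Matrix (Ix p κ) (Ix p κ) ℝ) (W : Matrix (Tx p r κ) (Tx p r κ) ℝ) (x : Fin (p + 1) → ℝ) :
    sigP G ε (toPar γ W) x = sig G ε γ W x := rfl

theorem near_of_eventually {ι τ : Type} [Fintype ι] [DecidableEq ι] [Fintype τ] (P : Par ι τ → Prop)
    (h : ∀ᶠ π in nhds (par0 : Par ι τ), P π) :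
    ∃ δ : ℝ, 0 < δ ∧ ∀ (γ : Matrix ι ι ℝ) (W : Matrix τ τ ℝ), Near δ γ W → P (toPar γ W) := by
  obtain ⟨δ, hδ, h1⟩ := Metric.eventually_nhds_iff.mp h
  refine ⟨δ, hδ, fun γ W hN => h1 ?_⟩
  rw [Prod.dist_eq]
  refine max_lt ?_ ?_
  · refine (dist_pi_lt_iff hδ).2 fun i => (dist_pi_lt_iff hδ).2 fun j => ?_
    have h2 := hN.1 i j
    rw [Matrix.one_apply] at h2
    rw [Real.dist_eq]
    exact h2
  · refine (dist_pi_lt_iff hδ).2 fun i => (dist_pi_lt_iff hδ).2 fun j => ?_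
    have h2 := hN.2.1 i j
    rw [Real.dist_eq]
    change |W i j - 0| < δ
    rw [sub_zero]
    exact h2

theorem embn_unit {ι τ : Type} [Fintype ι] (x : (ι → ℝ) × (τ → ℝ)) (h : nsq x.1 = 1) : embn x = emb x := by
  unfold embn emb
  simp only [h, div_one]

theorem embn_smul {ι τ : Type} [Fintype ι] (x : (ι → ℝ) × (τ → ℝ)) (c : ℝ) (hc : c ≠ 0) :
    embn (c • x.1, c ^ 2 • x.2) = embn x := by
  funext i
  rcases i with a | s
  · change (c • x.1) a.1 * (c • x.1) a.2 / nsq (c • x.1) = x.1 a.1 * x.1 a.2 / nsq x.1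
    rw [nsq_smul, Pi.smul_apply, Pi.smul_apply, smul_eq_mul, smul_eq_mul,
      show c * x.1 a.1 * (c * x.1 a.2) = c ^ 2 * (x.1 a.1 * x.1 a.2) by ring,
      mul_div_mul_left _ _ (pow_ne_zero 2 hc)]
  · change (c ^ 2 • x.2) s / nsq (c • x.1) = x.2 s / nsq x.1
    rw [nsq_smul, Pi.smul_apply, smul_eq_mul, mul_div_mul_left _ _ (pow_ne_zero 2 hc)]

section

variable {p r : ℕ} {κ : Type} [Fintype κ] [DecidableEq κ] (G : Fin r → Matrix (Ix p κ) (Ix p κ) ℝ) (ε : ℝ)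
  (γ : Matrix (Ix p κ) (Ix p κ) ℝ) (W : Matrix (Tx p r κ) (Tx p r κ) ℝ)

theorem inc_smul {R : Type*} [CommRing R] (c : R) (x : Fin (p + 1) → R) : (inc (c • x) : Ix p κ → R) = c • inc x := by
  funext i
  rcases i with i | k
  · rfl
  · change (0 : R) = c * 0
    rw [mul_zero]

theorem Sec_smul (x : Fin (p + 1) → ℝ) (c : ℝ) :
    Sec G ε γ W (c • x) = (c • (Sec G ε γ W x).1, c ^ 2 • (Sec G ε γ W x).2) := by
  unfold Sec
  rw [inc_smul, act_smul, tR_smul]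

theorem sig_smul (x : Fin (p + 1) → ℝ) (c : ℝ) (hc : c ≠ 0) : sig G ε γ W (c • x) = sig G ε γ W x := by
  unfold sig
  rw [Sec_smul, embn_smul _ c hc]

theorem nsq_pos (hγ : IsUnit γ.det) (x : Fin (p + 1) → ℝ) (hx : x ≠ 0) : 0 < nsq (act γ (inc x : Ix p κ → ℝ)) := by
  have h0 : 0 ≤ nsq (act γ (inc x : Ix p κ → ℝ)) := Finset.sum_nonneg fun i _ => sq_nonneg _
  refine lt_of_le_of_ne h0 fun h => hx ?_
  have h1 : act γ (inc x : Ix p κ → ℝ) = 0 := by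
    funext i
    have h2 := (Finset.sum_eq_zero_iff_of_nonneg
      (f := fun i => (act γ (inc x : Ix p κ → ℝ) i) ^ 2) (fun i _ => sq_nonneg _)).mp h.symm i (Finset.mem_univ i)
    exact pow_eq_zero_iff two_ne_zero |>.mp h2
  have h3 : (inc x : Ix p κ → ℝ) = 0 := by
    rw [← act_one (inc x : Ix p κ → ℝ), ← Matrix.nonsing_inv_mul γ hγ, ← act_act, h1]
    funext i
    simp [act]
  funext i
  exact congrFun h3 (Sum.inl i)

theorem exists_unit (hγ : IsUnit γ.det) (x : Fin (p + 1) → ℝ) (hx : x ≠ 0) :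
    ∃ c : ℝ, 0 < c ∧ nsq (act γ (inc (c • x) : Ix p κ → ℝ)) = 1 := by
  have h := nsq_pos γ hγ x hx
  refine ⟨(Real.sqrt (nsq (act γ (inc x : Ix p κ → ℝ))))⁻¹, inv_pos.mpr (Real.sqrt_pos.mpr h), ?_⟩
  rw [inc_smul, act_smul, nsq_smul, inv_pow, Real.sq_sqrt h.le, inv_mul_cancel₀ h.ne']

theorem sig_unit (x : Fin (p + 1) → ℝ) (h : nsq (act γ (inc x : Ix p κ → ℝ)) = 1) :
    sig G ε γ W x = emb (Sec G ε γ W x) := by
  exact embn_unit _ h

theorem sig_base (x : Fin (p + 1) → ℝ) (h : nsq x = 1) :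
    sig G ε 1 0 x = (emb (S0 G ε (inc x)) : Amb (Ix p κ) (Tx p r κ) → ℝ) := by
  have h1 : (Sec G ε 1 0 x : (Ix p κ → ℝ) × (Tx p r κ → ℝ)) = S0 G ε (inc x) := by
    unfold Sec S0
    rw [act_one]
  unfold sig
  rw [h1]
  refine embn_unit _ ?_
  change nsq (inc x : Ix p κ → ℝ) = 1
  unfold nsq
  rw [Fintype.sum_sum_type]
  have h2 : ∑ k : κ, (inc x : Ix p κ → ℝ) (Sum.inr k) ^ 2 = 0 := Finset.sum_eq_zero fun k _ => by
    change (0 : ℝ) ^ 2 = 0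
    norm_num
  rw [h2, add_zero]
  exact h

theorem sigP_par0 (x : Fin (p + 1) → ℝ) : sigP G ε par0 x = (sig G ε 1 0 x : Amb (Ix p κ) (Tx p r κ) → ℝ) := by
  have h1 : (Matrix.of (par0 : Par (Ix p κ) (Tx p r κ)).1 : Matrix (Ix p κ) (Ix p κ) ℝ) = 1 := by
    ext i j
    rw [Matrix.one_apply]
    rfl
  have h2 : (Matrix.of (par0 : Par (Ix p κ) (Tx p r κ)).2 : Matrix (Tx p r κ) (Tx p r κ) ℝ) = 0 := rfl
  unfold sigP
  rw [h1, h2]

end

/-- facts near the base point. -/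
theorem sig_near {p m r : ℕ} {κ : Type} [Fintype κ] [DecidableEq κ]
    (G : Fin r → Matrix (Ix p κ) (Ix p κ) ℝ) (q : (Fin m → ℂ) → Ix p κ → ℝ) (ε : ℝ) (hT : IsTube G q ε) :
    ∃ δ : ℝ, 0 < δ ∧ ∀ (γ : Matrix (Ix p κ) (Ix p κ) ℝ) (W : Matrix (Tx p r κ) (Tx p r κ) ℝ), Near δ γ W →
      IsUnit γ.det ∧ (∀ x : Fin (p + 1) → ℝ, x ≠ 0 → sig G ε γ W x ∈ Vemb G ε) ∧
      (∀ x : Fin (p + 1) → ℝ, nsq (act γ (inc x : Ix p κ → ℝ)) = 1 → Sec G ε γ W x ∈ Vt G ε) ∧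
      Ffun G ε (act γ (inc X)) (tR G ε γ W (inc X)) = (0 : MvPolynomial (Fin (p + 1)) ℝ) := by
  obtain ⟨δ1, hδ1, h1⟩ := tube_identR G q ε hT
  obtain ⟨δ2, hδ2, h2⟩ := near_inv (p := p) (r := r) (κ := κ)
  refine ⟨min δ1 δ2, lt_min hδ1 hδ2, fun γ W hN => ?_⟩
  have hN1 : Near δ1 γ W := ⟨fun i j => lt_of_lt_of_le (hN.1 i j) (min_le_left _ _),
    fun i j => lt_of_lt_of_le (hN.2.1 i j) (min_le_left _ _), hN.2.2⟩
  have hN2 : Near δ2 γ W := ⟨fun i j => lt_of_lt_of_le (hN.1 i j) (min_le_right _ _),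
    fun i j => lt_of_lt_of_le (hN.2.1 i j) (min_le_right _ _), hN.2.2⟩
  have hγ := (h2 γ W hN2).1
  have hV : ∀ x : Fin (p + 1) → ℝ, nsq (act γ (inc x : Ix p κ → ℝ)) = 1 → Sec G ε γ W x ∈ Vt G ε :=
    fun x hx => ⟨hx, h1 γ W hN1 ℝ (inc x) (qf_inc G hT.lin x)⟩
  refine ⟨hγ, fun x hx => ?_, hV, h1 γ W hN1 (MvPolynomial (Fin (p + 1)) ℝ) (inc X) (qf_inc G hT.lin X)⟩
  obtain ⟨c, hc, hn⟩ := exists_unit γ hγ x hx
  rw [← sig_smul G ε γ W x c hc.ne', sig_unit G ε γ W _ hn]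
  exact ⟨_, hV _ hn, rfl⟩

theorem lift_isZero {ι τ : Type} [Fintype ι] (Z' : Set (Amb ι τ → ℝ)) (x : (ι → ℝ) × (τ → ℝ)) (hx : x ∈ lift Z') :
    IsZero (coneIdeal (lift Z')) x.1 x.2 := by
  intro f hf
  have h := hf x hx 1
  rwa [one_smul, one_pow, one_smul] at h

/-- zeros of the cone ideal off the zeros of `I` come from points of `Z'`. -/
theorem sig_mem_of_zero {p r : ℕ} {κ : Type} [Fintype κ] [DecidableEq κ]
    (G : Fin r → Matrix (Ix p κ) (Ix p κ) ℝ) (ε : ℝ)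
    (γ : Matrix (Ix p κ) (Ix p κ) ℝ) (W : Matrix (Tx p r κ) (Tx p r κ) ℝ) (hγ : IsUnit γ.det)
    (Z' : Set (Amb (Ix p κ) (Tx p r κ) → ℝ)) (I : Ideal (MvPolynomial (Var (Ix p κ) (Tx p r κ)) ℝ))
    (hI : ∀ (y : Ix p κ → ℝ) (t : Tx p r κ → ℝ), nsq y = 1 → IsZero (coneIdeal (lift Z')) y t → ¬ IsZero I y t →
      (y, t) ∈ lift Z')
    (hIc : ∀ f ∈ I, ∀ n, weightedHomogeneousComponent (wt : Var (Ix p κ) (Tx p r κ) → ℕ) n f ∈ I)
    (x : Fin (p + 1) → ℝ) (hx : x ≠ 0) (h1 : IsZero (coneIdeal (lift Z')) (act γ (inc x)) (tR G ε γ W (inc x)))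
    (h2 : ¬ IsZero I (act γ (inc x)) (tR G ε γ W (inc x))) : sig G ε γ W x ∈ Z' := by
  obtain ⟨c, hc, hn⟩ := exists_unit γ hγ x hx
  have h3 := isZero_smul _ (fun f hf d => coneIdeal_comp (lift Z') f hf d) _ _ c h1
  have h4 : ¬ IsZero I (c • act γ (inc x : Ix p κ → ℝ)) (c ^ 2 • tR G ε γ W (inc x)) := by
    intro h
    apply h2
    have h5 := isZero_smul I hIc _ _ c⁻¹ h
    rwa [inv_smul_smul₀ hc.ne', inv_pow, inv_smul_smul₀ (pow_ne_zero 2 hc.ne')] at h5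
  have hn' : nsq (c • act γ (inc x : Ix p κ → ℝ)) = 1 := by
    rw [← act_smul, ← inc_smul]
    exact hn
  have h5 := (hI _ _ hn' h3 h4).2
  rw [← sig_smul G ε γ W x c hc.ne', sig_unit G ε γ W _ hn, Sec_smul]
  exact h5

end Pool.Agent.Helper72.BP
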