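import Pool.Agent.Helper72.BP.T.SigSmooth
import Pool.Agent.Helper72.BP.T.Alg

/-!
PROJECT BP, module BP-T9: derivative of the normalised section.

tvel: the polynomial tR G ε γ W (inc X) s in x; eval x of it is tR G ε γ W (inc x) s (tR_map with φ = eval x). By `hasFDeriv` (O/Dir.lean) the derivative of x ↦ tR .. (inc x) s at ξ in the direction v is ∑_a eval ξ (pderiv a (..)) * v a =: tvel.
sig_fderiv: x ↦ y(x) = act γ (inc x) is linear; nsq (y(ξ)) = 1 and d nsq(y)(v) = 2 ∑ y_i (act γ (inc v))_i = 0; so the derivative of y_i y_j / nsq y is (dy_i) y_j + y_i dy_j and that of t_s / nsq y is dt_s (HasFDerivAt.div / quotient rule; apply to v).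
sec_radial: t is quadratic: tR (inc (ξ + s ξ)) = (1+s)^2 tR (inc ξ), so tvel ξ ξ s = 2 tR (inc ξ) s. (Alternatively Euler's identity.)
sig_cons: put x = Fin.cons 1 b, ξ = λ • x. sig is homogeneous of degree 0: fderiv sig (λ x) v = λ⁻¹ fderiv sig x v (differentiate sig (λ x) = sig x: chain rule with the linear map x ↦ λ x), and fderiv sig x x = 0 (s ↦ sig ((1+s) x) is constant).
v = (v 0) • x + cons 0 b' with b' = tail v - (v 0) • b, so fderiv sig ξ v = λ⁻¹ fderiv sig x (cons 0 b') = λ⁻¹ fderiv (fun b => sig (cons 1 b)) b b' ∈ T0 (chain rule for b ↦ cons 1 b, affine), so it is in T0 after multiplying by λ, b' = 0, v = (v 0) • x = (v 0 / λ) • ξ.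
sig_diff gives all differentiability (nsq (act γ (inc x)) ≠ 0 by nsq_pos).
-/

set_option autoImplicit false
set_option synthInstance.maxSize 2000

namespace Pool.Agent.Helper72.BP

open MvPolynomial

section

variable {p r : ℕ} {κ : Type} [Fintype κ] [DecidableEq κ] (G : Fin r → Matrix (Ix p κ) (Ix p κ) ℝ) (ε : ℝ)
  (γ : Matrix (Ix p κ) (Ix p κ) ℝ) (W : Matrix (Tx p r κ) (Tx p r κ) ℝ)

/-- The `t`-part of the velocity of the section. -/
noncomputable def tvel (ξ v : Fin (p + 1) → ℝ) (s : Tx p r κ) : ℝ :=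
  ∑ a, eval ξ (pderiv a (tR G ε γ W (inc X : Ix p κ → MvPolynomial (Fin (p + 1)) ℝ) s)) * v a

theorem tR_eval (ξ : Fin (p + 1) → ℝ) (s : Tx p r κ) :
    eval ξ (tR G ε γ W (inc X : Ix p κ → MvPolynomial (Fin (p + 1)) ℝ) s) = tR G ε γ W (inc ξ) s := by
  rw [tR_map (eval ξ) (fun a => by rw [MvPolynomial.algebraMap_apply, eval_C])]
  congr 1
  funext i
  cases i with
  | inl b => simp [inc]
  | inr b => simp [inc]

/-- The `y`-part of the velocity. -/
theorem act_vel (ξ v : Fin (p + 1) → ℝ) (i : Ix p κ) :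
    ∑ a, eval ξ (pderiv a (act γ (inc X : Ix p κ → MvPolynomial (Fin (p + 1)) ℝ) i)) * v a = act γ (inc v) i := by
  have h0 : ∀ x : Ix p κ, ∑ a, eval ξ (pderiv a ((inc X : Ix p κ → MvPolynomial (Fin (p + 1)) ℝ) x)) * v a =
      (inc v : Ix p κ → ℝ) x := by
    intro x
    cases x with
    | inl b =>
      simp only [inc, Sum.elim_inl, pderiv_X, Pi.single_apply]
      rw [Finset.sum_eq_single b]
      · simp
      · intro c _ hc
        rw [if_neg (Ne.symm hc), map_zero, zero_mul]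
      · intro hb
        exact absurd (Finset.mem_univ b) hb
    | inr b => simp [inc]
  have h1 : ∀ a, eval ξ (pderiv a (act γ (inc X : Ix p κ → MvPolynomial (Fin (p + 1)) ℝ) i)) * v a =
      ∑ x, γ i x * (eval ξ (pderiv a ((inc X : Ix p κ → MvPolynomial (Fin (p + 1)) ℝ) x)) * v a) := by
    intro a
    unfold act
    rw [map_sum, map_sum, Finset.sum_mul]
    apply Finset.sum_congr rfl
    intro x _
    rw [MvPolynomial.algebraMap_apply, pderiv_mul, pderiv_C, zero_mul, zero_add, map_mul, eval_C]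
    simp only [Algebra.algebraMap_self, RingHom.id_apply]
    ring
  rw [Finset.sum_congr rfl (fun a _ => h1 a), Finset.sum_comm]
  unfold act
  apply Finset.sum_congr rfl
  intro x _
  rw [← Finset.mul_sum, h0 x]
  rfl

theorem tvel_radial (ξ : Fin (p + 1) → ℝ) (s : Tx p r κ) : tvel G ε γ W ξ ξ s = 2 * tR G ε γ W (inc ξ) s := by
  have h := (tR_hom (κ := κ) G ε γ W s).sum_X_mul_pderiv
  have h2 := congrArg (eval ξ) h
  rw [map_sum] at h2
  unfold tvel
  rw [← tR_eval G ε γ W ξ s]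
  calc ∑ a, eval ξ (pderiv a (tR G ε γ W (inc X : Ix p κ → MvPolynomial (Fin (p + 1)) ℝ) s)) * ξ a
      = ∑ a, eval ξ (X a * pderiv a (tR G ε γ W (inc X : Ix p κ → MvPolynomial (Fin (p + 1)) ℝ) s)) := by
        apply Finset.sum_congr rfl
        intro a _
        rw [map_mul, eval_X]
        ring
    _ = _ := by
        rw [h2]
        simp

theorem sig_fderiv (ξ v : Fin (p + 1) → ℝ) (h1 : nsq (act γ (inc ξ : Ix p κ → ℝ)) = 1)
    (hv : ∑ i, act γ (inc ξ : Ix p κ → ℝ) i * act γ (inc v) i = 0) :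
    fderiv ℝ (fun x => sig G ε γ W x) ξ v =
      Sum.elim (fun b => act γ (inc v) b.1 * act γ (inc ξ) b.2 + act γ (inc ξ) b.1 * act γ (inc v) b.2)
        (tvel G ε γ W ξ v) := by
  have hd : DifferentiableAt ℝ (fun x => sig G ε γ W x) ξ :=
    sig_diff G ε γ W ξ (by rw [h1]; exact one_ne_zero)
  rw [← hd.lineDeriv_eq_fderiv]
  apply HasLineDerivAt.lineDeriv
  unfold HasLineDerivAt
  have hl : HasDerivAt (fun c : ℝ => ξ + c • v) v 0 := by
    have h := ((hasDerivAt_id (0 : ℝ)).smul_const v).const_add ξ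
    simpa using h
  have hy : ∀ i, HasDerivAt (fun c : ℝ => act γ (inc (ξ + c • v) : Ix p κ → ℝ) i) (act γ (inc v : Ix p κ → ℝ) i) 0 := by
    intro i
    have e : (fun c : ℝ => act γ (inc (ξ + c • v) : Ix p κ → ℝ) i) =
        fun c : ℝ => act γ (inc ξ : Ix p κ → ℝ) i + c * act γ (inc v : Ix p κ → ℝ) i := by
      funext c
      have e1 : (inc (ξ + c • v) : Ix p κ → ℝ) = inc ξ + c • inc v := by
        funext x
        cases x with
        | inl b => simp [inc]
        | inr b => simp [inc]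
      rw [e1, act_add, act_smul]
      simp
    rw [e]
    simpa using ((hasDerivAt_id (0 : ℝ)).mul_const (act γ (inc v : Ix p κ → ℝ) i)).const_add (act γ (inc ξ : Ix p κ → ℝ) i)
  have hy0 : ∀ i, act γ (inc (ξ + (0 : ℝ) • v) : Ix p κ → ℝ) i = act γ (inc ξ : Ix p κ → ℝ) i := by
    intro i
    rw [zero_smul, add_zero]
  have hN : HasDerivAt (fun c : ℝ => nsq (act γ (inc (ξ + c • v) : Ix p κ → ℝ))) 0 0 := by
    have h : HasDerivAt (fun c : ℝ => ∑ i, act γ (inc (ξ + c • v) : Ix p κ → ℝ) i ^ 2)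
        (∑ i, (2 : ℕ) * act γ (inc (ξ + (0 : ℝ) • v) : Ix p κ → ℝ) i ^ (2 - 1) * act γ (inc v : Ix p κ → ℝ) i) 0 :=
      HasDerivAt.fun_sum fun i _ => (hy i).pow 2
    have e : ∑ i, ((2 : ℕ) : ℝ) * act γ (inc (ξ + (0 : ℝ) • v) : Ix p κ → ℝ) i ^ (2 - 1) *
        act γ (inc v : Ix p κ → ℝ) i = 0 := by
      have e1 : ∀ i ∈ (Finset.univ : Finset (Ix p κ)), ((2 : ℕ) : ℝ) *
          act γ (inc (ξ + (0 : ℝ) • v) : Ix p κ → ℝ) i ^ (2 - 1) * act γ (inc v : Ix p κ → ℝ) i =
          2 * (act γ (inc ξ : Ix p κ → ℝ) i * act γ (inc v : Ix p κ → ℝ) i) := by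
        intro i _
        rw [hy0 i]
        norm_num
        ring
      rw [Finset.sum_congr rfl e1, ← Finset.mul_sum, hv, mul_zero]
    rw [e] at h
    exact h
  have hN0 : nsq (act γ (inc (ξ + (0 : ℝ) • v) : Ix p κ → ℝ)) = 1 := by
    rw [zero_smul, add_zero]
    exact h1
  have key : ∀ (g : ℝ → ℝ) (g' : ℝ), HasDerivAt g g' 0 →
      HasDerivAt (fun c : ℝ => g c / nsq (act γ (inc (ξ + c • v) : Ix p κ → ℝ))) g' 0 := by
    intro g g' hg
    have h := hg.fun_div hN (by rw [hN0]; exact one_ne_zero)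
    rw [hN0] at h
    simpa using h
  rw [hasDerivAt_pi]
  intro z
  cases z with
  | inl b =>
    have h := key _ _ ((hy b.1).mul (hy b.2))
    rw [hy0 b.1, hy0 b.2] at h
    exact h
  | inr s =>
    have ht : HasDerivAt (fun c : ℝ => tR G ε γ W (inc (ξ + c • v) : Ix p κ → ℝ) s) (tvel G ε γ W ξ v s) 0 := by
      have h := (hasFDeriv (tR G ε γ W (inc X : Ix p κ → MvPolynomial (Fin (p + 1)) ℝ) s) ξ).hasFDerivAt
      have h2 : HasDerivAt (fun c : ℝ => eval (ξ + c • v) (tR G ε γ W (inc X : Ix p κ → MvPolynomial (Fin (p + 1)) ℝ) s))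
          ((∑ x, eval ξ (pderiv x (tR G ε γ W (inc X : Ix p κ → MvPolynomial (Fin (p + 1)) ℝ) s)) •
            (ContinuousLinearMap.proj x : (Fin (p + 1) → ℝ) →L[ℝ] ℝ)) v) 0 := by
        have h3 := h.hasLineDerivAt v
        exact h3
      have e : (fun c : ℝ => eval (ξ + c • v) (tR G ε γ W (inc X : Ix p κ → MvPolynomial (Fin (p + 1)) ℝ) s)) =
          fun c : ℝ => tR G ε γ W (inc (ξ + c • v) : Ix p κ → ℝ) s := by
        funext c
        exact tR_eval G ε γ W (ξ + c • v) s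
      rw [e] at h2
      have e2 : (∑ x, eval ξ (pderiv x (tR G ε γ W (inc X : Ix p κ → MvPolynomial (Fin (p + 1)) ℝ) s)) •
            (ContinuousLinearMap.proj x : (Fin (p + 1) → ℝ) →L[ℝ] ℝ)) v = tvel G ε γ W ξ v s := by
        unfold tvel
        simp only [sum_apply, smul_apply, ContinuousLinearMap.proj_apply, smul_eq_mul]
      rw [e2] at h2
      exact h2
    exact key _ _ ht

theorem sig_cons (hγ : IsUnit γ.det) (b : Fin p → ℝ) (l : ℝ) (hl : l ≠ 0)
    (T0 : Submodule ℝ (Amb (Ix p κ) (Tx p r κ) → ℝ))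
    (h : ∀ b', fderiv ℝ (fun b : Fin p → ℝ => sig G ε γ W (Fin.cons 1 b)) b b' ∈ T0 → b' = 0)
    (v : Fin (p + 1) → ℝ) (hv : fderiv ℝ (fun x => sig G ε γ W x) (l • Fin.cons 1 b) v ∈ T0) :
    ∃ c : ℝ, v = c • (l • (Fin.cons 1 b : Fin (p + 1) → ℝ)) := by
  have hx : (Fin.cons 1 b : Fin (p + 1) → ℝ) ≠ 0 := by
    intro h0
    have := congrFun h0 0
    simp at this
  have hd : ∀ y : Fin (p + 1) → ℝ, y ≠ 0 → DifferentiableAt ℝ (fun x => sig G ε γ W x) y := by
    intro y hy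
    exact sig_diff G ε γ W y (nsq_pos γ hγ y hy).ne'
  have hdx := hd _ hx
  have hdl := hd (l • (Fin.cons 1 b : Fin (p + 1) → ℝ)) (smul_ne_zero hl hx)
  -- claim 1
  have c1 : l • fderiv ℝ (fun x => sig G ε γ W x) (l • (Fin.cons 1 b : Fin (p + 1) → ℝ)) v =
      fderiv ℝ (fun x => sig G ε γ W x) (Fin.cons 1 b) v := by
    have h2 : HasFDerivAt (fun z : Fin (p + 1) → ℝ => l • z)
        (l • ContinuousLinearMap.id ℝ (Fin (p + 1) → ℝ)) (Fin.cons 1 b) := by
      exact (hasFDerivAt_id _).const_smul l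
    have h3 := hdl.hasFDerivAt.comp (Fin.cons 1 b : Fin (p + 1) → ℝ) h2
    have e : (fun x => sig G ε γ W x) ∘ (fun z : Fin (p + 1) → ℝ => l • z) = fun x => sig G ε γ W x := by
      funext z
      exact sig_smul G ε γ W z l hl
    rw [e] at h3
    rw [h3.fderiv]
    simp
  -- claim 2
  have c2 : fderiv ℝ (fun x => sig G ε γ W x) (Fin.cons 1 b) (Fin.cons 1 b) = 0 := by
    rw [← hdx.lineDeriv_eq_fderiv]
    apply HasLineDerivAt.lineDeriv
    unfold HasLineDerivAt
    have h2 : HasDerivAt (fun _ : ℝ => sig G ε γ W (Fin.cons 1 b : Fin (p + 1) → ℝ)) 0 0 := hasDerivAt_const _ _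
    apply h2.congr_of_eventuallyEq
    have h3 : ∀ᶠ c : ℝ in nhds 0, 1 + c ≠ 0 := by
      have h4 : ContinuousAt (fun c : ℝ => 1 + c) 0 := by fun_prop
      exact h4.eventually_ne (by norm_num)
    filter_upwards [h3] with c hc
    have e : (Fin.cons 1 b : Fin (p + 1) → ℝ) + c • (Fin.cons 1 b : Fin (p + 1) → ℝ) =
        (1 + c) • (Fin.cons 1 b : Fin (p + 1) → ℝ) := by
      rw [add_smul, one_smul]
    rw [e]
    exact sig_smul G ε γ W _ _ hc
  -- claim 3
  have c3 : fderiv ℝ (fun b : Fin p → ℝ => sig G ε γ W (Fin.cons 1 b)) b (Fin.tail v - v 0 • b) =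
      fderiv ℝ (fun x => sig G ε γ W x) (Fin.cons 1 b) (Fin.cons 0 (Fin.tail v - v 0 • b)) := by
    have hc : DifferentiableAt ℝ (fun b : Fin p → ℝ => (Fin.cons 1 b : Fin (p + 1) → ℝ)) b := by
      rw [differentiableAt_pi]
      intro i
      refine Fin.cases ?_ ?_ i
      · simp
      · intro j
        simp only [Fin.cons_succ]
        exact differentiableAt_apply j b
    have hg : DifferentiableAt ℝ (fun b : Fin p → ℝ => sig G ε γ W (Fin.cons 1 b)) b :=
      DifferentiableAt.comp b (g := fun x => sig G ε γ W x) hdx hc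
    rw [← hg.lineDeriv_eq_fderiv, ← hdx.lineDeriv_eq_fderiv]
    unfold lineDeriv
    congr 1
    funext c
    have e : (Fin.cons 1 (b + c • (Fin.tail v - v 0 • b)) : Fin (p + 1) → ℝ) =
        Fin.cons 1 b + c • Fin.cons 0 (Fin.tail v - v 0 • b) := by
      funext i
      refine Fin.cases ?_ ?_ i
      · simp
      · intro j
        simp
    exact congrArg (sig G ε γ W) e
  have ev : v = v 0 • (Fin.cons 1 b : Fin (p + 1) → ℝ) + Fin.cons 0 (Fin.tail v - v 0 • b) := by
    funext i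
    refine Fin.cases ?_ ?_ i
    · simp
    · intro j
      simp [Fin.tail]
  have c4 : fderiv ℝ (fun b : Fin p → ℝ => sig G ε γ W (Fin.cons 1 b)) b (Fin.tail v - v 0 • b) ∈ T0 := by
    have h5 : fderiv ℝ (fun x => sig G ε γ W x) (Fin.cons 1 b) v =
        fderiv ℝ (fun b : Fin p → ℝ => sig G ε γ W (Fin.cons 1 b)) b (Fin.tail v - v 0 • b) := by
      conv_lhs => rw [ev]
      rw [map_add, map_smul, c2, smul_zero, zero_add, c3]
    rw [← h5, ← c1]
    exact T0.smul_mem l hv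
  have h6 := h _ c4
  refine ⟨v 0 / l, ?_⟩
  conv_lhs => rw [ev, h6]
  rw [smul_smul, div_mul_cancel₀ _ hl]
  funext i
  refine Fin.cases ?_ ?_ i
  · simp
  · intro j
    simp

end

end Pool.Agent.Helper72.BP
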