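import Pool.Agent.Helper72.BP.T.Sig
import Pool.Agent.Helper72.BP.T.Cay

/-!
PROJECT BP, module BP-T3: smoothness of the normalised section.

sigP_contDiffAt: contDiffAt_pi over the index of Amb: entries y_i y_j / nsq y and t_s / nsq y with y = act (of γ) (inc x) (polynomial in (γ, x)) and t = tR .. (tR_contDiffAt at (par0, inc x), composed with
the linear map (π, x) ↦ (π, inc x)); the denominator is nsq (inc x) = nsq x > 0 at par0 (x ≠ 0). par0 satisfies the hypotheses of tR_contDiffAt: Matrix.of par0.1 = 1, rho_one = 0 < 4 dl (dl_pos), det (1 + 0) = 1.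
sig_diff: for fixed γ, W the entries of Sec are polynomials in x (finite sums of constants times products of coordinates), divide by nsq ≠ 0.
sigP_strict: b ↦ Fin.cons 1 b is smooth (componentwise: Fin.cases), and it is ≠ 0. (ContDiffAt ..).hasStrictFDerivAt. The composition with b ↦ (par0, b) is b ↦ sig 1 0 (cons 1 b), and
Lam a j (sig 1 0 (cons 1 b)) = y_(j+1) y_0 / nsq y + ∑_k a_jk * 0 = b_j / (1 + ∑ b_i^2), y = inc (cons 1 b) (Fin.sum_univ_succ; act_one). Its derivative at 0 is b ↦ b_j: HasFDerivAt.div of b_j and 1 + ∑ b_i^2 at 0;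
uniqueness of the derivative (Lam a j is a continuous linear function, compose).
-/

set_option autoImplicit false
set_option synthInstance.maxSize 2000

namespace Pool.Agent.Helper72.BP

open MvPolynomial

section

variable {p r : ℕ} {κ : Type} [Fintype κ] [DecidableEq κ]

private theorem act_re {ι τ : Type} [Fintype τ] (A : Matrix ι τ ℝ) (u : τ → ℝ) (s : ι) :
    act A u s = ∑ x, A s x * u x := rfl

private theorem nsq_inc (x : Fin (p + 1) → ℝ) : nsq (inc x : Ix p κ → ℝ) = ∑ i, x i ^ 2 := by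
  unfold nsq
  rw [Fintype.sum_sum_type]
  have h2 : ∑ k : κ, (inc x : Ix p κ → ℝ) (Sum.inr k) ^ 2 = 0 := Finset.sum_eq_zero fun k _ => by
    change (0 : ℝ) ^ 2 = 0
    norm_num
  rw [h2, add_zero]
  rfl

private theorem cd_inc {E : Type} [NormedAddCommGroup E] [NormedSpace ℝ E] (f : E → Fin (p + 1) → ℝ) (z : E)
    (hf : ContDiffAt ℝ 1 f z) (i : Ix p κ) : ContDiffAt ℝ 1 (fun z => (inc (f z) : Ix p κ → ℝ) i) z := by
  rcases i with i | k
  · exact contDiffAt_pi.1 hf i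
  · exact contDiffAt_const

private theorem df_inc (x : Fin (p + 1) → ℝ) (i : Ix p κ) :
    DifferentiableAt ℝ (fun x => (inc x : Ix p κ → ℝ) i) x :=
  (cd_inc (fun x => x) x contDiffAt_id i).differentiableAt one_ne_zero

private theorem df_act {ι τ : Type} [Fintype τ] {E : Type} [NormedAddCommGroup E] [NormedSpace ℝ E] (A : Matrix ι τ ℝ)
    (u : E → τ → ℝ) (z : E) (hu : ∀ i, DifferentiableAt ℝ (fun z => u z i) z) (s : ι) :
    DifferentiableAt ℝ (fun z => act A (u z) s) z := by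
  simp only [act_re]
  exact DifferentiableAt.fun_sum fun k _ => (hu k).const_mul (A s k)

variable (G : Fin r → Matrix (Ix p κ) (Ix p κ) ℝ) (ε : ℝ)

theorem sigP_contDiffAt (hε : 0 < ε) (x : Fin (p + 1) → ℝ) (hx : x ≠ 0) :
    ContDiffAt ℝ 1 (fun z : Par (Ix p κ) (Tx p r κ) × (Fin (p + 1) → ℝ) => sigP G ε z.1 z.2) (par0, x) := by
  have e1 : (Matrix.of (par0 : Par (Ix p κ) (Tx p r κ)).1 : Matrix (Ix p κ) (Ix p κ) ℝ) = 1 := by
    ext i j
    rw [Matrix.one_apply]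
    rfl
  have e2 : (Matrix.of (par0 : Par (Ix p κ) (Tx p r κ)).2 : Matrix (Tx p r κ) (Tx p r κ) ℝ) = 0 := rfl
  have h2 : ContDiffAt ℝ 1 (fun z : Par (Ix p κ) (Tx p r κ) × (Fin (p + 1) → ℝ) => z.2) (par0, x) :=
    contDiff_snd.contDiffAt
  have h1 : ContDiffAt ℝ 1 (fun z : Par (Ix p κ) (Tx p r κ) × (Fin (p + 1) → ℝ) => z.1) (par0, x) :=
    contDiff_fst.contDiffAt
  have h11 : ContDiffAt ℝ 1 (fun z : Par (Ix p κ) (Tx p r κ) × (Fin (p + 1) → ℝ) => z.1.1) (par0, x) :=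
    contDiff_fst.contDiffAt.comp (par0, x) contDiff_fst.contDiffAt
  have hinc : ∀ i : Ix p κ, ContDiffAt ℝ 1
      (fun z : Par (Ix p κ) (Tx p r κ) × (Fin (p + 1) → ℝ) => (inc z.2 : Ix p κ → ℝ) i) (par0, x) :=
    fun i => cd_inc (fun z : Par (Ix p κ) (Tx p r κ) × (Fin (p + 1) → ℝ) => z.2) (par0, x) h2 i
  have hγ : ∀ i j : Ix p κ, ContDiffAt ℝ 1
      (fun z : Par (Ix p κ) (Tx p r κ) × (Fin (p + 1) → ℝ) => z.1.1 i j) (par0, x) :=
    fun i j => contDiffAt_pi.1 (contDiffAt_pi.1 h11 i) j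
  have hact : ∀ i : Ix p κ, ContDiffAt ℝ 1
      (fun z : Par (Ix p κ) (Tx p r κ) × (Fin (p + 1) → ℝ) => act (Matrix.of z.1.1) (inc z.2 : Ix p κ → ℝ) i)
      (par0, x) := by
    intro i
    simp only [act_re]
    exact ContDiffAt.sum fun k _ => (hγ i k).mul (hinc k)
  have hnsq : ContDiffAt ℝ 1 (fun z : Par (Ix p κ) (Tx p r κ) × (Fin (p + 1) → ℝ) =>
      nsq (act (Matrix.of z.1.1) (inc z.2 : Ix p κ → ℝ))) (par0, x) := by
    unfold nsq
    exact ContDiffAt.sum fun k _ => (hact k).pow 2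
  have hne : nsq (act (Matrix.of (par0 : Par (Ix p κ) (Tx p r κ)).1) (inc x : Ix p κ → ℝ)) ≠ 0 := by
    rw [e1]
    refine (nsq_pos 1 ?_ x hx).ne'
    rw [Matrix.det_one]
    exact isUnit_one
  have htR : ContDiffAt ℝ 1 (fun z : Par (Ix p κ) (Tx p r κ) × (Fin (p + 1) → ℝ) =>
      tR G ε (Matrix.of z.1.1) (Matrix.of z.1.2) (inc z.2 : Ix p κ → ℝ)) (par0, x) := by
    have h3 := tR_contDiffAt G ε (par0 : Par (Ix p κ) (Tx p r κ)) (inc x : Ix p κ → ℝ)
      (fun a b => by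
        rw [e1, rho_one, abs_zero]
        have := dl_pos p κ ε hε
        positivity)
      (by
        rw [e2, add_zero, Matrix.det_one]
        exact one_ne_zero)
    exact ContDiffAt.comp (par0, x)
      (g := fun z : ((Ix p κ → Ix p κ → ℝ) × (Tx p r κ → Tx p r κ → ℝ)) × (Ix p κ → ℝ) =>
        tR G ε (Matrix.of z.1.1) (Matrix.of z.1.2) z.2)
      (f := fun z : Par (Ix p κ) (Tx p r κ) × (Fin (p + 1) → ℝ) => (z.1, (inc z.2 : Ix p κ → ℝ)))
      h3 (h1.prodMk (contDiffAt_pi.2 hinc))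
  rw [contDiffAt_pi]
  intro i
  rcases i with a | s
  · exact ((hact a.1).mul (hact a.2)).div hnsq hne
  · exact (contDiffAt_pi.1 htR s).div hnsq hne

theorem sig_diff (γ : Matrix (Ix p κ) (Ix p κ) ℝ) (W : Matrix (Tx p r κ) (Tx p r κ) ℝ) (x : Fin (p + 1) → ℝ)
    (h : nsq (act γ (inc x : Ix p κ → ℝ)) ≠ 0) : DifferentiableAt ℝ (fun x => sig G ε γ W x) x := by
  have hact : ∀ i : Ix p κ, DifferentiableAt ℝ (fun x => act γ (inc x : Ix p κ → ℝ) i) x :=
    fun i => df_act γ (fun x => (inc x : Ix p κ → ℝ)) x (fun k => df_inc x k) i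
  have hnsq : DifferentiableAt ℝ (fun x => nsq (act γ (inc x : Ix p κ → ℝ))) x := by
    unfold nsq
    exact DifferentiableAt.fun_sum fun k _ => (hact k).pow 2
  have hu : ∀ s : Tx p r κ, DifferentiableAt ℝ (fun x => uR G ε γ (inc x : Ix p κ → ℝ) s) x := by
    intro s
    rcases s with j | s
    · rcases j with a | ab | ab
      · exact ((df_inc x a.1).mul (df_inc x a.2)).const_mul (sq G ε γ (Sum.inl a))
      · exact (((df_inc x ab.1.1).mul (df_inc x ab.1.2)).add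
          ((df_inc x ab.2.1).mul (df_inc x ab.2.2))).const_mul (sq G ε γ (Sum.inr (Sum.inl ab)))
      · exact (((df_inc x ab.1.1).mul (df_inc x ab.1.2)).sub
          ((df_inc x ab.2.1).mul (df_inc x ab.2.2))).const_mul (sq G ε γ (Sum.inr (Sum.inr ab)))
    · exact differentiableAt_const _
  have ht : ∀ s : Tx p r κ, DifferentiableAt ℝ (fun x => tR G ε γ W (inc x : Ix p κ → ℝ) s) x :=
    fun s => df_act (cay W) (fun x => uR G ε γ (inc x : Ix p κ → ℝ)) x hu s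
  rw [differentiableAt_pi]
  intro i
  have hinv : DifferentiableAt ℝ (fun x => (nsq (act γ (inc x : Ix p κ → ℝ)))⁻¹) x := hnsq.fun_inv h
  rcases i with a | s
  · exact ((hact a.1).fun_mul (hact a.2)).fun_mul hinv
  · exact (ht s).fun_mul hinv

theorem Lam_sig (a : Fin p → κ → ℝ) (j : Fin p) (b : Fin p → ℝ) :
    Lam a j (sig G ε 1 0 (Fin.cons 1 b) : Amb (Ix p κ) (Tx p r κ) → ℝ) = b j / (1 + ∑ i, b i ^ 2) := by
  have h1 : nsq (inc (Fin.cons 1 b : Fin (p + 1) → ℝ) : Ix p κ → ℝ) = 1 + ∑ i, b i ^ 2 := by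
    rw [nsq_inc, Fin.sum_univ_succ]
    simp only [Fin.cons_zero, Fin.cons_succ, one_pow]
  have h2 : ∀ i i' : Ix p κ, (sig G ε 1 0 (Fin.cons 1 b) : Amb (Ix p κ) (Tx p r κ) → ℝ) (Sum.inl (i, i')) =
      (inc (Fin.cons 1 b : Fin (p + 1) → ℝ) : Ix p κ → ℝ) i *
        (inc (Fin.cons 1 b : Fin (p + 1) → ℝ) : Ix p κ → ℝ) i' / (1 + ∑ i, b i ^ 2) := by
    intro i i'
    change act 1 (inc (Fin.cons 1 b : Fin (p + 1) → ℝ) : Ix p κ → ℝ) i *
      act 1 (inc (Fin.cons 1 b : Fin (p + 1) → ℝ) : Ix p κ → ℝ) i' /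
        nsq (act 1 (inc (Fin.cons 1 b : Fin (p + 1) → ℝ) : Ix p κ → ℝ)) = _
    rw [act_one, h1]
  have h3 : (inc (Fin.cons 1 b : Fin (p + 1) → ℝ) : Ix p κ → ℝ) (Sum.inl j.succ) = b j := rfl
  have h4 : (inc (Fin.cons 1 b : Fin (p + 1) → ℝ) : Ix p κ → ℝ) (Sum.inl 0) = 1 := rfl
  have h5 : ∀ k, (inc (Fin.cons 1 b : Fin (p + 1) → ℝ) : Ix p κ → ℝ) (Sum.inr k) = 0 := fun _ => rfl
  have h6 : ∑ k, a j k * (sig G ε 1 0 (Fin.cons 1 b) : Amb (Ix p κ) (Tx p r κ) → ℝ)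
      (Sum.inl (Sum.inr k, Sum.inl 0)) = 0 := Finset.sum_eq_zero fun k _ => by
    rw [h2, h5, zero_mul, zero_div, mul_zero]
  unfold Lam
  rw [h6, h2, h3, h4, mul_one, add_zero]

theorem sigP_strict (hε : 0 < ε) (a : Fin p → κ → ℝ) :
    ∃ σ' : (Par (Ix p κ) (Tx p r κ) × (Fin p → ℝ)) →L[ℝ] (Amb (Ix p κ) (Tx p r κ) → ℝ),
      HasStrictFDerivAt (fun z : Par (Ix p κ) (Tx p r κ) × (Fin p → ℝ) => sigP G ε z.1 (Fin.cons 1 z.2)) σ'
        (par0, 0) ∧ ∀ (b : Fin p → ℝ) (j : Fin p), Lam a j (σ' (0, b)) = b j := by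
  have hcons : ContDiffAt ℝ 1 (fun z : Par (Ix p κ) (Tx p r κ) × (Fin p → ℝ) =>
      (Fin.cons 1 z.2 : Fin (p + 1) → ℝ)) (par0, 0) := by
    rw [contDiffAt_pi]
    intro i
    refine Fin.cases ?_ (fun i => ?_) i
    · exact contDiffAt_const
    · exact contDiffAt_pi.1 contDiff_snd.contDiffAt i
  have hne : (Fin.cons 1 (0 : Fin p → ℝ) : Fin (p + 1) → ℝ) ≠ 0 := fun h => one_ne_zero (congrFun h 0)
  have hF : ContDiffAt ℝ 1 (fun z : Par (Ix p κ) (Tx p r κ) × (Fin p → ℝ) => sigP G ε z.1 (Fin.cons 1 z.2))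
      (par0, 0) :=
    ContDiffAt.comp (par0, 0)
      (g := fun z : Par (Ix p κ) (Tx p r κ) × (Fin (p + 1) → ℝ) => sigP G ε z.1 z.2)
      (f := fun z : Par (Ix p κ) (Tx p r κ) × (Fin p → ℝ) => (z.1, (Fin.cons 1 z.2 : Fin (p + 1) → ℝ)))
      (sigP_contDiffAt G ε hε _ hne) (contDiff_fst.contDiffAt.prodMk hcons)
  have hS := hF.hasStrictFDerivAt one_ne_zero
  refine ⟨_, hS, fun b j => ?_⟩
  generalize fderiv ℝ (fun z : Par (Ix p κ) (Tx p r κ) × (Fin p → ℝ) => sigP G ε z.1 (Fin.cons 1 z.2))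
    (par0, 0) = σ' at hS
  -- the curve
  have hc : HasDerivAt (fun t : ℝ => ((par0 : Par (Ix p κ) (Tx p r κ)), t • b)) ((0 : Par (Ix p κ) (Tx p r κ)), b)
      (0 : ℝ) := by
    refine (hasDerivAt_const (0 : ℝ) (par0 : Par (Ix p κ) (Tx p r κ))).prodMk ?_
    have h := (hasDerivAt_id (0 : ℝ)).smul_const b
    rwa [one_smul] at h
  have hS' : HasFDerivAt (fun z : Par (Ix p κ) (Tx p r κ) × (Fin p → ℝ) => sigP G ε z.1 (Fin.cons 1 z.2)) σ'
      ((par0 : Par (Ix p κ) (Tx p r κ)), (0 : ℝ) • b) := by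
    rw [zero_smul]
    exact hS.hasFDerivAt
  have hd := hS'.comp_hasDerivAt (0 : ℝ) hc
  have hd' := hasDerivAt_pi.1 hd
  have hL : HasDerivAt (fun t : ℝ => Lam a j
      (sigP G ε (par0 : Par (Ix p κ) (Tx p r κ)) (Fin.cons 1 (t • b)) : Amb (Ix p κ) (Tx p r κ) → ℝ))
      (Lam a j (σ' (0, b))) 0 := by
    unfold Lam
    exact (hd' _).add (HasDerivAt.fun_sum fun k _ => (hd' _).const_mul (a j k))
  have hR : HasDerivAt (fun t : ℝ => Lam a j
      (sigP G ε (par0 : Par (Ix p κ) (Tx p r κ)) (Fin.cons 1 (t • b)) : Amb (Ix p κ) (Tx p r κ) → ℝ)) (b j) 0 := by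
    have e : (fun t : ℝ => Lam a j
        (sigP G ε (par0 : Par (Ix p κ) (Tx p r κ)) (Fin.cons 1 (t • b)) : Amb (Ix p κ) (Tx p r κ) → ℝ)) =
        fun t : ℝ => (t * b j) / (1 + t ^ 2 * ∑ i, b i ^ 2) := by
      funext t
      rw [sigP_par0, Lam_sig, Pi.smul_apply, smul_eq_mul, Finset.mul_sum]
      refine congrArg (fun q => t * b j / (1 + q)) (Finset.sum_congr rfl fun i _ => ?_)
      rw [Pi.smul_apply, smul_eq_mul, mul_pow]
    rw [e]
    have h1 : HasDerivAt (fun t : ℝ => t * b j) (b j) 0 := by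
      have h := (hasDerivAt_id (0 : ℝ)).mul_const (b j)
      rwa [one_mul] at h
    have h2 : HasDerivAt (fun t : ℝ => 1 + t ^ 2 * ∑ i, b i ^ 2) 0 0 := by
      have h := ((hasDerivAt_pow 2 (0 : ℝ)).mul_const (∑ i, b i ^ 2)).const_add 1
      simpa using h
    have h3 := h1.fun_div h2 (by norm_num)
    simpa using h3
  exact hL.unique hR

end

end Pool.Agent.Helper72.BP
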