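import Pool.Agent.Helper72.BP.IfT4
import Pool.Agent.Helper72.BP.T.SigDeriv
import Pool.Agent.Helper72.BP.T.Dim

/-!
PROJECT BP, module BP-T11: transversality at the intersection point.

Put x := Sec G ε γ W ξ = (act γ (inc ξ), tR .. (inc ξ)) ∈ lift Z' (hξ1, hξ), w := Sum.elim x.1 x.2. t4_reg gives f with f j ∈ J := coneIdeal (lift Z'), and for h ∈ J some D with D(w) ≠ 0, D h ∈ (F, f). These are the first two claims. For the third use
indep_of_ker with g j a = eval ξ (pderiv a (aeval (Sum.elim (act γ (inc X)) (tR .. (inc X))) (f j))): let v be killed by all g j.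
(1) by `chain`: ∑_a g j a * v a = ∑_x grad w (f j) x * ω x, ω := Sum.elim (act γ (inc v)) (tvel ξ v) (act_vel, tR_eval, Fintype.sum_sum_type, the point (fun x => eval ξ (g x)) is w: tR_eval and the same for act).
    So f j is killed by ω; F as well: aeval (..) (Fpol) = Ffun .. = 0 (aeval_Fpol, hF), chain again. All of F, f j vanish at w (lift_isZero; Fpol by t4_sub and aeval_Fpol). So `kill` gives ∑ grad w h ω = 0 for all h ∈ J.
(2) the same for v = ξ: ω_ξ = (y, 2t) and ∑ grad w h ω_ξ = 0 for h ∈ J: apply (1)-type argument: ∑_x grad w h x ω_ξ x is the derivative at s = 0 of s ↦ h((1+s) y, (1+s)^2 t) = 0 (coneIdeal: h vanishes on the whole orbit; hasFDeriv and chain rule).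
(3) v1 := v - α • ξ with α := ∑_i y_i (act γ (inc v))_i, y = act γ (inc ξ), nsq y = 1: then ∑ y_i (act γ (inc v1))_i = 0 and v1 is killed: ω_(v1) = ω_v - α ω_ξ (linearity of act, inc, tvel).
(4) t4_tan with (act γ (inc v1), tvel ξ v1): every P vanishing on Z' has ∑_a eval (emb x) (pderiv a P) * ζ a = 0, ζ = Sum.elim (..) (tvel ξ v1) = fderiv (sig) ξ v1 (sig_fderiv). dim_part: ζ ∈ T0. hk: v1 = c • ξ, so v = (c + α) • ξ.
-/

set_option autoImplicit false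
set_option synthInstance.maxSize 2000

namespace Pool.Agent.Helper72.BP

open MvPolynomial
open Pool.Agent.Helper79.BP

private theorem tan_w {p r : ℕ} {κ : Type} [Fintype κ] [DecidableEq κ] (G : Fin r → Matrix (Ix p κ) (Ix p κ) ℝ) (ε : ℝ)
    (γ : Matrix (Ix p κ) (Ix p κ) ℝ) (W : Matrix (Tx p r κ) (Tx p r κ) ℝ) (ξ : Fin (p + 1) → ℝ) :
    (fun x => eval ξ ((Sum.elim (act γ (inc X)) (tR G ε γ W (inc X)) :
      Var (Ix p κ) (Tx p r κ) → MvPolynomial (Fin (p + 1)) ℝ) x)) =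
      (Sum.elim (act γ (inc ξ)) (tR G ε γ W (inc ξ)) : Var (Ix p κ) (Tx p r κ) → ℝ) := by
  funext x
  rcases x with i | s
  · simp only [Sum.elim_inl]
    rw [act_map (eval ξ) (fun a => by rw [MvPolynomial.algebraMap_eq, eval_C]; rfl)]
    congr 1
    funext j
    rcases j with j | j
    · simp [inc]
    · simp [inc]
  · simp only [Sum.elim_inr]
    exact tR_eval G ε γ W ξ s

private theorem tan_vel {p r : ℕ} {κ : Type} [Fintype κ] [DecidableEq κ] (G : Fin r → Matrix (Ix p κ) (Ix p κ) ℝ) (ε : ℝ)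
    (γ : Matrix (Ix p κ) (Ix p κ) ℝ) (W : Matrix (Tx p r κ) (Tx p r κ) ℝ) (ξ v : Fin (p + 1) → ℝ)
    (h : MvPolynomial (Var (Ix p κ) (Tx p r κ)) ℝ) :
    ∑ a, eval ξ (pderiv a (aeval (Sum.elim (act γ (inc X)) (tR G ε γ W (inc X)) :
      Var (Ix p κ) (Tx p r κ) → MvPolynomial (Fin (p + 1)) ℝ) h)) * v a =
    ∑ x, grad (Sum.elim (act γ (inc ξ)) (tR G ε γ W (inc ξ)) : Var (Ix p κ) (Tx p r κ) → ℝ) h x *
      (Sum.elim (act γ (inc v)) (tvel G ε γ W ξ v) : Var (Ix p κ) (Tx p r κ) → ℝ) x := by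
  rw [chain, tan_w]
  refine Finset.sum_congr rfl fun x _ => ?_
  rcases x with i | s
  · simp only [Sum.elim_inl]
    rw [act_vel]
  · simp only [Sum.elim_inr]
    rfl

private theorem tan_radial {ι τ : Type} [Fintype ι] [Fintype τ] (Z : Set ((ι → ℝ) × (τ → ℝ))) (x : (ι → ℝ) × (τ → ℝ))
    (hx : x ∈ Z) (h : MvPolynomial (Var ι τ) ℝ) (hh : h ∈ coneIdeal Z) :
    ∑ z, grad (Sum.elim x.1 x.2 : Var ι τ → ℝ) h z * (Sum.elim x.1 (fun s => 2 * x.2 s) : Var ι τ → ℝ) z = 0 := by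
  have hc : HasDerivAt (fun s : ℝ => (Sum.elim (s • x.1) (s ^ 2 • x.2) : Var ι τ → ℝ))
      (Sum.elim x.1 (fun s => 2 * x.2 s) : Var ι τ → ℝ) 1 := by
    rw [hasDerivAt_pi]
    intro z
    rcases z with i | s
    · simp only [Sum.elim_inl, Pi.smul_apply, smul_eq_mul]
      simpa using (hasDerivAt_id (1 : ℝ)).mul_const (x.1 i)
    · simp only [Sum.elim_inr, Pi.smul_apply, smul_eq_mul]
      simpa using ((hasDerivAt_id (1 : ℝ)).pow 2).mul_const (x.2 s)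
  have h1 : (Sum.elim ((1 : ℝ) • x.1) ((1 : ℝ) ^ 2 • x.2) : Var ι τ → ℝ) = Sum.elim x.1 x.2 := by
    rw [one_pow, one_smul, one_smul]
  have hf := (hasFDeriv h (Sum.elim x.1 x.2 : Var ι τ → ℝ)).hasFDerivAt
  rw [← h1] at hf
  have hd := hf.comp_hasDerivAt (1 : ℝ) hc
  have hz : (fun w => eval w h) ∘ (fun s : ℝ => (Sum.elim (s • x.1) (s ^ 2 • x.2) : Var ι τ → ℝ)) = fun _ => (0 : ℝ) := by
    funext s
    have := hh x hx s
    simpa [MvPolynomial.coe_aeval_eq_eval] using this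
  rw [hz] at hd
  have he := hd.unique (hasDerivAt_const (1 : ℝ) (0 : ℝ))
  rw [h1] at he
  simpa [grad, MvPolynomial.coe_aeval_eq_eval] using he

theorem tan_part {p m r : ℕ} {κ : Type} [Fintype κ] [DecidableEq κ] (G : Fin r → Matrix (Ix p κ) (Ix p κ) ℝ)
    (q : (Fin m → ℂ) → Ix p κ → ℝ) (ε : ℝ) (hT : IsTube G q ε) (d : ℕ)
    (hd : d + p + 2 = Fintype.card (Ix p κ) + Fintype.card (Tx p r κ))
    (Z' : Set (Amb (Ix p κ) (Tx p r κ) → ℝ)) (hZ' : Z' ⊆ Vemb G ε) (hNZ : IsNZ d Z')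
    (γ : Matrix (Ix p κ) (Ix p κ) ℝ) (W : Matrix (Tx p r κ) (Tx p r κ) ℝ)
    (hF : Ffun G ε (act γ (inc X)) (tR G ε γ W (inc X)) = (0 : MvPolynomial (Fin (p + 1)) ℝ))
    (ξ : Fin (p + 1) → ℝ) (hξ1 : nsq (act γ (inc ξ : Ix p κ → ℝ)) = 1) (hξ : emb (Sec G ε γ W ξ) ∈ Z')
    (T0 : Submodule ℝ (Amb (Ix p κ) (Tx p r κ) → ℝ)) (hd0 : Module.finrank ℝ T0 = d)
    (hc : ∀ u ∈ T0, ∃ c : ℝ → (Amb (Ix p κ) (Tx p r κ) → ℝ), c 0 = emb (Sec G ε γ W ξ) ∧ HasDerivAt c u 0 ∧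
      ∀ᶠ s in nhds (0 : ℝ), c s ∈ Z')
    (hk : ∀ v, fderiv ℝ (fun x => sig G ε γ W x) ξ v ∈ T0 → ∃ c : ℝ, v = c • ξ) :
    ∃ f : Fin p → MvPolynomial (Var (Ix p κ) (Tx p r κ)) ℝ, (∀ j, f j ∈ coneIdeal (lift Z')) ∧
      (∀ h ∈ coneIdeal (lift Z'), ∃ D : MvPolynomial (Var (Ix p κ) (Tx p r κ)) ℝ,
        aeval (Sum.elim (act γ (inc ξ)) (tR G ε γ W (inc ξ)) : Var (Ix p κ) (Tx p r κ) → ℝ) D ≠ 0 ∧
          D * h ∈ Ideal.span (insert (Fpol G ε) (Set.range f))) ∧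
      LinearIndependent ℝ (fun j : Fin p => fun a : Fin (p + 1) =>
        eval ξ (pderiv a (aeval (Sum.elim (act γ (inc X)) (tR G ε γ W (inc X)) :
          Var (Ix p κ) (Tx p r κ) → MvPolynomial (Fin (p + 1)) ℝ) (f j)))) := by
  classical
  set w : Var (Ix p κ) (Tx p r κ) → ℝ := Sum.elim (act γ (inc ξ)) (tR G ε γ W (inc ξ)) with hwdef
  have hx : Sec G ε γ W ξ ∈ lift Z' := ⟨hξ1, hξ⟩
  obtain ⟨f, hfJ, -, hD⟩ := t4_reg G q ε hT d hd Z' hZ' hNZ (Sec G ε γ W ξ) hx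
  refine ⟨f, hfJ, hD, ?_⟩
  have hzero : ∀ h ∈ coneIdeal (lift Z'), aeval w h = 0 := fun h hh => lift_isZero Z' _ hx h hh
  have hVt : Sec G ε γ W ξ ∈ Vt G ε := t4_sub G q ε hT d hd Z' hZ' hNZ hx
  have hFw : aeval w (Fpol G ε : MvPolynomial (Var (Ix p κ) (Tx p r κ)) ℝ) = 0 := by
    rw [hwdef, aeval_Fpol]
    exact hVt.2
  have hFpol : aeval (Sum.elim (act γ (inc X)) (tR G ε γ W (inc X)) :
      Var (Ix p κ) (Tx p r κ) → MvPolynomial (Fin (p + 1)) ℝ) (Fpol G ε) = 0 := by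
    rw [aeval_Fpol]
    exact hF
  -- radial direction
  have hrad : ∀ h ∈ coneIdeal (lift Z'), ∑ x, grad w h x *
      (Sum.elim (act γ (inc ξ)) (tvel G ε γ W ξ ξ) : Var (Ix p κ) (Tx p r κ) → ℝ) x = 0 := by
    intro h hh
    have h1 := tan_radial (lift Z') (Sec G ε γ W ξ) hx h hh
    have h2 : (Sum.elim (act γ (inc ξ)) (tvel G ε γ W ξ ξ) : Var (Ix p κ) (Tx p r κ) → ℝ) =
        Sum.elim (Sec G ε γ W ξ).1 (fun s => 2 * (Sec G ε γ W ξ).2 s) := by
      congr 1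
      funext s
      exact tvel_radial G ε γ W ξ s
    rw [h2]
    exact h1
  refine indep_of_ker _ ξ fun v hv => ?_
  -- killed by the whole ideal
  have hkill : ∀ h ∈ coneIdeal (lift Z'), ∑ x, grad w h x *
      (Sum.elim (act γ (inc v)) (tvel G ε γ W ξ v) : Var (Ix p κ) (Tx p r κ) → ℝ) x = 0 := by
    intro h hh
    obtain ⟨D, hD1, hD2⟩ := hD h hh
    refine kill w _ (insert (Fpol G ε) (Set.range f)) ?_ D h hD1 (hzero h hh) hD2
    intro f' hf'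
    rcases hf' with rfl | ⟨j, rfl⟩
    · refine ⟨hFw, ?_⟩
      rw [hwdef, ← tan_vel, hFpol]
      simp
    · refine ⟨hzero _ (hfJ j), ?_⟩
      rw [hwdef, ← tan_vel]
      exact hv j
  set y : Ix p κ → ℝ := act γ (inc ξ) with hy
  set α : ℝ := ∑ i, y i * act γ (inc v) i with hα
  have hinc : (inc (v - α • ξ) : Ix p κ → ℝ) = inc v + (-α) • inc ξ := by
    funext i
    rcases i with i | i
    · simp [inc]
      ring
    · simp [inc]
  have hact : act γ (inc (v - α • ξ) : Ix p κ → ℝ) = act γ (inc v) + (-α) • y := by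
    rw [hinc, act_add, act_smul]
  have htv : tvel G ε γ W ξ (v - α • ξ) = tvel G ε γ W ξ v + (-α) • tvel G ε γ W ξ ξ := by
    funext s
    simp only [tvel, Pi.add_apply, Pi.sub_apply, Pi.smul_apply, smul_eq_mul, Finset.mul_sum, ← Finset.sum_add_distrib]
    exact Finset.sum_congr rfl fun a _ => by ring
  have hsum : ∑ i, y i * act γ (inc (v - α • ξ) : Ix p κ → ℝ) i = 0 := by
    rw [hact]
    simp only [Pi.add_apply, Pi.smul_apply, smul_eq_mul, mul_add, Finset.sum_add_distrib]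
    have h1 : ∑ i, y i * (-α * y i) = -α * nsq y := by
      unfold nsq
      rw [Finset.mul_sum]
      exact Finset.sum_congr rfl fun i _ => by ring
    rw [h1, hξ1, ← hα]
    ring
  have hkill1 : ∀ h ∈ coneIdeal (lift Z'), ∑ x, grad w h x *
      (Sum.elim (act γ (inc (v - α • ξ))) (tvel G ε γ W ξ (v - α • ξ)) : Var (Ix p κ) (Tx p r κ) → ℝ) x = 0 := by
    intro h hh
    have h1 := hkill h hh
    have h2 := hrad h hh
    have h3 : ∀ x, (Sum.elim (act γ (inc (v - α • ξ))) (tvel G ε γ W ξ (v - α • ξ)) : Var (Ix p κ) (Tx p r κ) → ℝ) x =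
        (Sum.elim (act γ (inc v)) (tvel G ε γ W ξ v) : Var (Ix p κ) (Tx p r κ) → ℝ) x +
        (-α) * (Sum.elim y (tvel G ε γ W ξ ξ) : Var (Ix p κ) (Tx p r κ) → ℝ) x := by
      intro x
      rcases x with i | s
      · simp only [Sum.elim_inl, hact, Pi.add_apply, Pi.smul_apply, smul_eq_mul]
      · simp only [Sum.elim_inr, htv, Pi.add_apply, Pi.smul_apply, smul_eq_mul]
    have h4 : ∑ x, grad w h x *
        (Sum.elim (act γ (inc (v - α • ξ))) (tvel G ε γ W ξ (v - α • ξ)) : Var (Ix p κ) (Tx p r κ) → ℝ) x =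
        ∑ x, grad w h x * (Sum.elim (act γ (inc v)) (tvel G ε γ W ξ v) : Var (Ix p κ) (Tx p r κ) → ℝ) x +
        (-α) * ∑ x, grad w h x * (Sum.elim y (tvel G ε γ W ξ ξ) : Var (Ix p κ) (Tx p r κ) → ℝ) x := by
      rw [Finset.mul_sum, ← Finset.sum_add_distrib]
      exact Finset.sum_congr rfl fun x _ => by rw [h3 x]; ring
    rw [h4, h1, h2, mul_zero, add_zero]
  have hT0 : fderiv ℝ (fun x => sig G ε γ W x) ξ (v - α • ξ) ∈ T0 := by
    rw [sig_fderiv G ε γ W ξ (v - α • ξ) hξ1 hsum]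
    refine dim_part d Z' hNZ (emb (Sec G ε γ W ξ)) hξ T0 hd0 hc _ fun P hP => ?_
    refine t4_tan G q ε hT d hd Z' hZ' hNZ (Sec G ε γ W ξ) hx _ _ hsum (fun h hh => ?_) P hP
    have h1 := hkill1 h hh
    rw [Fintype.sum_sum_type] at h1
    exact h1
  obtain ⟨c, hc1⟩ := hk _ hT0
  exact ⟨c + α, by rw [add_smul, ← hc1, sub_add_cancel]⟩

end Pool.Agent.Helper72.BP
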