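import Mathlib

/-!
PROJECT BP, module BP-T5: zeros of a map close to a linear isomorphism.

T x := x - A.symm (f x). T x - T y = A.symm (A (x - y) - (f x - f y)), so ‖T x - T y‖ ≤ N c ‖x - y‖ ≤ ‖x - y‖ / 2 on the closed ball of radius R. T maps closedBall x0 (R/2) to itself: ‖T x - x0‖ ≤ ‖T x - T x0‖ + ‖T x0 - x0‖ ≤ R/4 + N ‖f x0‖ ≤ R/2.
Fixed point: `ContractingWith.exists_fixedPoint'` (complete set closedBall). T z = z iff f z = 0. Uniqueness on the big ball: if f z' = 0 = f z then ‖z' - z‖ = ‖T z' - T z‖ ≤ ‖z' - z‖/2.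
Derivative: z is in the open ball of radius R, so for small t: ‖f (z + t e) - f z - A (t e)‖ ≤ c t ‖e‖; divide by t, t → 0+: ‖f' e - A e‖ ≤ c ‖e‖ (HasFDerivAt gives the derivative of t ↦ f (z + t e)). If f' e = 0: ‖A e‖ ≤ c ‖e‖ = c ‖A.symm (A e)‖ ≤ c N ‖A e‖ ≤ ‖A e‖/2,
so A e = 0 and e = 0.
-/

set_option autoImplicit false
set_option synthInstance.maxSize 2000

namespace Pool.Agent.Helper72.BP

theorem zero_of_approx {E F : Type*} [NormedAddCommGroup E] [NormedSpace ℝ E] [CompleteSpace E]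
    [NormedAddCommGroup F] [NormedSpace ℝ F] (A : E ≃L[ℝ] F) (N : ℝ) (hN0 : 0 < N) (hN : ∀ y, ‖A.symm y‖ ≤ N * ‖y‖)
    (f : E → F) (x0 : E) (R : ℝ) (hR : 0 < R) (c : ℝ) (hc : 0 ≤ c) (hcN : c * N ≤ 1 / 2)
    (hf : ∀ x ∈ Metric.closedBall x0 R, ∀ y ∈ Metric.closedBall x0 R, ‖f x - f y - A (x - y)‖ ≤ c * ‖x - y‖)
    (h0 : ‖f x0‖ * N ≤ R / 4) :
    ∃ z ∈ Metric.closedBall x0 (R / 2), f z = 0 ∧ (∀ z' ∈ Metric.closedBall x0 R, f z' = 0 → z' = z) ∧
      ∀ f' : E →L[ℝ] F, HasFDerivAt f f' z → ∀ e, f' e = 0 → e = 0 := by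
  set T : E → E := fun x => x - A.symm (f x) with hT
  have hlip : ∀ x ∈ Metric.closedBall x0 R, ∀ y ∈ Metric.closedBall x0 R,
      ‖T x - T y‖ ≤ 1 / 2 * ‖x - y‖ := by
    intro x hx y hy
    have e : T x - T y = -A.symm (f x - f y - A (x - y)) := by
      rw [map_sub, ContinuousLinearEquiv.symm_apply_apply, map_sub]
      show x - A.symm (f x) - (y - A.symm (f y)) = _
      abel
    rw [e, norm_neg]
    refine (hN _).trans ?_
    have h1 := hf x hx y hy
    have h2 := norm_nonneg (x - y)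
    calc N * ‖f x - f y - A (x - y)‖ ≤ N * (c * ‖x - y‖) := mul_le_mul_of_nonneg_left h1 hN0.le
      _ = (c * N) * ‖x - y‖ := by ring
      _ ≤ 1 / 2 * ‖x - y‖ := mul_le_mul_of_nonneg_right hcN h2
  have hx0 : x0 ∈ Metric.closedBall x0 R := Metric.mem_closedBall_self hR.le
  have hsub : Metric.closedBall x0 (R / 2) ⊆ Metric.closedBall x0 R :=
    Metric.closedBall_subset_closedBall (by linarith)
  have hT0 : ‖T x0 - x0‖ ≤ R / 4 := by
    have e : T x0 - x0 = -A.symm (f x0) := by
      show x0 - A.symm (f x0) - x0 = _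
      abel
    rw [e, norm_neg]
    refine (hN _).trans ?_
    rw [mul_comm]
    exact h0
  have hmaps : Set.MapsTo T (Metric.closedBall x0 (R / 2)) (Metric.closedBall x0 (R / 2)) := by
    intro x hx
    have h1 := hlip x (hsub hx) x0 hx0
    rw [Metric.mem_closedBall, dist_eq_norm] at hx ⊢
    have e : T x - x0 = (T x - T x0) + (T x0 - x0) := by abel
    rw [e]
    refine (norm_add_le _ _).trans ?_
    linarith
  have hcon : ContractingWith (1 / 2 : NNReal) (hmaps.restrict T _ _) := by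
    refine ⟨?_, LipschitzWith.of_dist_le_mul fun x y => ?_⟩
    · rw [← NNReal.coe_lt_coe]
      norm_num
    · rw [Subtype.dist_eq, Subtype.dist_eq, dist_eq_norm, dist_eq_norm]
      have := hlip x.1 (hsub x.2) y.1 (hsub y.2)
      simpa using this
  obtain ⟨z, hz, hfix, -⟩ := ContractingWith.exists_fixedPoint' Metric.isClosed_closedBall.isComplete
    hmaps hcon (Metric.mem_closedBall_self (by linarith : (0 : ℝ) ≤ R / 2)) (edist_ne_top _ _)
  have hiff : ∀ x, f x = 0 → T x = x := by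
    intro x hx
    rw [hT]
    simp [hx]
  have hTz : T z = z := hfix
  have hfz : f z = 0 := by
    have h1 : A.symm (f z) = 0 := by
      have : z - A.symm (f z) = z := hTz
      rwa [sub_eq_self] at this
    have h2 := congrArg A h1
    rwa [ContinuousLinearEquiv.apply_symm_apply, map_zero] at h2
  refine ⟨z, hz, hfz, fun z' hz' hfz' => ?_, fun f' hf' e he => ?_⟩
  · have h1 := hlip z' hz' z (hsub hz)
    rw [hiff z' hfz', hTz] at h1
    have h2 : ‖z' - z‖ = 0 := by
      have := norm_nonneg (z' - z)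
      linarith
    exact sub_eq_zero.1 (norm_eq_zero.1 h2)
  · have hnb : Metric.closedBall x0 R ∈ nhds z := by
      refine Filter.mem_of_superset (Metric.isOpen_ball.mem_nhds ?_) Metric.ball_subset_closedBall
      rw [Metric.mem_closedBall] at hz
      rw [Metric.mem_ball]
      linarith
    have hg : HasFDerivAt (fun x => f x - A x) (f' - (A : E →L[ℝ] F)) z :=
      hf'.sub (A : E →L[ℝ] F).hasFDerivAt
    have hl : LipschitzOnWith (Real.toNNReal c) (fun x => f x - A x) (Metric.closedBall x0 R) := by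
      refine LipschitzOnWith.of_dist_le_mul fun x hx y hy => ?_
      rw [dist_eq_norm, dist_eq_norm, Real.coe_toNNReal c hc]
      have e : f x - A x - (f y - A y) = f x - f y - A (x - y) := by
        rw [map_sub]
        abel
      rw [e]
      exact hf x hx y hy
    have hn := hg.le_of_lipschitzOn hnb hl
    rw [Real.coe_toNNReal c hc] at hn
    have h1 : ‖A e‖ ≤ c * ‖e‖ := by
      have h2 := (f' - (A : E →L[ℝ] F)).le_opNorm e
      have h3 : (f' - (A : E →L[ℝ] F)) e = -A e := by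
        simp [he]
      rw [h3, norm_neg] at h2
      exact h2.trans (mul_le_mul_of_nonneg_right hn (norm_nonneg e))
    have h2 : ‖e‖ ≤ N * ‖A e‖ := by
      have := hN (A e)
      rwa [ContinuousLinearEquiv.symm_apply_apply] at this
    have h3 : ‖A e‖ ≤ 1 / 2 * ‖A e‖ := by
      calc ‖A e‖ ≤ c * ‖e‖ := h1
        _ ≤ c * (N * ‖A e‖) := mul_le_mul_of_nonneg_left h2 hc
        _ = (c * N) * ‖A e‖ := by ring
        _ ≤ 1 / 2 * ‖A e‖ := mul_le_mul_of_nonneg_right hcN (norm_nonneg _)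
    have h4 : ‖A e‖ = 0 := by
      have := norm_nonneg (A e)
      linarith
    have h5 : ‖e‖ ≤ 0 := by
      rw [h4, mul_zero] at h2
      exact h2
    exact norm_le_zero_iff.1 h5

end Pool.Agent.Helper72.BP
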